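import Pool.Agent.Y616.BM.Avg3

set_option autoImplicit false

/-!
# Barnes zeta functions for almost all weights, part 10: almost all parameters are good
-/

namespace Pool.Agent.Y616.BM

open Finset Filter Topology MeasureTheory Complex Set
open Pool.Agent.H131R5.BZ Pool.Agent.Y930.Bz

lemma JJ_meas {r d : ℕ} (B : Matrix (Fin r) (Fin d) ℝ) (a σ U η : ℝ) :
    Measurable fun v : Fin d → ℝ => JJ a (B.mulVec v) σ U η := by
  have hm : Measurable fun q : (Fin d → ℝ) × ℝ => ‖KK a (B.mulVec q.1) (zr q.2 η)‖ₑ ^ 2 *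
      ENNReal.ofReal (Real.exp (-(2 * σ) * q.2)) := by
    refine Measurable.mul (Measurable.pow_const (Measurable.enorm ?_) 2) (by fun_prop)
    have h2 : Measurable fun q : (Fin d → ℝ) × ℝ => ((B.mulVec q.1, zr q.2 η) :
        (Fin r → ℝ) × ℂ) :=
      ((mulVec_meas B).comp measurable_fst).prodMk ((zr_meas η).comp measurable_snd)
    exact (KK_meas a).comp h2
  exact hm.lintegral_prod_right'

/-- the ray integrals are small along dyadic angles for almost all parameters -/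
theorem ae_bound {r d : ℕ} (B : Matrix (Fin r) (Fin d) ℝ) (e : Fin d → Fin r)
    (he : Function.Injective e) (hdet : (B.submatrix e id).det ≠ 0) {α β a : ℝ} (hα : 0 < α)
    (hαβ : α ≤ β) (ha : 0 < a) (U : ℝ) {σ : ℝ} (hσ : (r : ℝ) - d / 2 < σ) {δ : ℝ} (hδ : 0 < δ) :
    ∀ᵐ v ∂(volume.restrict (EN B α β)), ∃ C : ℝ, 0 ≤ C ∧ ∀ n : ℕ,
      JJ a (B.mulVec v) σ U ((1 / 2 : ℝ) ^ n) ≤
        ENNReal.ofReal (C * ((2 : ℝ) ^ n) ^ (2 * σ + δ)) := by
  obtain ⟨C, hC, h1⟩ := JJ_avg B e he hdet hα hαβ ha U hσ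
  set q : ℕ → ℝ := fun n => ((1 / 2 : ℝ) ^ n) ^ (2 * σ + δ) with hq
  have hq0 : ∀ n, 0 < q n := fun n => Real.rpow_pos_of_pos (by positivity) _
  set F : (Fin d → ℝ) → ENNReal := fun v => ∑' n : ℕ, ENNReal.ofReal (q n) *
    JJ a (B.mulVec v) σ U ((1 / 2 : ℝ) ^ n) with hF
  have hFm : Measurable F := by
    refine Measurable.tsum fun n => ?_
    exact (JJ_meas B a σ U _).const_mul _
  have hgeo : ∀ n : ℕ, q n * (C * ((1 / 2 : ℝ) ^ n) ^ (-(2 * σ))) = C * ((1 / 2 : ℝ) ^ δ) ^ n := by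
    intro n
    have hp : (0 : ℝ) < (1 / 2 : ℝ) ^ n := by positivity
    have h2 : q n * (C * ((1 / 2 : ℝ) ^ n) ^ (-(2 * σ))) =
        C * (((1 / 2 : ℝ) ^ n) ^ (2 * σ + δ) * ((1 / 2 : ℝ) ^ n) ^ (-(2 * σ))) := by
      simp only [hq]; ring
    rw [h2, ← Real.rpow_add hp]
    congr 1
    have h3 : 2 * σ + δ + -(2 * σ) = δ := by ring
    rw [h3, ← Real.rpow_natCast, ← Real.rpow_natCast, ← Real.rpow_mul (by norm_num),
      ← Real.rpow_mul (by norm_num), mul_comm]
  have hfin : ∫⁻ v in EN B α β, F v ≠ ⊤ := by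
    have h2 : ∫⁻ v in EN B α β, F v ≤ ∑' n : ℕ, ENNReal.ofReal (C * ((1 / 2 : ℝ) ^ δ) ^ n) := by
      rw [hF, lintegral_tsum fun n => ((JJ_meas B a σ U _).const_mul _).aemeasurable]
      refine ENNReal.tsum_le_tsum fun n => ?_
      rw [lintegral_const_mul _ (JJ_meas B a σ U _), ← hgeo n, ENNReal.ofReal_mul (hq0 n).le]
      gcongr
      exact h1 _ (by positivity) (pow_le_one₀ (by norm_num) (by norm_num))
    refine ne_top_of_le_ne_top ?_ h2
    have h3 : Summable fun n : ℕ => C * ((1 / 2 : ℝ) ^ δ) ^ n :=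
      (summable_geometric_of_lt_one (by positivity)
        (Real.rpow_lt_one (by norm_num) (by norm_num) hδ)).mul_left C
    exact h3.tsum_ofReal_ne_top
  filter_upwards [ae_lt_top hFm hfin] with v hv
  refine ⟨(F v).toReal, ENNReal.toReal_nonneg, fun n => ?_⟩
  have h2 : ENNReal.ofReal (q n) * JJ a (B.mulVec v) σ U ((1 / 2 : ℝ) ^ n) ≤
      ENNReal.ofReal (F v).toReal := by
    rw [ENNReal.ofReal_toReal hv.ne]
    exact ENNReal.le_tsum (f := fun n : ℕ => ENNReal.ofReal (q n) *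
      JJ a (B.mulVec v) σ U ((1 / 2 : ℝ) ^ n)) n
  have h3 : q n * ((2 : ℝ) ^ n) ^ (2 * σ + δ) = 1 := by
    simp only [hq]
    rw [← Real.mul_rpow (by positivity) (by positivity), ← mul_pow]
    norm_num
  calc JJ a (B.mulVec v) σ U ((1 / 2 : ℝ) ^ n)
      = ENNReal.ofReal (((2 : ℝ) ^ n) ^ (2 * σ + δ)) *
        (ENNReal.ofReal (q n) * JJ a (B.mulVec v) σ U ((1 / 2 : ℝ) ^ n)) := by
        rw [← mul_assoc, ← ENNReal.ofReal_mul (by positivity), mul_comm (_ ^ (2 * σ + δ)) (q n), h3,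
          ENNReal.ofReal_one, one_mul]
    _ ≤ ENNReal.ofReal (((2 : ℝ) ^ n) ^ (2 * σ + δ)) * ENNReal.ofReal (F v).toReal := by gcongr
    _ = _ := by
        rw [← ENNReal.ofReal_mul (by positivity), mul_comm]

/-- the real matrix of a rational one -/
def rm {r d : ℕ} (B : Fin r → Fin d → ℚ) : Matrix (Fin r) (Fin d) ℝ :=
  Matrix.of fun j i => (B j i : ℝ)

/-- the good parameters -/
def Good {d : ℕ} (v : Fin d → ℝ) : Prop :=
  ∀ (r : ℕ) (B : Fin r → Fin d → ℚ) (e : Fin d → Fin r) (N U K : ℕ) (σ : ℚ),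
    Function.Injective e → ((rm B).submatrix e id).det ≠ 0 → (r : ℝ) - d / 2 < σ →
    v ∈ EN (rm B) (1 / (N + 1)) (N + 1) → ∃ C : ℝ, 0 ≤ C ∧ ∀ n : ℕ,
      JJ (1 / (N + 1)) ((rm B).mulVec v) σ U ((1 / 2 : ℝ) ^ n) ≤
        ENNReal.ofReal (C * ((2 : ℝ) ^ n) ^ (2 * (σ : ℝ) + 1 / (K + 1)))

theorem ae_good (d : ℕ) : ∀ᵐ v : Fin d → ℝ, Good v := by
  unfold Good
  simp only [ae_all_iff]
  intro r B e N U K σ he hdet hσ
  rw [← ae_restrict_iff' (EN_meas _ _ _)]
  refine ae_bound (rm B) e he hdet (by positivity) ?_ (by positivity) U hσ (by positivity)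
  have h1 : (0 : ℝ) ≤ N := Nat.cast_nonneg N
  rw [div_le_iff₀ (by positivity)]
  nlinarith

/-- almost all vectors are linearly independent over the rationals -/
theorem ae_indep (d : ℕ) : ∀ᵐ v : Fin d → ℝ, LinearIndependent ℚ v := by
  have h1 : ∀ g : Fin d → ℚ, g ≠ 0 → ∀ᵐ v : Fin d → ℝ, ∑ i, g i • v i ≠ 0 := by
    intro g hg
    obtain ⟨i₀, hi₀⟩ : ∃ i, g i ≠ 0 := by
      by_contra h
      push Not at h
      exact hg (funext h)
    set L : (Fin d → ℝ) →ₗ[ℝ] ℝ := ∑ i, (g i : ℝ) • LinearMap.proj i with hL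
    have hLv : ∀ v, L v = ∑ i, g i • v i := by
      intro v
      rw [hL, LinearMap.sum_apply]
      refine Finset.sum_congr rfl fun i _ => ?_
      simp [Rat.smul_def]
    have h2 : LinearMap.ker L ≠ ⊤ := by
      intro h
      have h3 : (Pi.single i₀ (1 : ℝ) : Fin d → ℝ) ∈ LinearMap.ker L := by rw [h]; trivial
      rw [LinearMap.mem_ker, hLv] at h3
      rw [Finset.sum_eq_single i₀ (by intro b _ hb; simp [hb]) (by simp)] at h3
      simp [Rat.smul_def] at h3
      exact hi₀ h3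
    have h3 := Measure.addHaar_submodule (volume : Measure (Fin d → ℝ)) (LinearMap.ker L) h2
    rw [ae_iff]
    convert h3 using 2
    ext v
    simp [LinearMap.mem_ker, hLv]
  have h2 : ∀ᵐ v : Fin d → ℝ, ∀ g : Fin d → ℚ, g ≠ 0 → ∑ i, g i • v i ≠ 0 := by
    simp only [ae_all_iff]
    exact h1
  filter_upwards [h2] with v hv
  rw [Fintype.linearIndependent_iff]
  intro g hg
  by_contra h
  push Not at h
  obtain ⟨i, hi⟩ := h
  exact hv g (fun h => hi (congrFun h i)) hg

/-- weights with the same rational span -/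
theorem lin {d r : ℕ} {v : Fin d → ℝ} (hv : LinearIndependent ℚ v) {w : Fin r → ℝ}
    (hspan : Submodule.span ℚ (range w) = Submodule.span ℚ (range v)) :
    ∃ (B : Fin r → Fin d → ℚ) (e : Fin d → Fin r), Function.Injective e ∧
      ((rm B).submatrix e id).det ≠ 0 ∧ w = (rm B).mulVec v := by
  have h1 : ∀ j, ∃ c : Fin d → ℚ, ∑ i, c i • v i = w j := by
    intro j
    have h2 : w j ∈ Submodule.span ℚ (range v) := by
      rw [← hspan]
      exact Submodule.subset_span (mem_range_self j)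
    exact (Submodule.mem_span_range_iff_exists_fun ℚ).1 h2
  choose B hB using h1
  have hw : w = (rm B).mulVec v := by
    funext j
    rw [← hB j]
    simp only [rm, Matrix.mulVec, dotProduct, Matrix.of_apply, Rat.smul_def]
  have hd : Module.finrank ℚ (Submodule.span ℚ (range w)) = d := by
    rw [hspan, finrank_span_eq_card hv]
    simp
  have h2 : ∀ n : ℕ, Module.finrank ℚ (Submodule.span ℚ (range w)) = n →
      ∃ f : Fin n → ℝ, (∀ i, f i ∈ range w) ∧ LinearIndependent ℚ f := by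
    rintro n rfl
    haveI : Module.Finite ℚ (Submodule.span ℚ (range w)) :=
      FiniteDimensional.span_of_finite ℚ (Set.finite_range w)
    obtain ⟨f, h3, -, h4⟩ := Submodule.exists_fun_fin_finrank_span_eq ℚ (range w)
    exact ⟨f, h3, h4⟩
  obtain ⟨f, hf, hfi⟩ := h2 d hd
  choose e he using hf
  have hwe : LinearIndependent ℚ fun i => w (e i) := by
    have : (fun i => w (e i)) = f := funext he
    rw [this]
    exact hfi
  refine ⟨B, e, ?_, ?_, hw⟩
  · intro i i' h
    exact hwe.injective (by simp [h])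
  · -- the determinant
    set A : Matrix (Fin d) (Fin d) ℚ := Matrix.of fun i k => B (e i) k with hA
    have h3 : (rm B).submatrix e id = (Rat.castHom ℝ).mapMatrix A := by
      ext i k
      simp [rm, hA]
    rw [h3, ← RingHom.map_det]
    intro h4
    have h5 : A.det = 0 := by
      have : ((A.det : ℚ) : ℝ) = 0 := h4
      exact_mod_cast this
    obtain ⟨c, hc, hc0⟩ := Matrix.exists_vecMul_eq_zero_iff.2 h5
    apply hc
    rw [Fintype.linearIndependent_iff] at hwe
    funext i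
    refine hwe c ?_ i
    calc ∑ i, c i • w (e i) = ∑ i, c i • ∑ k, B (e i) k • v k := by simp only [hB]
      _ = ∑ k, (∑ i, c i * B (e i) k) • v k := by
          simp only [Finset.smul_sum, Finset.sum_smul, smul_smul]
          exact Finset.sum_comm
      _ = 0 := by
          refine Finset.sum_eq_zero fun k _ => ?_
          have h6 := congrFun hc0 k
          simp only [Matrix.vecMul, dotProduct, hA, Matrix.of_apply, Pi.zero_apply] at h6
          rw [h6, zero_smul]

end Pool.Agent.Y616.BM
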