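import Pool.Agent.Y616.BM.Zone

set_option autoImplicit false

/-!
# Barnes zeta functions for almost all weights, part 7: averages over the weights
-/

namespace Pool.Agent.Y616.BM

open Finset Filter Topology MeasureTheory Complex Set
open Pool.Agent.H131R5.BZ Pool.Agent.Y930.Bz

/-- Tonelli's theorem for products of functions of one variable -/
lemma lint_pi {n : ℕ} (f : Fin n → ℝ → ENNReal) (hf : ∀ i, Measurable (f i)) :
    ∫⁻ x : Fin n → ℝ, ∏ i, f i (x i) = ∏ i, ∫⁻ x, f i x := by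
  induction n with
  | zero =>
    simp only [Finset.univ_eq_empty, Finset.prod_empty, lintegral_one]
    rw [volume_pi, Measure.pi_univ]
    simp
  | succ n ih =>
    have h1 := (volume_preserving_piFinSuccAbove (fun _ : Fin (n + 1) => ℝ) 0).symm
    rw [← h1.lintegral_comp_emb (MeasurableEquiv.measurableEmbedding _)]
    have h2 : ∀ p : ℝ × (Fin n → ℝ), (∏ i, f i
        ((MeasurableEquiv.piFinSuccAbove (fun _ : Fin (n + 1) => ℝ) 0).symm p i)) =
        f 0 p.1 * ∏ i : Fin n, f i.succ (p.2 i) := by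
      intro p
      rw [Fin.prod_univ_succ]
      rfl
    simp only [h2]
    have h3 : Measurable fun x : Fin n → ℝ => ∏ i : Fin n, f i.succ (x i) :=
      Finset.measurable_fun_prod _ fun i _ => (hf (Fin.succ i)).comp (measurable_pi_apply i)
    have h4 := lintegral_prod_mul (μ := (volume : Measure ℝ)) (ν := (volume : Measure (Fin n → ℝ)))
      (hf 0).aemeasurable h3.aemeasurable
    rw [Measure.volume_eq_prod, h4, ih (fun i => f i.succ) (fun i => hf (Fin.succ i)),
      Fin.prod_univ_succ]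

/-- the Lorentz integral -/
lemma lor {A : ℝ} (hA : 0 < A) (B : ℝ) :
    ∫⁻ w : ℝ, ENNReal.ofReal ((1 + (A * w - B) ^ 2)⁻¹) = ENNReal.ofReal (Real.pi / A) := by
  have h1 : Integrable fun w : ℝ => (1 + (A * w - B) ^ 2)⁻¹ := by
    have h2 := (integrable_inv_one_add_sq.comp_sub_right B).comp_mul_left' hA.ne'
    exact h2
  rw [← ofReal_integral_eq_lintegral_ofReal h1 (ae_of_all _ fun w => by positivity)]
  congr 1
  have h3 := Measure.integral_comp_mul_left (fun x : ℝ => (1 + (x - B) ^ 2)⁻¹) A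
  rw [h3, integral_sub_right_eq_self (fun x : ℝ => (1 + x ^ 2)⁻¹) B, integral_univ_inv_one_add_sq,
    abs_of_pos (inv_pos.2 hA), smul_eq_mul]
  field_simp

/-- pointwise lower bound for one factor -/
lemma fac_sq (w x y : ℝ) : ‖1 - cexp (-(w : ℂ) * ((x : ℂ) + y * I))‖ ^ 2 =
    (1 - Real.exp (-w * x)) ^ 2 + 2 * Real.exp (-w * x) * (1 - Real.cos (w * y)) := by
  have h1 : -(w : ℂ) * ((x : ℂ) + y * I) = ((-w * x : ℝ) : ℂ) + ((-(w * y) : ℝ) : ℂ) * I := by
    push_cast; ring
  rw [h1, ← Complex.normSq_eq_norm_sq, Complex.normSq_apply]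
  have h2 : (cexp (((-w * x : ℝ) : ℂ) + ((-(w * y) : ℝ) : ℂ) * I)).re =
      Real.exp (-w * x) * Real.cos (w * y) := by
    rw [Complex.exp_re]
    simp
  have h3 : (cexp (((-w * x : ℝ) : ℂ) + ((-(w * y) : ℝ) : ℂ) * I)).im =
      -(Real.exp (-w * x) * Real.sin (w * y)) := by
    rw [Complex.exp_im]
    simp
  rw [Complex.sub_re, Complex.sub_im, h2, h3, Complex.one_re, Complex.one_im]
  have h4 := Real.sin_sq_add_cos_sq (w * y)
  have h5 : Real.sin (w * y) ^ 2 = 1 - Real.cos (w * y) ^ 2 := by linarith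
  ring_nf
  rw [h5]
  ring

/-- the term of the majorant -/
noncomputable def lt (m κ y : ℝ) (n : ℕ) (w : ℝ) : ℝ :=
  (m ^ 2 + κ * (w * y - 2 * Real.pi * n) ^ 2)⁻¹

lemma lt_lint {m κ y : ℝ} (hm : 0 < m) (hκ : 0 < κ) (hy : 0 < y) (n : ℕ) :
    ∫⁻ w : ℝ, ENNReal.ofReal (lt m κ y n w) =
      ENNReal.ofReal (Real.pi / (m * Real.sqrt κ * y)) := by
  have hs : 0 < Real.sqrt κ := Real.sqrt_pos.2 hκ
  have hs2 : Real.sqrt κ ^ 2 = κ := Real.sq_sqrt hκ.le
  have h1 : ∀ w : ℝ, ENNReal.ofReal (lt m κ y n w) = ENNReal.ofReal ((m ^ 2)⁻¹) *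
      ENNReal.ofReal ((1 + (Real.sqrt κ * y / m * w - Real.sqrt κ * (2 * Real.pi * n) / m) ^ 2)⁻¹) := by
    intro w
    rw [← ENNReal.ofReal_mul (by positivity), ← mul_inv]
    congr 1
    unfold lt
    congr 1
    have : Real.sqrt κ * y / m * w - Real.sqrt κ * (2 * Real.pi * n) / m =
        Real.sqrt κ * (w * y - 2 * Real.pi * n) / m := by ring
    rw [this, div_pow, mul_pow, hs2]
    field_simp
  simp only [h1]
  rw [lintegral_const_mul _ (by fun_prop), lor (by positivity), ← ENNReal.ofReal_mul (by positivity)]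
  congr 1
  field_simp

/-- near a multiple of `2 π` -/
lemma near_mult {φ : ℝ} (hφ : 0 ≤ φ) :
    |φ - 2 * Real.pi * (⌊φ / (2 * Real.pi) + 1 / 2⌋₊ : ℕ)| ≤ Real.pi := by
  have hp := Real.pi_pos
  set n := ⌊φ / (2 * Real.pi) + 1 / 2⌋₊ with hn
  have h1 : (n : ℝ) ≤ φ / (2 * Real.pi) + 1 / 2 := Nat.floor_le (by positivity)
  have h2 : φ / (2 * Real.pi) + 1 / 2 < n + 1 := Nat.lt_floor_add_one _
  have h3 : φ = (φ / (2 * Real.pi)) * (2 * Real.pi) := by field_simp
  rw [abs_le]
  constructor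
  · nlinarith
  · nlinarith

lemma fac_le {α β x y w : ℝ} (hα : 0 < α) (hw : w ∈ Icc α β) (hx : 0 < x) (hx1 : x ≤ 1)
    (hy : 0 < y) :
    ENNReal.ofReal ((‖1 - cexp (-(w : ℂ) * ((x : ℂ) + y * I))‖ ^ 2)⁻¹) ≤
      ∑ n ∈ Finset.range (⌊β * y / (2 * Real.pi) + 1 / 2⌋₊ + 1),
        ENNReal.ofReal (lt (1 - Real.exp (-α * x)) (4 * Real.exp (-β) / Real.pi ^ 2) y n w) := by
  have hp := Real.pi_pos
  have hw0 : 0 < w := hα.trans_le hw.1
  have hwy : 0 ≤ w * y := by positivity
  set n := ⌊w * y / (2 * Real.pi) + 1 / 2⌋₊ with hn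
  have hnN : n ∈ Finset.range (⌊β * y / (2 * Real.pi) + 1 / 2⌋₊ + 1) := by
    rw [Finset.mem_range, Nat.lt_succ_iff]
    apply Nat.floor_mono
    have := hw.2
    gcongr
  refine le_trans ?_ (Finset.single_le_sum (f := fun n : ℕ =>
    ENNReal.ofReal (lt (1 - Real.exp (-α * x)) (4 * Real.exp (-β) / Real.pi ^ 2) y n w))
    (fun _ _ => zero_le) hnN)
  apply ENNReal.ofReal_le_ofReal
  unfold lt
  have hm : 0 < 1 - Real.exp (-α * x) := one_sub_exp_pos' hα hx
  have h1 := near_mult hwy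
  rw [← hn] at h1
  have h2 := Real.cos_le_one_sub_mul_cos_sq h1
  have h3 : Real.cos (w * y - 2 * Real.pi * n) = Real.cos (w * y) := by
    rw [mul_comm (2 * Real.pi) (n : ℝ)]
    exact Real.cos_sub_nat_mul_two_pi _ _
  rw [h3] at h2
  apply inv_anti₀ (by positivity)
  rw [fac_sq]
  have h4 : Real.exp (-w * x) ≤ Real.exp (-α * x) := by
    apply Real.exp_le_exp.2
    have := hw.1
    nlinarith
  have h5 : Real.exp (-β) ≤ Real.exp (-w * x) := by
    apply Real.exp_le_exp.2
    have := hw.2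
    nlinarith
  have h6 : (1 - Real.exp (-α * x)) ^ 2 ≤ (1 - Real.exp (-w * x)) ^ 2 :=
    pow_le_pow_left₀ hm.le (by linarith) 2
  refine add_le_add h6 ?_
  have h7 : 2 / Real.pi ^ 2 * (w * y - 2 * Real.pi * n) ^ 2 ≤ 1 - Real.cos (w * y) := by linarith
  calc 4 * Real.exp (-β) / Real.pi ^ 2 * (w * y - 2 * Real.pi * n) ^ 2
      = 2 * Real.exp (-β) * (2 / Real.pi ^ 2 * (w * y - 2 * Real.pi * n) ^ 2) := by ring
    _ ≤ 2 * Real.exp (-w * x) * (1 - Real.cos (w * y)) := by
        gcongr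

/-- the average over one weight -/
theorem avg_one {α β y₀ : ℝ} (hα : 0 < α) (hαβ : α ≤ β) (hy₀ : 0 < y₀) :
    ∃ C : ℝ, 0 ≤ C ∧ ∀ x y : ℝ, 0 < x → y₀ ≤ y →
      ∫⁻ w in Icc α β, ENNReal.ofReal ((‖1 - cexp (-(w : ℂ) * ((x : ℂ) + y * I))‖ ^ 2)⁻¹) ≤
        ENNReal.ofReal (C * (1 + 1 / x)) := by
  have hβ : 0 < β := hα.trans_le hαβ
  have hp := Real.pi_pos
  set κ : ℝ := 4 * Real.exp (-β) / Real.pi ^ 2 with hκ
  have hκ0 : 0 < κ := by positivity
  set C₁ : ℝ := (β / (2 * Real.pi) + 2 / y₀) * (Real.pi / Real.sqrt κ) * ((1 + α) / α) with hC₁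
  set C₂ : ℝ := (β - α) * ((1 - Real.exp (-α * 1)) ^ 2)⁻¹ with hC₂
  have hC₁0 : 0 ≤ C₁ := by positivity
  have hm1 : 0 < 1 - Real.exp (-α * 1) := one_sub_exp_pos' hα one_pos
  have hC₂0 : 0 ≤ C₂ := by
    have : 0 ≤ β - α := by linarith
    positivity
  refine ⟨C₁ + C₂, by positivity, fun x y hx hy => ?_⟩
  have hy0 : 0 < y := hy₀.trans_le hy
  rcases le_total x 1 with hx1 | hx1
  · set m := 1 - Real.exp (-α * x) with hm
    have hm0 : 0 < m := one_sub_exp_pos' hα hx
    set N := ⌊β * y / (2 * Real.pi) + 1 / 2⌋₊ with hN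
    have hN1 : ((N + 1 : ℕ) : ℝ) ≤ y * (β / (2 * Real.pi) + 2 / y₀) := by
      have h1 : (N : ℝ) ≤ β * y / (2 * Real.pi) + 1 / 2 := Nat.floor_le (by positivity)
      have h2 : 2 ≤ y * (2 / y₀) := by
        rw [mul_div_assoc', le_div_iff₀ hy₀]
        linarith
      push_cast
      have h3 : y * (β / (2 * Real.pi) + 2 / y₀) = β * y / (2 * Real.pi) + y * (2 / y₀) := by ring
      linarith
    have hmx : α * x / (1 + α) ≤ m := by
      have h1 : Real.exp (-α * x) ≤ 1 / (1 + α * x) := by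
        rw [neg_mul, Real.exp_neg, one_div]
        apply inv_anti₀ (by positivity)
        have := Real.add_one_le_exp (α * x)
        linarith
      have h2 : α * x / (1 + α) ≤ α * x / (1 + α * x) := by
        gcongr
        nlinarith
      have h3 : α * x / (1 + α * x) = 1 - 1 / (1 + α * x) := by
        field_simp
        ring
      linarith
    calc _ ≤ ∫⁻ w in Icc α β, ∑ n ∈ Finset.range (N + 1), ENNReal.ofReal (lt m κ y n w) :=
          setLIntegral_mono' measurableSet_Icc fun w hw => fac_le hα hw hx hx1 hy0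
      _ ≤ ∫⁻ w, ∑ n ∈ Finset.range (N + 1), ENNReal.ofReal (lt m κ y n w) :=
          setLIntegral_le_lintegral _ _
      _ = ∑ n ∈ Finset.range (N + 1), ENNReal.ofReal (Real.pi / (m * Real.sqrt κ * y)) := by
          rw [lintegral_finsetSum]
          · exact Finset.sum_congr rfl fun n _ => lt_lint hm0 hκ0 hy0 n
          · intro n _
            unfold lt
            fun_prop
      _ = ENNReal.ofReal (((N + 1 : ℕ) : ℝ) * (Real.pi / (m * Real.sqrt κ * y))) := by
          rw [Finset.sum_const, Finset.card_range, nsmul_eq_mul,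
            ENNReal.ofReal_mul (by positivity), ENNReal.ofReal_natCast]
      _ ≤ _ := by
          apply ENNReal.ofReal_le_ofReal
          have hsq : 0 < Real.sqrt κ := Real.sqrt_pos.2 hκ0
          calc ((N + 1 : ℕ) : ℝ) * (Real.pi / (m * Real.sqrt κ * y))
              ≤ (y * (β / (2 * Real.pi) + 2 / y₀)) * (Real.pi / (m * Real.sqrt κ * y)) := by
                gcongr
            _ = (β / (2 * Real.pi) + 2 / y₀) * (Real.pi / Real.sqrt κ) * (1 / m) := by
                field_simp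
            _ ≤ (β / (2 * Real.pi) + 2 / y₀) * (Real.pi / Real.sqrt κ) *
                (1 / (α * x / (1 + α))) := by gcongr
            _ = C₁ * (1 / x) := by rw [hC₁]; field_simp
            _ ≤ _ := by
                have : 0 < 1 / x := by positivity
                nlinarith
  · have h1 : ∀ w ∈ Icc α β, ENNReal.ofReal ((‖1 - cexp (-(w : ℂ) * ((x : ℂ) + y * I))‖ ^ 2)⁻¹) ≤
        ENNReal.ofReal (((1 - Real.exp (-α * 1)) ^ 2)⁻¹) := by
      intro w hw
      apply ENNReal.ofReal_le_ofReal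
      apply inv_anti₀ (by positivity)
      rw [fac_sq]
      have h4 : Real.exp (-w * x) ≤ Real.exp (-α * 1) := by
        apply Real.exp_le_exp.2
        have := hw.1
        nlinarith
      have h6 : (1 - Real.exp (-α * 1)) ^ 2 ≤ (1 - Real.exp (-w * x)) ^ 2 :=
        pow_le_pow_left₀ hm1.le (by linarith) 2
      have h7 : 0 ≤ 2 * Real.exp (-w * x) * (1 - Real.cos (w * y)) := by
        have := Real.cos_le_one (w * y)
        have h8 : 0 ≤ 1 - Real.cos (w * y) := by linarith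
        positivity
      linarith
    calc _ ≤ ∫⁻ w in Icc α β, ENNReal.ofReal (((1 - Real.exp (-α * 1)) ^ 2)⁻¹) :=
          setLIntegral_mono' measurableSet_Icc h1
      _ = ENNReal.ofReal C₂ := by
          rw [lintegral_const, Measure.restrict_apply_univ, Real.volume_Icc,
            ← ENNReal.ofReal_mul (by positivity), hC₂, mul_comm]
      _ ≤ _ := by
          apply ENNReal.ofReal_le_ofReal
          have : 0 < 1 / x := by positivity
          nlinarith

end Pool.Agent.Y616.BM
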