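import Pool.Agent.Y616.BM.Avg

set_option autoImplicit false

/-!
# Barnes zeta functions for almost all weights, part 8: averages over rational families of weights
-/

namespace Pool.Agent.Y616.BM

open Finset Filter Topology MeasureTheory Complex Set
open Pool.Agent.H131R5.BZ Pool.Agent.Y930.Bz

/-- the square of one factor -/
noncomputable def fac (w : ℝ) (z : ℂ) : ENNReal :=
  ENNReal.ofReal ((‖1 - cexp (-(w : ℂ) * z)‖ ^ 2)⁻¹)

lemma fac_meas (z : ℂ) : Measurable fun w : ℝ => fac w z := by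
  unfold fac
  fun_prop

lemma KK_enorm {r : ℕ} (a : ℝ) (w : Fin r → ℝ) (z : ℂ) :
    ‖KK a w z‖ₑ ^ 2 = ENNReal.ofReal (Real.exp (-(2 * a) * z.re)) * ∏ j, fac (w j) z := by
  have h1 : ‖KK a w z‖ ^ 2 = Real.exp (-(2 * a) * z.re) *
      ∏ j, (‖1 - cexp (-(w j : ℂ) * z)‖ ^ 2)⁻¹ := by
    unfold KK
    rw [norm_mul, norm_prod, mul_pow, ← Finset.prod_pow]
    congr 1
    · rw [Complex.norm_exp, ← Real.exp_nat_mul]
      congr 1
      simp
      ring
    · refine Finset.prod_congr rfl fun j _ => ?_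
      rw [norm_inv, inv_pow]
  rw [← ofReal_norm, ← ENNReal.ofReal_pow (norm_nonneg _), h1,
    ENNReal.ofReal_mul (Real.exp_pos _).le, ENNReal.ofReal_prod_of_nonneg]
  · rfl
  · intro j _
    positivity

/-- the region of parameters with weights between `α` and `β` -/
def EN {r d : ℕ} (B : Matrix (Fin r) (Fin d) ℝ) (α β : ℝ) : Set (Fin d → ℝ) :=
  {v | ∀ j, B.mulVec v j ∈ Icc α β}

lemma mulVec_meas {r d : ℕ} (B : Matrix (Fin r) (Fin d) ℝ) :
    Measurable fun v : Fin d → ℝ => B.mulVec v := by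
  have : Continuous fun v : Fin d → ℝ => B.mulVec v := by fun_prop
  exact this.measurable

lemma EN_meas {r d : ℕ} (B : Matrix (Fin r) (Fin d) ℝ) (α β : ℝ) : MeasurableSet (EN B α β) := by
  have h1 : EN B α β = ⋂ j, (fun v : Fin d → ℝ => B.mulVec v j) ⁻¹' Icc α β := by
    ext v
    simp [EN]
  rw [h1]
  refine MeasurableSet.iInter fun j => ?_
  exact ((measurable_pi_apply j).comp (mulVec_meas B)) measurableSet_Icc

lemma lint_matrix {d : ℕ} {A : Matrix (Fin d) (Fin d) ℝ} (hA : A.det ≠ 0) {g : ℝ → ENNReal}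
    (hg : Measurable g) :
    ∫⁻ v : Fin d → ℝ, ∏ i, g (A.mulVec v i) = ENNReal.ofReal |A.det⁻¹| * (∫⁻ x, g x) ^ d := by
  have h1 : Measurable fun v : Fin d → ℝ => ∏ i, g (v i) :=
    Finset.measurable_fun_prod _ fun i _ => hg.comp (measurable_pi_apply i)
  have h2 : ∫⁻ v : Fin d → ℝ, ∏ i, g (A.mulVec v i) =
      ∫⁻ v, (fun v : Fin d → ℝ => ∏ i, g (v i)) v ∂(Measure.map (Matrix.toLin' A) volume) := by
    rw [lintegral_map h1]
    · rfl
    · exact mulVec_meas A
  rw [h2, Real.map_matrix_volume_pi_eq_smul_volume_pi hA, lintegral_smul_measure, smul_eq_mul]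
  congr 1
  rw [lint_pi (fun _ => g) (fun _ => hg)]
  simp

/-- the average of the kernel over a rational family -/
theorem avg_mat {r d : ℕ} (B : Matrix (Fin r) (Fin d) ℝ) (e : Fin d → Fin r)
    (he : Function.Injective e) (hdet : (B.submatrix e id).det ≠ 0) {α β y₀ : ℝ} (hα : 0 < α)
    (hαβ : α ≤ β) (hy₀ : 0 < y₀) :
    ∃ C : ℝ, 0 ≤ C ∧ ∀ x y : ℝ, 0 < x → y₀ ≤ y →
      ∫⁻ v in EN B α β, ∏ j, fac (B.mulVec v j) ((x : ℂ) + y * I) ≤
        ENNReal.ofReal (C * (1 + 1 / x) ^ (2 * r - d)) := by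
  classical
  obtain ⟨C, hC, h1⟩ := avg_one hα hαβ hy₀
  set A := B.submatrix e id with hA
  have hdr : d ≤ r := by
    simpa using Fintype.card_le_of_injective e he
  set K : ℝ := (1 + 1 / α) ^ 2 with hK
  refine ⟨K ^ (r - d) * (|A.det⁻¹| * C ^ d), by positivity, fun x y hx hy => ?_⟩
  set z : ℂ := (x : ℂ) + y * I with hz
  have hzre : z.re = x := by simp [hz]
  -- the free factors
  have hfree : ∀ w : ℝ, α ≤ w → fac w z ≤ ENNReal.ofReal (K * (1 + 1 / x) ^ 2) := by
    intro w hw
    apply ENNReal.ofReal_le_ofReal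
    have hw0 : 0 < w := hα.trans_le hw
    have h2 : α * x / (1 + α * x) ≤ ‖1 - cexp (-(w : ℂ) * z)‖ := by
      have h3 := one_sub_exp_le hw0 (z := z) (by rw [hzre]; exact hx)
      rw [hzre] at h3
      refine le_trans ?_ h3
      have h4 : Real.exp (-w * x) ≤ 1 / (1 + α * x) := by
        rw [neg_mul, Real.exp_neg, one_div]
        apply inv_anti₀ (by positivity)
        have := Real.add_one_le_exp (w * x)
        nlinarith
      have h5 : α * x / (1 + α * x) = 1 - 1 / (1 + α * x) := by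
        field_simp
        ring
      linarith
    calc (‖1 - cexp (-(w : ℂ) * z)‖ ^ 2)⁻¹ ≤ ((α * x / (1 + α * x)) ^ 2)⁻¹ := by
          apply inv_anti₀ (by positivity)
          gcongr
      _ = (1 + 1 / (α * x)) ^ 2 := by
          field_simp
          ring
      _ ≤ ((1 + 1 / α) * (1 + 1 / x)) ^ 2 := by
          apply pow_le_pow_left₀ (by positivity)
          have h6 : (1 + 1 / α) * (1 + 1 / x) = 1 + 1 / (α * x) + (1 / α + 1 / x) := by
            field_simp
            ring
          rw [h6]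
          have : 0 < 1 / α + 1 / x := by positivity
          linarith
      _ = K * (1 + 1 / x) ^ 2 := by rw [mul_pow, hK]
  set g : ℝ → ENNReal := (Icc α β).indicator fun w => fac w z with hg
  have hgm : Measurable g := (fac_meas z).indicator measurableSet_Icc
  have hpt : ∀ v ∈ EN B α β, ∏ j, fac (B.mulVec v j) z ≤
      ENNReal.ofReal (K * (1 + 1 / x) ^ 2) ^ (r - d) * ∏ i, g (A.mulVec v i) := by
    intro v hv
    rw [← Finset.prod_sdiff (Finset.subset_univ (Finset.univ.image e))]
    have h2 : ∏ j ∈ Finset.univ.image e, fac (B.mulVec v j) z = ∏ i, g (A.mulVec v i) := by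
      rw [Finset.prod_image (fun a _ b _ h => he h)]
      refine Finset.prod_congr rfl fun i _ => ?_
      have h3 : A.mulVec v i = B.mulVec v (e i) := rfl
      rw [h3, hg, Set.indicator_of_mem (hv (e i))]
    rw [h2]
    gcongr
    have h4 : (Finset.univ \ Finset.univ.image e).card = r - d := by
      rw [Finset.card_sdiff_of_subset (Finset.subset_univ _), Finset.card_image_of_injective _ he]
      simp
    rw [← h4, ← Finset.prod_const]
    exact Finset.prod_le_prod' fun j _ => hfree _ (hv j).1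
  calc _ ≤ ∫⁻ v in EN B α β, ENNReal.ofReal (K * (1 + 1 / x) ^ 2) ^ (r - d) *
        ∏ i, g (A.mulVec v i) := setLIntegral_mono' (EN_meas B α β) hpt
    _ ≤ ∫⁻ v, ENNReal.ofReal (K * (1 + 1 / x) ^ 2) ^ (r - d) * ∏ i, g (A.mulVec v i) :=
        setLIntegral_le_lintegral _ _
    _ = ENNReal.ofReal (K * (1 + 1 / x) ^ 2) ^ (r - d) *
        (ENNReal.ofReal |A.det⁻¹| * (∫⁻ w in Icc α β, fac w z) ^ d) := by
        rw [lintegral_const_mul, lint_matrix hdet hgm, hg, lintegral_indicator measurableSet_Icc]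
        exact Finset.measurable_fun_prod _ fun i _ =>
          hgm.comp ((measurable_pi_apply i).comp (mulVec_meas A))
    _ ≤ ENNReal.ofReal (K * (1 + 1 / x) ^ 2) ^ (r - d) *
        (ENNReal.ofReal |A.det⁻¹| * (ENNReal.ofReal (C * (1 + 1 / x))) ^ d) := by
        gcongr
        exact h1 x y hx hy
    _ = _ := by
        have hx' : 0 < 1 / x := by positivity
        rw [← ENNReal.ofReal_pow (by positivity), ← ENNReal.ofReal_pow (by positivity),
          ← ENNReal.ofReal_mul (by positivity), ← ENNReal.ofReal_mul (by positivity)]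
        congr 1
        have h5 : 2 * r - d = 2 * (r - d) + d := by omega
        rw [h5]
        generalize 1 + 1 / x = t
        generalize r - d = n
        ring

end Pool.Agent.Y616.BM
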