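import Pool.Agent.Y616.BM.Avg2

set_option autoImplicit false

/-!
# Barnes zeta functions for almost all weights, part 9: the average of the ray integral
-/

namespace Pool.Agent.Y616.BM

open Finset Filter Topology MeasureTheory Complex Set
open Pool.Agent.H131R5.BZ Pool.Agent.Y930.Bz

/-- a point on the ray -/
noncomputable def zr (u η : ℝ) : ℂ := cexp (-(u : ℂ) + ((Real.pi / 2 - η : ℝ) : ℂ) * I)

lemma zr_eq (u η : ℝ) : zr u η =
    ((Real.exp (-u) * Real.sin η : ℝ) : ℂ) + ((Real.exp (-u) * Real.cos η : ℝ) : ℂ) * I := by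
  apply Complex.ext
  · unfold zr
    rw [exp_re, Real.cos_pi_div_two_sub, Complex.add_re, Complex.ofReal_re,
      Complex.re_ofReal_mul, Complex.I_re, mul_zero, add_zero]
  · unfold zr
    rw [Complex.exp_im]
    have h1 : (-(u : ℂ) + ((Real.pi / 2 - η : ℝ) : ℂ) * I).re = -u := by simp
    have h2 : (-(u : ℂ) + ((Real.pi / 2 - η : ℝ) : ℂ) * I).im = Real.pi / 2 - η := by simp
    rw [h1, h2, Real.sin_pi_div_two_sub, Complex.add_im, Complex.ofReal_im,
      Complex.im_ofReal_mul, Complex.I_im, mul_one, zero_add]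

lemma zr_meas (η : ℝ) : Measurable fun u : ℝ => zr u η := by
  unfold zr
  fun_prop

/-- the average of the ray integral over a rational family -/
theorem JJ_avg {r d : ℕ} (B : Matrix (Fin r) (Fin d) ℝ) (e : Fin d → Fin r)
    (he : Function.Injective e) (hdet : (B.submatrix e id).det ≠ 0) {α β a : ℝ} (hα : 0 < α)
    (hαβ : α ≤ β) (ha : 0 < a) (U : ℝ) {σ : ℝ} (hσ : (r : ℝ) - d / 2 < σ) :
    ∃ C : ℝ, 0 ≤ C ∧ ∀ η : ℝ, 0 < η → η ≤ 1 →
      ∫⁻ v in EN B α β, JJ a (B.mulVec v) σ U η ≤ ENNReal.ofReal (C * η ^ (-(2 * σ))) := by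
  have hdr : d ≤ r := by
    simpa using Fintype.card_le_of_injective e he
  set p : ℕ := 2 * r - d with hp
  have hpr : (p : ℝ) = 2 * r - d := by
    rw [hp, Nat.cast_sub (by omega)]
    push_cast
    ring
  have hσp : 0 < 2 * σ - p := by rw [hpr]; linarith
  have hσ0 : 0 < 2 * σ := by
    have : (0 : ℝ) ≤ p := Nat.cast_nonneg p
    linarith
  have hcos : 0 < Real.cos 1 := Real.cos_one_pos
  obtain ⟨C, hC, h1⟩ := avg_mat B e he hdet hα hαβ (y₀ := Real.exp (-U) * Real.cos 1)
    (by positivity)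
  obtain ⟨G₁, hG₁, hg1⟩ := gf_lint_scale (σ := 2 * σ) (c := a) hσ0 ha
  obtain ⟨G₂, hG₂, hg2⟩ := gf_lint_scale (σ := 2 * σ - p) (c := a) hσp ha
  set D : ℝ := C * 2 ^ (p - 1) with hD
  have hD0 : 0 ≤ D := by positivity
  refine ⟨D * G₁ + D * 2 ^ p * G₂, by positivity, fun η hη hη1 => ?_⟩
  have hsin := sin_ge hη.le hη1
  have hsin0 : 0 < Real.sin η := by linarith
  have hm : Measurable fun q : (Fin d → ℝ) × ℝ => ‖KK a (B.mulVec q.1) (zr q.2 η)‖ₑ ^ 2 *
      ENNReal.ofReal (Real.exp (-(2 * σ) * q.2)) := by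
    refine Measurable.mul (Measurable.pow_const (Measurable.enorm ?_) 2) (by fun_prop)
    have h2 : Measurable fun q : (Fin d → ℝ) × ℝ => ((B.mulVec q.1, zr q.2 η) :
        (Fin r → ℝ) × ℂ) :=
      ((mulVec_meas B).comp measurable_fst).prodMk ((zr_meas η).comp measurable_snd)
    exact (KK_meas a).comp h2
  have hin : ∀ u ∈ Iic U, ∫⁻ v in EN B α β, ‖KK a (B.mulVec v) (zr u η)‖ₑ ^ 2 *
      ENNReal.ofReal (Real.exp (-(2 * σ) * u)) ≤
      ENNReal.ofReal (D * gf (2 * σ) (a * η) u) +
        ENNReal.ofReal (D * (2 / η) ^ p * gf (2 * σ - p) (a * η) u) := by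
    intro u hu
    set x : ℝ := Real.exp (-u) * Real.sin η with hx
    set y : ℝ := Real.exp (-u) * Real.cos η with hy
    have hx0 : 0 < x := by positivity
    have hcη : Real.cos 1 ≤ Real.cos η :=
      Real.cos_le_cos_of_nonneg_of_le_pi hη.le (by linarith [Real.pi_gt_three]) hη1
    have hy0 : Real.exp (-U) * Real.cos 1 ≤ y := by
      have h2 : Real.exp (-U) ≤ Real.exp (-u) := Real.exp_le_exp.2 (by simpa using hu)
      rw [hy]
      gcongr
    have hzr : zr u η = (x : ℂ) + y * I := zr_eq u η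
    have hre : (zr u η).re = x := by rw [hzr]; simp
    have h2 : ∀ v, ‖KK a (B.mulVec v) (zr u η)‖ₑ ^ 2 * ENNReal.ofReal (Real.exp (-(2 * σ) * u)) =
        ENNReal.ofReal (Real.exp (-(2 * a) * x) * Real.exp (-(2 * σ) * u)) *
          ∏ j, fac (B.mulVec v j) ((x : ℂ) + y * I) := by
      intro v
      rw [KK_enorm, hre, hzr, ENNReal.ofReal_mul (Real.exp_pos _).le]
      ring
    simp only [h2]
    rw [lintegral_const_mul' _ _ ENNReal.ofReal_ne_top]
    have hxge : Real.exp (-u) * η / 2 ≤ x := by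
      rw [hx, mul_div_assoc]
      gcongr
    have h3 : (1 + 1 / x) ^ p ≤ 2 ^ (p - 1) * (1 + (2 / η) ^ p * Real.exp (p * u)) := by
      have h4 : 1 / x ≤ 2 / η * Real.exp u := by
        rw [div_le_iff₀ hx0]
        calc (1 : ℝ) = 2 / η * Real.exp u * (Real.exp (-u) * η / 2) := by
              rw [Real.exp_neg]
              field_simp
          _ ≤ 2 / η * Real.exp u * x := by gcongr
      calc (1 + 1 / x) ^ p ≤ 2 ^ (p - 1) * (1 ^ p + (1 / x) ^ p) :=
            add_pow_le zero_le_one (by positivity) p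
        _ ≤ 2 ^ (p - 1) * (1 ^ p + (2 / η * Real.exp u) ^ p) := by gcongr
        _ = _ := by rw [one_pow, mul_pow, ← Real.exp_nat_mul]
    have h5 : Real.exp (-(2 * a) * x) ≤ Real.exp (-(a * η) * Real.exp (-u)) := by
      apply Real.exp_le_exp.2
      nlinarith
    calc _ ≤ ENNReal.ofReal (Real.exp (-(2 * a) * x) * Real.exp (-(2 * σ) * u)) *
          ENNReal.ofReal (C * (1 + 1 / x) ^ p) := by
          gcongr
          exact h1 x y hx0 hy0
      _ = ENNReal.ofReal (Real.exp (-(2 * a) * x) * Real.exp (-(2 * σ) * u) *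
          (C * (1 + 1 / x) ^ p)) := by rw [← ENNReal.ofReal_mul (by positivity)]
      _ ≤ ENNReal.ofReal (Real.exp (-(a * η) * Real.exp (-u)) * Real.exp (-(2 * σ) * u) *
          (C * (2 ^ (p - 1) * (1 + (2 / η) ^ p * Real.exp (p * u))))) := by
          apply ENNReal.ofReal_le_ofReal
          gcongr
      _ = ENNReal.ofReal (D * gf (2 * σ) (a * η) u +
          D * (2 / η) ^ p * gf (2 * σ - p) (a * η) u) := by
          congr 1
          unfold gf
          have h6 : Real.exp (-(2 * σ - p) * u) = Real.exp (-(2 * σ) * u) * Real.exp (p * u) := by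
            rw [← Real.exp_add]
            congr 1
            ring
          rw [h6, hD]
          ring
      _ = _ := by
          rw [ENNReal.ofReal_add]
          · exact mul_nonneg hD0 (gf_pos _ _ _).le
          · exact mul_nonneg (by positivity) (gf_pos _ _ _).le
  calc ∫⁻ v in EN B α β, JJ a (B.mulVec v) σ U η
      = ∫⁻ v in EN B α β, ∫⁻ u in Iic U, ‖KK a (B.mulVec v) (zr u η)‖ₑ ^ 2 *
        ENNReal.ofReal (Real.exp (-(2 * σ) * u)) := rfl
    _ = ∫⁻ u in Iic U, ∫⁻ v in EN B α β, ‖KK a (B.mulVec v) (zr u η)‖ₑ ^ 2 *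
        ENNReal.ofReal (Real.exp (-(2 * σ) * u)) :=
        lintegral_lintegral_swap hm.aemeasurable
    _ ≤ ∫⁻ u in Iic U, (ENNReal.ofReal (D * gf (2 * σ) (a * η) u) +
        ENNReal.ofReal (D * (2 / η) ^ p * gf (2 * σ - p) (a * η) u)) :=
        setLIntegral_mono' measurableSet_Iic hin
    _ ≤ ∫⁻ u, (ENNReal.ofReal (D * gf (2 * σ) (a * η) u) +
        ENNReal.ofReal (D * (2 / η) ^ p * gf (2 * σ - p) (a * η) u)) :=
        setLIntegral_le_lintegral _ _
    _ = ENNReal.ofReal (D * (G₁ * η ^ (-(2 * σ)))) +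
        ENNReal.ofReal (D * (2 / η) ^ p * (G₂ * η ^ (-(2 * σ - p)))) := by
        rw [lintegral_add_left ((gf_cont _ _).measurable.const_mul D).ennreal_ofReal]
        congr 1
        · have h6 : ∀ u, ENNReal.ofReal (D * gf (2 * σ) (a * η) u) =
              ENNReal.ofReal D * ENNReal.ofReal (gf (2 * σ) (a * η) u) := fun u =>
            ENNReal.ofReal_mul hD0
          simp only [h6]
          rw [lintegral_const_mul _ (gf_cont _ _).measurable.ennreal_ofReal, hg1 η hη,
            ← ENNReal.ofReal_mul hD0]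
        · have hD1 : 0 ≤ D * (2 / η) ^ p := by positivity
          have h6 : ∀ u, ENNReal.ofReal (D * (2 / η) ^ p * gf (2 * σ - p) (a * η) u) =
              ENNReal.ofReal (D * (2 / η) ^ p) * ENNReal.ofReal (gf (2 * σ - p) (a * η) u) :=
            fun u => ENNReal.ofReal_mul hD1
          simp only [h6]
          rw [lintegral_const_mul _ (gf_cont _ _).measurable.ennreal_ofReal, hg2 η hη,
            ← ENNReal.ofReal_mul hD1]
    _ = _ := by
        rw [← ENNReal.ofReal_add (by positivity) (by positivity)]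
        congr 1
        have h7 : η ^ (-(2 * σ - p)) = η ^ (-(2 * σ)) * η ^ p := by
          rw [← Real.rpow_natCast, ← Real.rpow_add hη]
          congr 1
          ring
        rw [h7, div_pow]
        have : η ^ p ≠ 0 := by positivity
        field_simp

end Pool.Agent.Y616.BM
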