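import Pool.Agent.Y616.BM.Ker

set_option autoImplicit false

/-!
# Barnes zeta functions for almost all weights, part 4: the formula in the first quadrant
-/

namespace Pool.Agent.Y616.BM

open Finset Filter Topology MeasureTheory Complex Set
open Pool.Agent.H131R5.BZ Pool.Agent.Y930.Bz

variable {r : ℕ} {a : ℝ} {w : Fin r → ℝ} {c : ℕ → ℂ}

/-- the rational part -/
noncomputable def Rt (r : ℕ) (b : ℕ → ℂ) (s : ℂ) : ℂ :=
  ∑ k ∈ range r, b k * (∏ i ∈ range (r - k), (s - (i + 1)))⁻¹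

lemma Rt_le (b : ℕ → ℂ) {s : ℂ} (hs : 1 ≤ s.im) : ‖Rt r b s‖ ≤ ∑ k ∈ range r, ‖b k‖ := by
  unfold Rt
  refine (norm_sum_le _ _).trans (Finset.sum_le_sum fun k _ => ?_)
  rw [norm_mul, norm_inv, norm_prod]
  have h : 1 ≤ ∏ i ∈ range (r - k), ‖s - (i + 1)‖ := by
    have h0 : (1 : ℝ) = ∏ _i ∈ range (r - k), (1 : ℝ) := by simp
    rw [h0]
    refine Finset.prod_le_prod (fun _ _ => zero_le_one) fun i _ => ?_
    have h1 := Complex.abs_im_le_norm (s - (i + 1))
    have h2 : (s - (i + 1)).im = s.im := by simp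
    rw [h2, abs_of_nonneg (by linarith)] at h1
    linarith
  calc ‖b k‖ * (∏ i ∈ range (r - k), ‖s - (i + 1)‖)⁻¹ ≤ ‖b k‖ * 1 := by
        refine mul_le_mul_of_nonneg_left (inv_le_one_of_one_le₀ h) (norm_nonneg _)
    _ = _ := mul_one _

/-- the Gamma function at shifted arguments -/
lemma Gamma_down (m : ℕ) {s : ℂ} (hs : (m : ℝ) < s.re) :
    Gamma (s - m) = Gamma s * (∏ i ∈ range m, (s - (i + 1)))⁻¹ := by
  induction m with
  | zero => simp
  | succ m ih =>
    have h1 : (m : ℝ) < s.re := by push_cast at hs; linarith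
    have h2 : s - (m + 1) ≠ 0 := by
      intro h
      have := congrArg Complex.re h
      simp at this
      push_cast at hs
      linarith
    have h3 := Complex.Gamma_add_one (s - (m + 1)) h2
    have h4 : s - (m + 1) + 1 = s - m := by ring
    rw [h4, ih h1] at h3
    rw [Finset.prod_range_succ, mul_inv]
    have h5 : s - ((m + 1 : ℕ) : ℂ) = s - (m + 1) := by push_cast; ring
    rw [h5]
    field_simp
    rw [← h3]
    ring

lemma mellin_exp {s : ℂ} (hs : 0 < s.re) :
    MellinConvergent (fun t : ℝ => cexp (-(t : ℂ))) s ∧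
      mellin (fun t : ℝ => cexp (-(t : ℂ))) s = Gamma s := by
  have h1 := Complex.GammaIntegral_convergent hs
  have h2 := Complex.Gamma_eq_integral hs
  constructor
  · unfold MellinConvergent
    refine h1.congr_fun (fun t _ => ?_) measurableSet_Ioi
    simp only [smul_eq_mul]
    rw [mul_comm]
    push_cast
    ring_nf
  · rw [h2]
    unfold mellin GammaIntegral
    refine setIntegral_congr_fun measurableSet_Ioi fun t _ => ?_
    simp only [smul_eq_mul]
    rw [mul_comm]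
    push_cast
    ring_nf

lemma mellin_pow (m : ℕ) {s : ℂ} (hs : (m : ℝ) < s.re) :
    MellinConvergent (fun t : ℝ => cexp (-(t : ℂ)) * ((t : ℂ) ^ m)⁻¹) s ∧
      mellin (fun t : ℝ => cexp (-(t : ℂ)) * ((t : ℂ) ^ m)⁻¹) s = Gamma (s - m) := by
  have h0 : 0 < (s + -(m : ℂ)).re := by simp; linarith
  obtain ⟨h1, h2⟩ := mellin_exp h0
  have e : ∀ t : ℝ, (t : ℂ) ^ (-(m : ℂ)) • cexp (-(t : ℂ)) =
      cexp (-(t : ℂ)) * ((t : ℂ) ^ m)⁻¹ := by
    intro t
    rw [smul_eq_mul, Complex.cpow_neg, Complex.cpow_natCast, mul_comm]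
  have h3 : MellinConvergent (fun t : ℝ => (t : ℂ) ^ (-(m : ℂ)) • cexp (-(t : ℂ))) s := by
    rw [MellinConvergent.cpow_smul]
    exact h1
  have h4 : mellin (fun t : ℝ => (t : ℂ) ^ (-(m : ℂ)) • cexp (-(t : ℂ))) s =
      mellin (fun t : ℝ => cexp (-(t : ℂ))) (s + (-(m : ℂ))) := mellin_cpow_smul _ _ _
  simp only [e] at h3 h4
  refine ⟨h3, ?_⟩
  rw [h4, h2, sub_eq_add_neg]

lemma mellin_Pol (b : ℕ → ℂ) {s : ℂ} (hs : (r : ℝ) < s.re) :
    MellinConvergent (fun t : ℝ => Pol r b t) s ∧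
      mellin (fun t : ℝ => Pol r b t) s = ∑ k ∈ range r, b k * Gamma (s - (r - k : ℕ)) := by
  have h1 : ∀ k ∈ range r, MellinConvergent
      (fun t : ℝ => b k • (cexp (-(t : ℂ)) * ((t : ℂ) ^ (r - k))⁻¹)) s := by
    intro k _
    refine MellinConvergent.const_smul (mellin_pow (r - k) ?_).1 _
    have : ((r - k : ℕ) : ℝ) ≤ r := by exact_mod_cast Nat.sub_le r k
    linarith
  have h2 : (fun t : ℝ => Pol r b t) =
      fun t : ℝ => ∑ k ∈ range r, b k • (cexp (-(t : ℂ)) * ((t : ℂ) ^ (r - k))⁻¹) := by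
    funext t
    unfold Pol
    rw [Finset.mul_sum]
    refine Finset.sum_congr rfl fun k _ => ?_
    rw [smul_eq_mul]; ring
  rw [h2]
  constructor
  · unfold MellinConvergent
    simp only [Finset.smul_sum]
    exact integrable_finsetSum _ h1
  · unfold mellin
    simp only [Finset.smul_sum]
    rw [integral_finsetSum _ h1]
    refine Finset.sum_congr rfl fun k _ => ?_
    have h3 := (mellin_pow (r - k) (s := s) (by
      have : ((r - k : ℕ) : ℝ) ≤ r := by exact_mod_cast Nat.sub_le r k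
      linarith)).2
    have h4 : mellin (fun t : ℝ => b k • (cexp (-(t : ℂ)) * ((t : ℂ) ^ (r - k))⁻¹)) s =
        b k • mellin (fun t : ℝ => cexp (-(t : ℂ)) * ((t : ℂ) ^ (r - k))⁻¹) s :=
      mellin_const_smul _ _ _
    rw [h3, smul_eq_mul] at h4
    exact h4

lemma Kt_real_cont (hw : ∀ j, 0 < w j) (b : ℕ → ℂ) :
    ContinuousOn (fun t : ℝ => Kt a w b t) (Ioi 0) := by
  intro t ht
  have h1 : DifferentiableAt ℂ (Kt a w b) (t : ℂ) := Kt_diff hw b (by simpa using ht)
  exact (ContinuousAt.comp (g := Kt a w b) (f := fun t : ℝ => (t : ℂ)) h1.continuousAt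
    Complex.continuous_ofReal.continuousAt).continuousWithinAt

/-- analyticity of the Mellin transform -/
lemma mellin_Kt_diff (ha : 0 < a) (hw : ∀ j, 0 < w j) {b : ℕ → ℂ} {ρ C₀ : ℝ} (hρ : 0 < ρ)
    (hρ1 : ρ ≤ 1) (h0 : ∀ z : ℂ, z ≠ 0 → ‖z‖ ≤ ρ → ‖Kt a w b z‖ ≤ C₀) {s : ℂ} (hs : 0 < s.re) :
    DifferentiableAt ℂ (mellin (fun t : ℝ => Kt a w b t)) s := by
  obtain ⟨C, c, hC, hc, h1⟩ := Kt_sector ha hw hρ hρ1 h0 one_pos
  have h2 : ∀ t : ℝ, 0 < t → ‖Kt a w b t‖ ≤ C * Real.exp (-c * t) := by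
    intro t ht
    have h3 := h1 (t : ℂ) (by exact_mod_cast ht.ne') (by
      rw [Complex.norm_real, Real.norm_of_nonneg ht.le]; simp)
    rwa [Complex.norm_real, Real.norm_of_nonneg ht.le] at h3
  refine mellin_differentiableAt_of_isBigO_rpow_exp hc
    ((Kt_real_cont hw b).locallyIntegrableOn measurableSet_Ioi) ?_ (b := 0) ?_ hs
  · refine Asymptotics.IsBigO.of_bound C ?_
    filter_upwards [eventually_gt_atTop (0 : ℝ)] with t ht
    rw [Real.norm_of_nonneg (Real.exp_pos _).le]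
    exact h2 t ht
  · refine Asymptotics.IsBigO.of_bound C ?_
    filter_upwards [self_mem_nhdsWithin] with t ht
    have ht0 : (0 : ℝ) < t := ht
    simp only [neg_zero, Real.rpow_zero, norm_one, mul_one]
    refine (h2 t ht0).trans ?_
    have : Real.exp (-c * t) ≤ 1 := by
      rw [Real.exp_le_one_iff]
      nlinarith
    nlinarith

/-- the formula for the continuation in the first quadrant -/
theorem FF_formula (ha : 0 < a) (hw : ∀ j, 0 < w j) (hc : Tay a w c) {b : ℕ → ℂ} {ρ C₀ : ℝ}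
    (hρ : 0 < ρ) (hρ1 : ρ ≤ 1) (h0 : ∀ z : ℂ, z ≠ 0 → ‖z‖ ≤ ρ → ‖Kt a w b z‖ ≤ C₀) {s : ℂ}
    (hs : 0 < s.re) (hs' : 0 < s.im) :
    FF a w c s = (Gamma s)⁻¹ * mellin (fun t : ℝ => Kt a w b t) s + Rt r b s := by
  set Q : Set ℂ := {z | 0 < z.re ∧ 0 < z.im} with hQ
  have hQc : Convex ℝ Q := by
    have h1 : Q = {z : ℂ | 0 < z.re} ∩ {z : ℂ | 0 < z.im} := rfl
    rw [h1]
    exact (convex_halfSpace_re_gt 0).inter (convex_halfSpace_im_gt 0)
  have hQo : IsOpen Q := (isOpen_lt continuous_const continuous_re).inter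
    (isOpen_lt continuous_const continuous_im)
  have hOm : ∀ z ∈ Q, z ∈ Om r := by
    intro z hz k _ _ e
    have := congrArg Complex.im e
    simp at this
    have h2 := hz.2
    linarith
  have h1 : AnalyticOnNhd ℂ (FF a w c) Q :=
    DifferentiableOn.analyticOnNhd
      (fun z hz => (FF_diff ha hw hc (hOm z hz)).differentiableWithinAt) hQo
  have h2 : AnalyticOnNhd ℂ (fun s => (Gamma s)⁻¹ * mellin (fun t : ℝ => Kt a w b t) s + Rt r b s)
      Q := by
    refine DifferentiableOn.analyticOnNhd (fun z hz => DifferentiableAt.differentiableWithinAt ?_)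
      hQo
    refine DifferentiableAt.add (DifferentiableAt.mul
      Complex.differentiable_one_div_Gamma.differentiableAt
      (mellin_Kt_diff ha hw hρ hρ1 h0 hz.1)) ?_
    unfold Rt
    refine DifferentiableAt.fun_sum fun k _ => ?_
    refine DifferentiableAt.mul (by fun_prop) ?_
    refine DifferentiableAt.inv (by fun_prop) ?_
    rw [Finset.prod_ne_zero_iff]
    intro i _ h
    have := congrArg Complex.im h
    simp at this
    exact hz.2.ne' this
  have hz0 : ((r : ℂ) + 1 + I) ∈ Q := by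
    constructor
    · simp; positivity
    · simp
  have h3 := h1.eqOn_of_preconnected_of_eventuallyEq h2 hQc.isPreconnected hz0 (by
    have h4 : ∀ᶠ z in 𝓝 ((r : ℂ) + 1 + I), (r : ℝ) < z.re :=
      (continuous_re.tendsto _).eventually (lt_mem_nhds (by simp))
    filter_upwards [h4] with z hz
    have hz0 : 0 < z.re := lt_of_le_of_lt (Nat.cast_nonneg r) hz
    have hG : Gamma z ≠ 0 := Complex.Gamma_ne_zero_of_re_pos hz0
    obtain ⟨m1, m2⟩ := mellin_KK ha hw hc hz
    obtain ⟨m3, m4⟩ := mellin_Pol (r := r) b hz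
    have h5 : mellin (fun t : ℝ => Kt a w b t) z = mellin (fun t : ℝ => KK a w t) z -
        mellin (fun t : ℝ => Pol r b t) z := by
      unfold mellin
      rw [← integral_sub m1 m3]
      refine setIntegral_congr_fun measurableSet_Ioi fun t _ => ?_
      simp only [Kt, smul_sub]
    rw [h5, m2, m4, mul_sub, ← mul_assoc, inv_mul_cancel₀ hG, one_mul, Finset.mul_sum]
    have h6 : ∑ i ∈ range r, (Gamma z)⁻¹ * (b i * Gamma (z - (r - i : ℕ))) = Rt r b z := by
      unfold Rt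
      refine Finset.sum_congr rfl fun k _ => ?_
      rw [Gamma_down (r - k) (s := z) (by
        have : ((r - k : ℕ) : ℝ) ≤ r := by exact_mod_cast Nat.sub_le r k
        linarith)]
      calc (Gamma z)⁻¹ * (b k * (Gamma z * (∏ i ∈ range (r - k), (z - (i + 1)))⁻¹))
          = ((Gamma z)⁻¹ * Gamma z) * (b k * (∏ i ∈ range (r - k), (z - (i + 1)))⁻¹) := by ring
        _ = _ := by rw [inv_mul_cancel₀ hG, one_mul]
    rw [h6]
    ring)
  exact h3 ⟨hs, hs'⟩

end Pool.Agent.Y616.BM
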