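import Pool.Agent.Y930.Bz.B

set_option autoImplicit false

/-!
# Barnes zeta functions for almost all weights, part 3: a lower bound for the Gamma function
-/

namespace Pool.Agent.Y616.BM

open Finset Filter Topology MeasureTheory Complex Set

/-- shifting the argument of the Gamma function -/
lemma Gamma_shift (N : ℕ) (s : ℂ) (hs : ∀ i : ℕ, s + i ≠ 0) :
    Gamma (s + N) = (∏ i ∈ range N, (s + i)) * Gamma s := by
  induction N with
  | zero => simp
  | succ N ih =>
    rw [Finset.prod_range_succ]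
    have h : s + ((N + 1 : ℕ) : ℂ) = (s + N) + 1 := by push_cast; ring
    rw [h, Complex.Gamma_add_one _ (hs N), ih]
    ring

/-- an upper bound on every vertical line -/
lemma Gamma_upper_all (x : ℝ) : ∃ C : ℝ, 0 < C ∧ ∀ t : ℝ, 1 ≤ t →
    ‖Gamma ((x : ℂ) + t * I)‖ ≤ C * t ^ (x - 1 / 2) * Real.exp (-(Real.pi / 2 * t)) := by
  obtain ⟨N, hN⟩ := exists_nat_ge (1 / 2 - x)
  have hx : 1 / 2 ≤ x + N := by linarith
  refine ⟨4 * (1 + (x + N)) ^ (x + N - 1 / 2), by positivity, fun t ht => ?_⟩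
  have ht0 : 0 < t := by linarith
  have hne : ∀ i : ℕ, (x : ℂ) + t * I + i ≠ 0 := by
    intro i h
    have := congrArg Complex.im h
    simp at this
    linarith
  have h1 := Gamma_shift N ((x : ℂ) + t * I) hne
  have h2 : (x : ℂ) + t * I + N = ((x + N : ℝ) : ℂ) + t * I := by push_cast; ring
  rw [h2] at h1
  have h3 := Pool.Agent.H9R3.BZ.Gamma_upper hx ht
  rw [h1, norm_mul, norm_prod] at h3
  have h4 : t ^ N ≤ ∏ i ∈ range N, ‖(x : ℂ) + t * I + i‖ := by
    calc t ^ N = ∏ _i ∈ range N, t := by simp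
      _ ≤ _ := Finset.prod_le_prod (fun _ _ => ht0.le) fun i _ => by
        have h5 := Complex.abs_im_le_norm ((x : ℂ) + t * I + i)
        have h6 : ((x : ℂ) + t * I + i).im = t := by simp
        rw [h6, abs_of_pos ht0] at h5
        exact h5
  have h5 : t ^ N * ‖Gamma ((x : ℂ) + t * I)‖ ≤ 4 * (1 + (x + N)) ^ (x + N - 1 / 2) *
      t ^ (x + N - 1 / 2) * Real.exp (-(Real.pi / 2 * t)) := by
    refine le_trans (mul_le_mul_of_nonneg_right h4 (norm_nonneg _)) (h3.trans (le_of_eq ?_))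
    ring_nf
  have h6 : t ^ (x + N - 1 / 2) = t ^ N * t ^ (x - 1 / 2) := by
    rw [← Real.rpow_natCast, ← Real.rpow_add ht0]
    congr 1; ring
  rw [h6] at h5
  have h7 : 0 < t ^ N := by positivity
  refine le_of_mul_le_mul_left (h5.trans (le_of_eq ?_)) h7
  ring

/-- the lower bound -/
theorem Gamma_lower_line {σ : ℝ} (hσ : 0 < σ) : ∃ c : ℝ, 0 < c ∧ ∀ t : ℝ, 1 ≤ t →
    c * t ^ (σ - 1 / 2) * Real.exp (-(Real.pi / 2 * t)) ≤ ‖Gamma ((σ : ℂ) + t * I)‖ := by
  obtain ⟨C, hC, h⟩ := Gamma_upper_all (1 - σ)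
  refine ⟨Real.pi / C, by positivity, fun t ht => ?_⟩
  have ht0 : 0 < t := by linarith
  have h1 := h t ht
  have h2 := Complex.Gamma_mul_Gamma_one_sub ((σ : ℂ) + t * I)
  have h3 : ‖Gamma (1 - ((σ : ℂ) + t * I))‖ = ‖Gamma (((1 - σ : ℝ) : ℂ) + t * I)‖ := by
    rw [← Complex.norm_conj, ← Complex.Gamma_conj]
    congr 2
    apply Complex.ext <;> simp
  have h4 := congrArg norm h2
  rw [norm_mul, norm_div, h3] at h4
  have h5 : ‖Complex.sin ((Real.pi : ℂ) * ((σ : ℂ) + t * I))‖ ≤ Real.exp (Real.pi * t) := by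
    rw [Complex.sin]
    rw [norm_div, norm_mul, Complex.norm_I, mul_one]
    have h6 : ‖cexp (-((Real.pi : ℂ) * ((σ : ℂ) + t * I)) * I)‖ = Real.exp (Real.pi * t) := by
      rw [Complex.norm_exp]; simp
    have h7 : ‖cexp (((Real.pi : ℂ) * ((σ : ℂ) + t * I)) * I)‖ ≤ Real.exp (Real.pi * t) := by
      rw [Complex.norm_exp, Real.exp_le_exp]
      have : 0 < Real.pi * t := by positivity
      simp
      linarith
    have h8 : ‖(2 : ℂ)‖ = 2 := by simp
    rw [h8, div_le_iff₀ (by norm_num)]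
    refine (norm_sub_le _ _).trans ?_
    rw [h6]
    linarith
  have h9 : ‖(Real.pi : ℂ)‖ = Real.pi := by
    rw [Complex.norm_real, Real.norm_of_nonneg Real.pi_pos.le]
  rw [h9] at h4
  set S := ‖Complex.sin ((Real.pi : ℂ) * ((σ : ℂ) + t * I))‖ with hS
  set G := ‖Gamma ((σ : ℂ) + t * I)‖ with hG
  set G' := ‖Gamma (((1 - σ : ℝ) : ℂ) + t * I)‖ with hG'
  have hG0 : 0 < G := norm_pos_iff.2 (Complex.Gamma_ne_zero_of_re_pos (by simpa using hσ))
  have hG'0 : 0 < G' := by
    rcases (norm_nonneg (Gamma (((1 - σ : ℝ) : ℂ) + t * I))).lt_or_eq with h' | h'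
    · exact h'
    · exfalso
      have : G' = 0 := h'.symm
      rw [this, mul_zero] at h4
      have hS0 : S = 0 := by
        by_contra hne
        have : Real.pi / S ≠ 0 := div_ne_zero Real.pi_pos.ne' hne
        exact this h4.symm
      have : Complex.sin ((Real.pi : ℂ) * ((σ : ℂ) + t * I)) = 0 := norm_eq_zero.1 hS0
      rw [Complex.sin_eq_zero_iff] at this
      obtain ⟨k, hk⟩ := this
      have := congrArg Complex.im hk
      simp at this
      linarith
  have hS0 : 0 < S := by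
    rcases (norm_nonneg (Complex.sin ((Real.pi : ℂ) * ((σ : ℂ) + t * I)))).lt_or_eq with h' | h'
    · exact h'
    · exfalso
      have : S = 0 := h'.symm
      rw [this, div_zero] at h4
      exact (mul_pos hG0 hG'0).ne' h4
  have h10 : G * G' * S = Real.pi := by
    rw [h4]; field_simp
  have h11 : G' ≤ C * t ^ (1 - σ - 1 / 2) * Real.exp (-(Real.pi / 2 * t)) := h1
  have h12 : Real.pi ≤ G * (C * t ^ (1 - σ - 1 / 2) * Real.exp (-(Real.pi / 2 * t))) *
      Real.exp (Real.pi * t) := by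
    calc Real.pi = G * G' * S := h10.symm
      _ ≤ _ := by gcongr
  have h13 : t ^ (1 - σ - 1 / 2) * t ^ (σ - 1 / 2) = 1 := by
    rw [← Real.rpow_add ht0]
    have : 1 - σ - 1 / 2 + (σ - 1 / 2) = 0 := by ring
    rw [this, Real.rpow_zero]
  have h14 : Real.exp (-(Real.pi / 2 * t)) * Real.exp (Real.pi * t) *
      Real.exp (-(Real.pi / 2 * t)) = 1 := by
    rw [← Real.exp_add, ← Real.exp_add]
    have : -(Real.pi / 2 * t) + Real.pi * t + -(Real.pi / 2 * t) = 0 := by ring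
    rw [this, Real.exp_zero]
  calc Real.pi / C * t ^ (σ - 1 / 2) * Real.exp (-(Real.pi / 2 * t))
      = Real.pi * (t ^ (σ - 1 / 2) * Real.exp (-(Real.pi / 2 * t)) / C) := by ring
    _ ≤ (G * (C * t ^ (1 - σ - 1 / 2) * Real.exp (-(Real.pi / 2 * t))) *
      Real.exp (Real.pi * t)) * (t ^ (σ - 1 / 2) * Real.exp (-(Real.pi / 2 * t)) / C) := by
        gcongr
    _ = G * (t ^ (1 - σ - 1 / 2) * t ^ (σ - 1 / 2)) * (Real.exp (-(Real.pi / 2 * t)) *
      Real.exp (Real.pi * t) * Real.exp (-(Real.pi / 2 * t))) * (C / C) := by ring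
    _ = G := by rw [h13, h14, div_self hC.ne']; ring

end Pool.Agent.Y616.BM
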