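import Pool.Agent.Y930.Bz.B

set_option autoImplicit false

/-!
# Barnes zeta functions for almost all weights, part 1: the regularised kernel
-/

namespace Pool.Agent.Y616.BM

open Finset Filter Topology MeasureTheory Complex Set
open Pool.Agent.H131R5.BZ Pool.Agent.Y930.Bz

variable {r : ℕ} {a : ℝ} {w : Fin r → ℝ}

/-- the polar part -/
noncomputable def Pol (r : ℕ) (b : ℕ → ℂ) (z : ℂ) : ℂ :=
  cexp (-z) * ∑ k ∈ range r, b k * (z ^ (r - k))⁻¹

/-- the regularised kernel -/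
noncomputable def Kt (a : ℝ) (w : Fin r → ℝ) (b : ℕ → ℂ) (z : ℂ) : ℂ := KK a w z - Pol r b z

lemma KK_eq_hh {z : ℂ} (hz : z ≠ 0) : KK a w z = hh a w z * (z ^ r)⁻¹ := by
  unfold KK hh
  have h1 : ∀ j, (phi (w j) z)⁻¹ = z * (1 - cexp (-(w j : ℂ) * z))⁻¹ := by
    intro j
    rw [phi_of_ne _ hz, inv_div, div_eq_mul_inv]
  simp only [h1, Finset.prod_mul_distrib, Finset.prod_const, Finset.card_univ, Fintype.card_fin]
  have : z ^ r ≠ 0 := pow_ne_zero _ hz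
  field_simp

/-- coefficients for which the regularised kernel is bounded near zero -/
lemma exists_near (a : ℝ) (hw : ∀ j, 0 < w j) : ∃ (b : ℕ → ℂ) (ρ C : ℝ), 0 < ρ ∧ ρ ≤ 1 ∧ 0 ≤ C ∧
    ∀ z : ℂ, z ≠ 0 → ‖z‖ ≤ ρ → ‖Kt a w b z‖ ≤ C := by
  have hA : AnalyticAt ℂ (fun z => hh a w z * cexp z) 0 :=
    (hh_analyticAt a hw).mul (by fun_prop)
  obtain ⟨p, hp⟩ := hA
  have h1 := hp.isBigO_sub_partialSum_pow r
  obtain ⟨C, hC, h2⟩ := h1.exists_pos
  have h3 := h2.bound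
  obtain ⟨ρ, hρ, h4⟩ := Metric.eventually_nhds_iff.1 h3
  refine ⟨fun k => p.coeff k, min (ρ / 2) 1, Real.exp 1 * C, by positivity, min_le_right _ _,
    by positivity, fun z hz hzρ => ?_⟩
  have h5 : ‖z‖ < ρ := by
    have := min_le_left (ρ / 2) 1
    linarith
  have h6 := h4 (y := z) (by simpa using h5)
  simp only [zero_add, norm_pow, norm_norm] at h6
  have h7 : p.partialSum r z = ∑ k ∈ range r, p.coeff k * z ^ k := by
    rw [FormalMultilinearSeries.partialSum]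
    refine Finset.sum_congr rfl (fun k _ => ?_)
    rw [FormalMultilinearSeries.apply_eq_pow_smul_coeff, smul_eq_mul, mul_comm]
  rw [h7] at h6
  have hzr : z ^ r ≠ 0 := pow_ne_zero _ hz
  have h8 : Kt a w (fun k => p.coeff k) z =
      cexp (-z) * ((hh a w z * cexp z - ∑ k ∈ range r, p.coeff k * z ^ k) * (z ^ r)⁻¹) := by
    unfold Kt Pol
    rw [KK_eq_hh hz, sub_mul, mul_sub]
    congr 1
    · have : cexp (-z) * cexp z = 1 := by rw [← Complex.exp_add]; simp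
      calc hh a w z * (z ^ r)⁻¹ = (cexp (-z) * cexp z) * (hh a w z * (z ^ r)⁻¹) := by
            rw [this, one_mul]
        _ = _ := by ring
    · congr 1
      rw [Finset.sum_mul]
      refine Finset.sum_congr rfl fun k hk => ?_
      have hk' : k < r := Finset.mem_range.1 hk
      have : z ^ r = z ^ k * z ^ (r - k) := by rw [← pow_add]; congr 1; omega
      rw [this]
      have h9 : z ^ k ≠ 0 := pow_ne_zero _ hz
      have h10 : z ^ (r - k) ≠ 0 := pow_ne_zero _ hz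
      field_simp
  rw [h8, norm_mul, norm_mul, norm_inv, norm_pow]
  have hzn : 0 < ‖z‖ := norm_pos_iff.2 hz
  have h9 : ‖hh a w z * cexp z - ∑ k ∈ range r, p.coeff k * z ^ k‖ * (‖z‖ ^ r)⁻¹ ≤ C := by
    rw [← div_eq_mul_inv, div_le_iff₀ (by positivity)]
    exact h6
  have h10 : ‖cexp (-z)‖ ≤ Real.exp 1 := by
    rw [Complex.norm_exp, Real.exp_le_exp]
    have := Complex.abs_re_le_norm z
    have h11 := neg_abs_le z.re
    have h12 := min_le_right (ρ / 2) 1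
    simp only [neg_re]
    linarith
  gcongr

/-- norm of the polar part -/
lemma Pol_le (r : ℕ) (b : ℕ → ℂ) {ρ : ℝ} (hρ : 0 < ρ) : ∃ C : ℝ, 0 ≤ C ∧
    ∀ z : ℂ, ρ ≤ ‖z‖ → ‖Pol r b z‖ ≤ C * Real.exp (-z.re) := by
  refine ⟨∑ k ∈ range r, ‖b k‖ * (ρ ^ (r - k))⁻¹, by positivity, fun z hz => ?_⟩
  unfold Pol
  rw [norm_mul, Complex.norm_exp, neg_re, mul_comm]
  refine mul_le_mul_of_nonneg_right ?_ (Real.exp_pos _).le
  refine (norm_sum_le _ _).trans (Finset.sum_le_sum fun k _ => ?_)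
  rw [norm_mul, norm_inv, norm_pow]
  gcongr

lemma one_sub_exp_le {b : ℝ} (hb : 0 < b) {z : ℂ} (hz : 0 < z.re) :
    1 - Real.exp (-b * z.re) ≤ ‖1 - cexp (-(b : ℂ) * z)‖ := by
  have h1 := norm_sub_norm_le (1 : ℂ) (cexp (-(b : ℂ) * z))
  rw [norm_one, Complex.norm_exp] at h1
  have h2 : (-(b : ℂ) * z).re = -b * z.re := by simp
  rwa [h2] at h1

lemma one_sub_exp_pos' {b x : ℝ} (hb : 0 < b) (hx : 0 < x) : 0 < 1 - Real.exp (-b * x) :=
  one_sub_exp_pos hb hx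

/-- norm of the kernel -/
lemma KK_le (hw : ∀ j, 0 < w j) {x : ℝ} (hx : 0 < x) :
    ∃ C : ℝ, 0 ≤ C ∧ ∀ z : ℂ, x ≤ z.re → ‖KK a w z‖ ≤ C * Real.exp (-a * z.re) := by
  refine ⟨∏ j, (1 - Real.exp (-(w j) * x))⁻¹, ?_, fun z hz => ?_⟩
  · exact Finset.prod_nonneg fun j _ => (inv_pos.2 (one_sub_exp_pos' (hw j) hx)).le
  unfold KK
  rw [norm_mul, Complex.norm_exp, norm_prod, mul_comm]
  have h1 : (-(a : ℂ) * z).re = -a * z.re := by simp
  rw [h1]
  refine mul_le_mul_of_nonneg_right ?_ (Real.exp_pos _).le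
  refine Finset.prod_le_prod (fun j _ => norm_nonneg _) fun j _ => ?_
  rw [norm_inv]
  refine inv_anti₀ (one_sub_exp_pos' (hw j) hx) ?_
  refine le_trans ?_ (one_sub_exp_le (hw j) (hx.trans_le hz))
  have : Real.exp (-(w j) * z.re) ≤ Real.exp (-(w j) * x) := by
    apply Real.exp_le_exp.2
    have := hw j
    nlinarith
  linarith

/-- exponential decay of the regularised kernel in sectors -/
lemma Kt_sector (ha : 0 < a) (hw : ∀ j, 0 < w j) {b : ℕ → ℂ} {ρ C₀ : ℝ} (hρ : 0 < ρ)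
    (hρ1 : ρ ≤ 1) (h0 : ∀ z : ℂ, z ≠ 0 → ‖z‖ ≤ ρ → ‖Kt a w b z‖ ≤ C₀) {κ : ℝ} (hκ : 0 < κ) :
    ∃ C c : ℝ, 0 ≤ C ∧ 0 < c ∧ ∀ z : ℂ, z ≠ 0 → κ * ‖z‖ ≤ z.re →
      ‖Kt a w b z‖ ≤ C * Real.exp (-c * ‖z‖) := by
  obtain ⟨C₁, hC₁, h1⟩ := KK_le (a := a) hw (x := κ * ρ) (by positivity)
  obtain ⟨C₂, hC₂, h2⟩ := Pol_le r b hρ
  set m := min a 1 with hm
  have hm0 : 0 < m := lt_min ha one_pos
  refine ⟨|C₀| * Real.exp (m * κ * ρ) + (C₁ + C₂), m * κ, by positivity, by positivity,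
    fun z hz hzκ => ?_⟩
  have hzn : 0 < ‖z‖ := norm_pos_iff.2 hz
  rcases le_total ‖z‖ ρ with h | h
  · have h3 := h0 z hz h
    have h4 : 1 ≤ Real.exp (m * κ * ρ) * Real.exp (-(m * κ) * ‖z‖) := by
      rw [← Real.exp_add]
      apply Real.one_le_exp
      have : 0 ≤ m * κ * (ρ - ‖z‖) := mul_nonneg (by positivity) (by linarith)
      linarith
    have h5 : 0 ≤ (C₁ + C₂) * Real.exp (-(m * κ) * ‖z‖) := by positivity
    calc ‖Kt a w b z‖ ≤ |C₀| * 1 := by rw [mul_one]; exact h3.trans (le_abs_self _)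
      _ ≤ |C₀| * (Real.exp (m * κ * ρ) * Real.exp (-(m * κ) * ‖z‖)) := by gcongr
      _ ≤ _ := by rw [add_mul]; nlinarith
  · have hre : κ * ρ ≤ z.re := le_trans (by gcongr) hzκ
    have hre0 : 0 < z.re := lt_of_lt_of_le (by positivity) hre
    have h3 := h1 z hre
    have h4 := h2 z h
    have h5 : Real.exp (-a * z.re) ≤ Real.exp (-(m * κ) * ‖z‖) := by
      apply Real.exp_le_exp.2
      have h6 : m * (κ * ‖z‖) ≤ a * z.re :=
        mul_le_mul (min_le_left _ _) hzκ (by positivity) ha.le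
      linarith
    have h6 : Real.exp (-z.re) ≤ Real.exp (-(m * κ) * ‖z‖) := by
      apply Real.exp_le_exp.2
      have h6 : m * (κ * ‖z‖) ≤ 1 * z.re :=
        mul_le_mul (min_le_right _ _) hzκ (by positivity) one_pos.le
      linarith
    calc ‖Kt a w b z‖ ≤ ‖KK a w z‖ + ‖Pol r b z‖ := norm_sub_le _ _
      _ ≤ C₁ * Real.exp (-a * z.re) + C₂ * Real.exp (-z.re) := add_le_add h3 h4
      _ ≤ C₁ * Real.exp (-(m * κ) * ‖z‖) + C₂ * Real.exp (-(m * κ) * ‖z‖) := by gcongr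
      _ ≤ _ := by
        have : 0 ≤ |C₀| * Real.exp (m * κ * ρ) * Real.exp (-(m * κ) * ‖z‖) := by positivity
        rw [add_mul, add_mul]
        linarith

lemma Kt_diff (hw : ∀ j, 0 < w j) (b : ℕ → ℂ) {z : ℂ} (hz : 0 < z.re) :
    DifferentiableAt ℂ (Kt a w b) z := by
  unfold Kt
  refine DifferentiableAt.sub (KK_diff hw hz) ?_
  unfold Pol
  refine DifferentiableAt.mul (by fun_prop) ?_
  refine DifferentiableAt.fun_sum fun k _ => ?_
  refine DifferentiableAt.mul (by fun_prop) ?_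
  refine DifferentiableAt.inv (by fun_prop) (pow_ne_zero _ ?_)
  intro h
  rw [h] at hz
  simp at hz

end Pool.Agent.Y616.BM
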