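import Pool.Agent.Y616.BM.Ae

set_option autoImplicit false

/-!
# Barnes zeta functions for almost all weights, part 16: averages of the first power of the kernel
-/

namespace Pool.Agent.Y616.BM

open Finset Filter Topology MeasureTheory Complex Set
open Pool.Agent.H131R5.BZ Pool.Agent.Y930.Bz

lemma lor1 {δ : ℝ} (hδ : 0 < δ) : ∃ G : ℝ, 0 ≤ G ∧ ∀ A : ℝ, 0 < A → ∀ B : ℝ,
    ∫⁻ w : ℝ, ENNReal.ofReal ((1 + (A * w - B) ^ 2) ^ (-(1 + δ) / 2)) =
      ENNReal.ofReal (G / A) := by
  have h0 : Integrable fun x : ℝ => (1 + x ^ 2) ^ (-(1 + δ) / 2) := by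
    have := integrable_rpow_neg_one_add_norm_sq (E := ℝ) (μ := volume) (r := 1 + δ)
      (by simpa using hδ)
    simpa using this
  refine ⟨∫ x : ℝ, (1 + x ^ 2) ^ (-(1 + δ) / 2), integral_nonneg fun x => by positivity,
    fun A hA B => ?_⟩
  have h1 : Integrable fun w : ℝ => (1 + (A * w - B) ^ 2) ^ (-(1 + δ) / 2) := by
    have h2 := (h0.comp_sub_right B).comp_mul_left' hA.ne'
    exact h2
  rw [← ofReal_integral_eq_lintegral_ofReal h1 (ae_of_all _ fun w => by positivity)]
  congr 1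
  have h3 := Measure.integral_comp_mul_left (fun x : ℝ => (1 + (x - B) ^ 2) ^ (-(1 + δ) / 2)) A
  rw [h3, integral_sub_right_eq_self (fun x : ℝ => (1 + x ^ 2) ^ (-(1 + δ) / 2)) B,
    abs_of_pos (inv_pos.2 hA), smul_eq_mul]
  field_simp

/-- the term of the majorant -/
noncomputable def lt1 (δ m κ y : ℝ) (n : ℕ) (w : ℝ) : ℝ :=
  (m ^ 2 + κ * (w * y - 2 * Real.pi * n) ^ 2) ^ (-(1 + δ) / 2)

lemma lt1_lint {δ : ℝ} (hδ : 0 < δ) : ∃ G : ℝ, 0 ≤ G ∧ ∀ {m κ y : ℝ}, 0 < m → 0 < κ → 0 < y →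
    ∀ n : ℕ, ∫⁻ w : ℝ, ENNReal.ofReal (lt1 δ m κ y n w) =
      ENNReal.ofReal (G * m ^ (-δ) / (Real.sqrt κ * y)) := by
  obtain ⟨G, hG, h⟩ := lor1 hδ
  refine ⟨G, hG, fun {m κ y} hm hκ hy n => ?_⟩
  have hs : 0 < Real.sqrt κ := Real.sqrt_pos.2 hκ
  have hs2 : Real.sqrt κ ^ 2 = κ := Real.sq_sqrt hκ.le
  have h1 : ∀ w : ℝ, ENNReal.ofReal (lt1 δ m κ y n w) = ENNReal.ofReal (m ^ (-(1 + δ))) *
      ENNReal.ofReal ((1 + (Real.sqrt κ * y / m * w -
        Real.sqrt κ * (2 * Real.pi * n) / m) ^ 2) ^ (-(1 + δ) / 2)) := by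
    intro w
    rw [← ENNReal.ofReal_mul (by positivity)]
    congr 1
    unfold lt1
    have e1 : m ^ (-(1 + δ)) = (m ^ 2) ^ (-(1 + δ) / 2) := by
      rw [← Real.rpow_natCast, ← Real.rpow_mul hm.le]
      congr 1
      push_cast
      ring
    rw [e1, ← Real.mul_rpow (by positivity) (by positivity)]
    congr 1
    have : Real.sqrt κ * y / m * w - Real.sqrt κ * (2 * Real.pi * n) / m =
        Real.sqrt κ * (w * y - 2 * Real.pi * n) / m := by ring
    rw [this, div_pow, mul_pow, hs2]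
    field_simp
  simp only [h1]
  rw [lintegral_const_mul' _ _ ENNReal.ofReal_ne_top, h _ (by positivity),
    ← ENNReal.ofReal_mul (by positivity)]
  congr 1
  have e2 : m ^ (-(1 + δ)) * m = m ^ (-δ) := by
    nth_rewrite 2 [← Real.rpow_one m]
    rw [← Real.rpow_add hm]
    congr 1
    ring
  rw [← e2]
  field_simp

lemma fac_le1 {δ : ℝ} (hδ : 0 < δ) (hδ1 : δ ≤ 1) {α β x y w : ℝ} (hα : 0 < α) (hw : w ∈ Icc α β)
    (hx : 0 < x) (hx1 : x ≤ 1) (hy : 0 < y) :
    ENNReal.ofReal (‖1 - cexp (-(w : ℂ) * ((x : ℂ) + y * I))‖⁻¹) ≤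
      ∑ n ∈ Finset.range (⌊β * y / (2 * Real.pi) + 1 / 2⌋₊ + 1),
        ENNReal.ofReal (2 * lt1 δ (1 - Real.exp (-α * x)) (4 * Real.exp (-β) / Real.pi ^ 2)
          y n w) := by
  have hp := Real.pi_pos
  have hw0 : 0 < w := hα.trans_le hw.1
  have hwy : 0 ≤ w * y := by positivity
  set n := ⌊w * y / (2 * Real.pi) + 1 / 2⌋₊ with hn
  have hnN : n ∈ Finset.range (⌊β * y / (2 * Real.pi) + 1 / 2⌋₊ + 1) := by
    rw [Finset.mem_range, Nat.lt_succ_iff]
    apply Nat.floor_mono
    have := hw.2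
    gcongr
  refine le_trans ?_ (Finset.single_le_sum (f := fun n : ℕ =>
    ENNReal.ofReal (2 * lt1 δ (1 - Real.exp (-α * x)) (4 * Real.exp (-β) / Real.pi ^ 2) y n w))
    (fun _ _ => zero_le) hnN)
  apply ENNReal.ofReal_le_ofReal
  unfold lt1
  have hm : 0 < 1 - Real.exp (-α * x) := one_sub_exp_pos' hα hx
  have h1 := near_mult hwy
  rw [← hn] at h1
  have h2 := Real.cos_le_one_sub_mul_cos_sq h1
  have h3 : Real.cos (w * y - 2 * Real.pi * n) = Real.cos (w * y) := by
    rw [mul_comm (2 * Real.pi) (n : ℝ)]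
    exact Real.cos_sub_nat_mul_two_pi _ _
  rw [h3] at h2
  set D := ‖1 - cexp (-(w : ℂ) * ((x : ℂ) + y * I))‖ with hD
  set S := (1 - Real.exp (-α * x)) ^ 2 + 4 * Real.exp (-β) / Real.pi ^ 2 *
    (w * y - 2 * Real.pi * n) ^ 2 with hS
  have hS0 : 0 < S := by positivity
  have hSD : S ≤ D ^ 2 := by
    rw [hD, fac_sq, hS]
    have h4 : Real.exp (-w * x) ≤ Real.exp (-α * x) := by
      apply Real.exp_le_exp.2
      have := hw.1
      nlinarith
    have h5 : Real.exp (-β) ≤ Real.exp (-w * x) := by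
      apply Real.exp_le_exp.2
      have := hw.2
      nlinarith
    have h6 : (1 - Real.exp (-α * x)) ^ 2 ≤ (1 - Real.exp (-w * x)) ^ 2 :=
      pow_le_pow_left₀ hm.le (by linarith) 2
    refine add_le_add h6 ?_
    have h7 : 2 / Real.pi ^ 2 * (w * y - 2 * Real.pi * n) ^ 2 ≤ 1 - Real.cos (w * y) := by linarith
    calc 4 * Real.exp (-β) / Real.pi ^ 2 * (w * y - 2 * Real.pi * n) ^ 2
        = 2 * Real.exp (-β) * (2 / Real.pi ^ 2 * (w * y - 2 * Real.pi * n) ^ 2) := by ring
      _ ≤ 2 * Real.exp (-w * x) * (1 - Real.cos (w * y)) := by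
          gcongr
  have hDn : 0 ≤ D := norm_nonneg _
  have hD0 : 0 < D := by
    rcases hDn.lt_or_eq with h | h
    · exact h
    · rw [← h] at hSD
      norm_num at hSD
      linarith
  have hD2 : D ≤ 2 := by
    have h4 := norm_sub_le (1 : ℂ) (cexp (-(w : ℂ) * ((x : ℂ) + y * I)))
    have h5 : ‖cexp (-(w : ℂ) * ((x : ℂ) + y * I))‖ ≤ 1 := by
      rw [Complex.norm_exp, Real.exp_le_one_iff]
      simp
      positivity
    rw [norm_one] at h4
    linarith
  have h8 : S ^ ((1 + δ) / 2) ≤ 2 * D := by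
    calc S ^ ((1 + δ) / 2) ≤ (D ^ 2) ^ ((1 + δ) / 2) :=
          Real.rpow_le_rpow hS0.le hSD (by positivity)
      _ = D ^ δ * D := by
          rw [← Real.rpow_natCast, ← Real.rpow_mul hDn]
          have e1 : ((2 : ℕ) : ℝ) * ((1 + δ) / 2) = δ + 1 := by push_cast; ring
          rw [e1, Real.rpow_add hD0, Real.rpow_one]
      _ ≤ 2 ^ (1 : ℝ) * D := by
          apply mul_le_mul_of_nonneg_right _ hDn
          calc D ^ δ ≤ 2 ^ δ := Real.rpow_le_rpow hDn hD2 hδ.le
            _ ≤ 2 ^ (1 : ℝ) := Real.rpow_le_rpow_of_exponent_le (by norm_num) hδ1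
      _ = 2 * D := by rw [Real.rpow_one]
  have h9 : 0 < S ^ ((1 + δ) / 2) := Real.rpow_pos_of_pos hS0 _
  have h10 : S ^ (-(1 + δ) / 2) = (S ^ ((1 + δ) / 2))⁻¹ := by
    rw [← Real.rpow_neg hS0.le]
    congr 1
    ring
  rw [h10]
  rw [inv_eq_one_div, inv_eq_one_div, mul_one_div, div_le_div_iff₀ hD0 h9]
  linarith

/-- the average over one weight -/
theorem avg_one1 {δ : ℝ} (hδ : 0 < δ) (hδ1 : δ ≤ 1) {α β y₀ : ℝ} (hα : 0 < α) (hαβ : α ≤ β)
    (hy₀ : 0 < y₀) :
    ∃ C : ℝ, 0 ≤ C ∧ ∀ x y : ℝ, 0 < x → y₀ ≤ y →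
      ∫⁻ w in Icc α β, ENNReal.ofReal (‖1 - cexp (-(w : ℂ) * ((x : ℂ) + y * I))‖⁻¹) ≤
        ENNReal.ofReal (C * (1 + 1 / x) ^ δ) := by
  have hβ : 0 < β := hα.trans_le hαβ
  have hp := Real.pi_pos
  obtain ⟨G, hG, hGl⟩ := lt1_lint hδ
  set κ : ℝ := 4 * Real.exp (-β) / Real.pi ^ 2 with hκ
  have hκ0 : 0 < κ := by positivity
  set C₁ : ℝ := (β / (2 * Real.pi) + 2 / y₀) * (2 * G / Real.sqrt κ) * (α / (1 + α)) ^ (-δ)
    with hC₁
  set C₂ : ℝ := (β - α) * (1 - Real.exp (-α * 1))⁻¹ with hC₂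
  have hC₁0 : 0 ≤ C₁ := by positivity
  have hm1 : 0 < 1 - Real.exp (-α * 1) := one_sub_exp_pos' hα one_pos
  have hC₂0 : 0 ≤ C₂ := by
    have : 0 ≤ β - α := by linarith
    positivity
  refine ⟨C₁ + C₂, by positivity, fun x y hx hy => ?_⟩
  have hy0 : 0 < y := hy₀.trans_le hy
  have hone : 1 ≤ (1 + 1 / x) ^ δ := Real.one_le_rpow (by
    have : 0 < 1 / x := by positivity
    linarith) hδ.le
  rcases le_total x 1 with hx1 | hx1
  · set m := 1 - Real.exp (-α * x) with hm
    have hm0 : 0 < m := one_sub_exp_pos' hα hx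
    set N := ⌊β * y / (2 * Real.pi) + 1 / 2⌋₊ with hN
    have hN1 : ((N + 1 : ℕ) : ℝ) ≤ y * (β / (2 * Real.pi) + 2 / y₀) := by
      have h1 : (N : ℝ) ≤ β * y / (2 * Real.pi) + 1 / 2 := Nat.floor_le (by positivity)
      have h2 : 2 ≤ y * (2 / y₀) := by
        rw [mul_div_assoc', le_div_iff₀ hy₀]
        linarith
      push_cast
      have h3 : y * (β / (2 * Real.pi) + 2 / y₀) = β * y / (2 * Real.pi) + y * (2 / y₀) := by ring
      linarith
    have hmx : α / (1 + α) * x ≤ m := by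
      have h1 : Real.exp (-α * x) ≤ 1 / (1 + α * x) := by
        rw [neg_mul, Real.exp_neg, one_div]
        apply inv_anti₀ (by positivity)
        have := Real.add_one_le_exp (α * x)
        linarith
      have h2 : α * x / (1 + α) ≤ α * x / (1 + α * x) := by
        gcongr
        nlinarith
      have h3 : α * x / (1 + α * x) = 1 - 1 / (1 + α * x) := by
        field_simp
        ring
      have h4 : α / (1 + α) * x = α * x / (1 + α) := by ring
      linarith
    calc _ ≤ ∫⁻ w in Icc α β, ∑ n ∈ Finset.range (N + 1), ENNReal.ofReal (2 * lt1 δ m κ y n w) :=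
          setLIntegral_mono' measurableSet_Icc fun w hw => fac_le1 hδ hδ1 hα hw hx hx1 hy0
      _ ≤ ∫⁻ w, ∑ n ∈ Finset.range (N + 1), ENNReal.ofReal (2 * lt1 δ m κ y n w) :=
          setLIntegral_le_lintegral _ _
      _ = ∑ n ∈ Finset.range (N + 1),
          ENNReal.ofReal (2 * (G * m ^ (-δ) / (Real.sqrt κ * y))) := by
          rw [lintegral_finsetSum]
          · refine Finset.sum_congr rfl fun n _ => ?_
            rw [ENNReal.ofReal_mul (by norm_num), ← hGl hm0 hκ0 hy0 n,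
              ← lintegral_const_mul' _ _ ENNReal.ofReal_ne_top]
            refine lintegral_congr fun w => ?_
            rw [ENNReal.ofReal_mul (by norm_num)]
          · intro n _
            unfold lt1
            fun_prop
      _ = ENNReal.ofReal (((N + 1 : ℕ) : ℝ) * (2 * (G * m ^ (-δ) / (Real.sqrt κ * y)))) := by
          rw [Finset.sum_const, Finset.card_range, nsmul_eq_mul,
            ENNReal.ofReal_mul (p := ((N + 1 : ℕ) : ℝ)) (Nat.cast_nonneg _),
            ENNReal.ofReal_natCast]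
      _ ≤ _ := by
          apply ENNReal.ofReal_le_ofReal
          have hsq : 0 < Real.sqrt κ := Real.sqrt_pos.2 hκ0
          calc ((N + 1 : ℕ) : ℝ) * (2 * (G * m ^ (-δ) / (Real.sqrt κ * y)))
              ≤ (y * (β / (2 * Real.pi) + 2 / y₀)) * (2 * (G * m ^ (-δ) / (Real.sqrt κ * y))) := by
                gcongr
            _ = (β / (2 * Real.pi) + 2 / y₀) * (2 * G / Real.sqrt κ) * m ^ (-δ) := by
                field_simp
            _ ≤ (β / (2 * Real.pi) + 2 / y₀) * (2 * G / Real.sqrt κ) *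
                (α / (1 + α) * x) ^ (-δ) := by
                apply mul_le_mul_of_nonneg_left _ (by positivity)
                exact Real.rpow_le_rpow_of_nonpos (by positivity) hmx (by linarith)
            _ = C₁ * (1 / x) ^ δ := by
                rw [hC₁, Real.mul_rpow (by positivity) hx.le, one_div, Real.inv_rpow hx.le,
                  Real.rpow_neg hx.le]
                ring
            _ ≤ C₁ * (1 + 1 / x) ^ δ := by
                gcongr
                linarith
            _ ≤ _ := by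
                have : 0 ≤ C₂ * (1 + 1 / x) ^ δ := by positivity
                linarith
  · have h1 : ∀ w ∈ Icc α β, ENNReal.ofReal (‖1 - cexp (-(w : ℂ) * ((x : ℂ) + y * I))‖⁻¹) ≤
        ENNReal.ofReal ((1 - Real.exp (-α * 1))⁻¹) := by
      intro w hw
      apply ENNReal.ofReal_le_ofReal
      apply inv_anti₀ hm1
      have h3 := one_sub_exp_le (hα.trans_le hw.1) (z := (x : ℂ) + y * I) (by simpa using hx)
      refine le_trans ?_ h3
      have h4 : Real.exp (-w * ((x : ℂ) + y * I).re) ≤ Real.exp (-α * 1) := by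
        apply Real.exp_le_exp.2
        have := hw.1
        simp only [Complex.add_re, Complex.ofReal_re, Complex.re_ofReal_mul, Complex.I_re,
          mul_zero, add_zero]
        nlinarith
      linarith
    calc _ ≤ ∫⁻ w in Icc α β, ENNReal.ofReal ((1 - Real.exp (-α * 1))⁻¹) :=
          setLIntegral_mono' measurableSet_Icc h1
      _ = ENNReal.ofReal C₂ := by
          rw [lintegral_const, Measure.restrict_apply_univ, Real.volume_Icc,
            ← ENNReal.ofReal_mul (by positivity), hC₂, mul_comm]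
      _ ≤ _ := by
          apply ENNReal.ofReal_le_ofReal
          nlinarith

/-- one factor -/
noncomputable def fac1 (w : ℝ) (z : ℂ) : ENNReal :=
  ENNReal.ofReal (‖1 - cexp (-(w : ℂ) * z)‖⁻¹)

lemma fac1_meas (z : ℂ) : Measurable fun w : ℝ => fac1 w z := by
  unfold fac1
  fun_prop

lemma KK_enorm1 {r : ℕ} (a : ℝ) (w : Fin r → ℝ) (z : ℂ) :
    ‖KK a w z‖ₑ = ENNReal.ofReal (Real.exp (-a * z.re)) * ∏ j, fac1 (w j) z := by
  have h1 : ‖KK a w z‖ = Real.exp (-a * z.re) * ∏ j, ‖1 - cexp (-(w j : ℂ) * z)‖⁻¹ := by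
    unfold KK
    rw [norm_mul, norm_prod]
    congr 1
    · rw [Complex.norm_exp]
      congr 1
      simp
    · refine Finset.prod_congr rfl fun j _ => ?_
      rw [norm_inv]
  rw [← ofReal_norm, h1, ENNReal.ofReal_mul (Real.exp_pos _).le, ENNReal.ofReal_prod_of_nonneg]
  · rfl
  · intro j _
    positivity

/-- the average of the kernel over a rational family -/
theorem avg_mat1 {r d : ℕ} (B : Matrix (Fin r) (Fin d) ℝ) (e : Fin d → Fin r)
    (he : Function.Injective e) (hdet : (B.submatrix e id).det ≠ 0) {α β y₀ : ℝ} (hα : 0 < α)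
    (hαβ : α ≤ β) (hy₀ : 0 < y₀) {δ : ℝ} (hδ : 0 < δ) (hδ1 : δ ≤ 1) :
    ∃ C : ℝ, 0 ≤ C ∧ ∀ x y : ℝ, 0 < x → y₀ ≤ y →
      ∫⁻ v in EN B α β, ∏ j, fac1 (B.mulVec v j) ((x : ℂ) + y * I) ≤
        ENNReal.ofReal (C * (1 + 1 / x) ^ ((r : ℝ) - d + d * δ)) := by
  classical
  obtain ⟨C, hC, h1⟩ := avg_one1 hδ hδ1 hα hαβ hy₀
  set A := B.submatrix e id with hA
  have hdr : d ≤ r := by
    simpa using Fintype.card_le_of_injective e he
  set K : ℝ := 1 + 1 / α with hK
  refine ⟨K ^ (r - d) * (|A.det⁻¹| * C ^ d), by positivity, fun x y hx hy => ?_⟩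
  set z : ℂ := (x : ℂ) + y * I with hz
  have hzre : z.re = x := by simp [hz]
  -- the free factors
  have hfree : ∀ w : ℝ, α ≤ w → fac1 w z ≤ ENNReal.ofReal (K * (1 + 1 / x)) := by
    intro w hw
    apply ENNReal.ofReal_le_ofReal
    have hw0 : 0 < w := hα.trans_le hw
    have h2 : α * x / (1 + α * x) ≤ ‖1 - cexp (-(w : ℂ) * z)‖ := by
      have h3 := one_sub_exp_le hw0 (z := z) (by rw [hzre]; exact hx)
      rw [hzre] at h3
      refine le_trans ?_ h3
      have h4 : Real.exp (-w * x) ≤ 1 / (1 + α * x) := by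
        rw [neg_mul, Real.exp_neg, one_div]
        apply inv_anti₀ (by positivity)
        have := Real.add_one_le_exp (w * x)
        nlinarith
      have h5 : α * x / (1 + α * x) = 1 - 1 / (1 + α * x) := by
        field_simp
        ring
      linarith
    calc ‖1 - cexp (-(w : ℂ) * z)‖⁻¹ ≤ (α * x / (1 + α * x))⁻¹ :=
          inv_anti₀ (by positivity) h2
      _ = 1 + 1 / (α * x) := by
          field_simp
          ring
      _ ≤ K * (1 + 1 / x) := by
          rw [hK]
          have h6 : (1 + 1 / α) * (1 + 1 / x) = 1 + 1 / (α * x) + (1 / α + 1 / x) := by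
            field_simp
            ring
          rw [h6]
          have : 0 < 1 / α + 1 / x := by positivity
          linarith
  set g : ℝ → ENNReal := (Icc α β).indicator fun w => fac1 w z with hg
  have hgm : Measurable g := (fac1_meas z).indicator measurableSet_Icc
  have hpt : ∀ v ∈ EN B α β, ∏ j, fac1 (B.mulVec v j) z ≤
      ENNReal.ofReal (K * (1 + 1 / x)) ^ (r - d) * ∏ i, g (A.mulVec v i) := by
    intro v hv
    rw [← Finset.prod_sdiff (Finset.subset_univ (Finset.univ.image e))]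
    have h2 : ∏ j ∈ Finset.univ.image e, fac1 (B.mulVec v j) z = ∏ i, g (A.mulVec v i) := by
      rw [Finset.prod_image (fun a _ b _ h => he h)]
      refine Finset.prod_congr rfl fun i _ => ?_
      have h3 : A.mulVec v i = B.mulVec v (e i) := rfl
      rw [h3, hg, Set.indicator_of_mem (hv (e i))]
    rw [h2]
    gcongr
    have h4 : (Finset.univ \ Finset.univ.image e).card = r - d := by
      rw [Finset.card_sdiff_of_subset (Finset.subset_univ _), Finset.card_image_of_injective _ he]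
      simp
    rw [← h4, ← Finset.prod_const]
    exact Finset.prod_le_prod' fun j _ => hfree _ (hv j).1
  calc _ ≤ ∫⁻ v in EN B α β, ENNReal.ofReal (K * (1 + 1 / x)) ^ (r - d) *
        ∏ i, g (A.mulVec v i) := setLIntegral_mono' (EN_meas B α β) hpt
    _ ≤ ∫⁻ v, ENNReal.ofReal (K * (1 + 1 / x)) ^ (r - d) * ∏ i, g (A.mulVec v i) :=
        setLIntegral_le_lintegral _ _
    _ = ENNReal.ofReal (K * (1 + 1 / x)) ^ (r - d) *
        (ENNReal.ofReal |A.det⁻¹| * (∫⁻ w in Icc α β, fac1 w z) ^ d) := by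
        rw [lintegral_const_mul, lint_matrix hdet hgm, hg, lintegral_indicator measurableSet_Icc]
        exact Finset.measurable_fun_prod _ fun i _ =>
          hgm.comp ((measurable_pi_apply i).comp (mulVec_meas A))
    _ ≤ ENNReal.ofReal (K * (1 + 1 / x)) ^ (r - d) *
        (ENNReal.ofReal |A.det⁻¹| * (ENNReal.ofReal (C * (1 + 1 / x) ^ δ)) ^ d) := by
        gcongr
        exact h1 x y hx hy
    _ = _ := by
        have hx' : 0 < 1 / x := by positivity
        have hx1 : 0 < 1 + 1 / x := by linarith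
        rw [← ENNReal.ofReal_pow (by positivity), ← ENNReal.ofReal_pow (by positivity),
          ← ENNReal.ofReal_mul (by positivity), ← ENNReal.ofReal_mul (by positivity)]
        congr 1
        have h5 : (1 + 1 / x) ^ ((r : ℝ) - d + d * δ) =
            (1 + 1 / x) ^ (r - d) * ((1 + 1 / x) ^ δ) ^ d := by
          rw [Real.rpow_add hx1, ← Nat.cast_sub hdr, Real.rpow_natCast, mul_comm (d : ℝ) δ,
            Real.rpow_mul hx1.le, Real.rpow_natCast]
        rw [h5]
        generalize (1 + 1 / x) ^ δ = q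
        generalize 1 + 1 / x = t
        ring

end Pool.Agent.Y616.BM
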