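import Pool.Agent.Y616.BM.Ae

set_option autoImplicit false

/-!
# Barnes zeta functions for almost all weights, part 11: the second moment
-/

namespace Pool.Agent.Y616.BM

open Finset Filter Topology MeasureTheory Complex Set Asymptotics
open Pool.Agent.H131R5.BZ Pool.Agent.Y930.Bz

lemma JJ_mono {r : ℕ} {a a' σ σ' U U' η : ℝ} {w : Fin r → ℝ} (ha : a' ≤ a) (hσ : σ ≤ σ')
    (hU : U ≤ U') (hη : 0 < η) (hη1 : η ≤ 1) :
    JJ a w σ U η ≤ ENNReal.ofReal (Real.exp (2 * (σ' - σ) * U')) * JJ a' w σ' U' η := by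
  have hsin : 0 < Real.sin η := by
    have := sin_ge hη.le hη1
    linarith
  have hpt : ∀ u ∈ Iic U', ‖KK a w (cexp (-(u : ℂ) + ((Real.pi / 2 - η : ℝ) : ℂ) * I))‖ₑ ^ 2 *
      ENNReal.ofReal (Real.exp (-(2 * σ) * u)) ≤ ENNReal.ofReal (Real.exp (2 * (σ' - σ) * U')) *
      (‖KK a' w (cexp (-(u : ℂ) + ((Real.pi / 2 - η : ℝ) : ℂ) * I))‖ₑ ^ 2 *
      ENNReal.ofReal (Real.exp (-(2 * σ') * u))) := by
    intro u hu
    have hu' : u ≤ U' := hu
    set z := cexp (-(u : ℂ) + ((Real.pi / 2 - η : ℝ) : ℂ) * I) with hz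
    have hre : 0 < z.re := by
      rw [hz, exp_re, Real.cos_pi_div_two_sub]
      positivity
    have h1 : ‖KK a w z‖ₑ ^ 2 ≤ ‖KK a' w z‖ₑ ^ 2 := by
      rw [KK_enorm, KK_enorm]
      gcongr
    have h2 : ENNReal.ofReal (Real.exp (-(2 * σ) * u)) ≤
        ENNReal.ofReal (Real.exp (2 * (σ' - σ) * U')) *
          ENNReal.ofReal (Real.exp (-(2 * σ') * u)) := by
      rw [← ENNReal.ofReal_mul (Real.exp_pos _).le, ← Real.exp_add]
      apply ENNReal.ofReal_le_ofReal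
      apply Real.exp_le_exp.2
      nlinarith [mul_nonneg (sub_nonneg.2 hσ) (sub_nonneg.2 hu')]
    calc _ ≤ ‖KK a' w z‖ₑ ^ 2 * (ENNReal.ofReal (Real.exp (2 * (σ' - σ) * U')) *
          ENNReal.ofReal (Real.exp (-(2 * σ') * u))) := by gcongr
      _ = _ := by ring
  unfold JJ
  calc _ ≤ ∫⁻ u in Iic U', ‖KK a w (cexp (-(u : ℂ) + ((Real.pi / 2 - η : ℝ) : ℂ) * I))‖ₑ ^ 2 *
      ENNReal.ofReal (Real.exp (-(2 * σ) * u)) := lintegral_mono_set (Iic_subset_Iic.2 hU)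
    _ ≤ ∫⁻ u in Iic U', ENNReal.ofReal (Real.exp (2 * (σ' - σ) * U')) *
      (‖KK a' w (cexp (-(u : ℂ) + ((Real.pi / 2 - η : ℝ) : ℂ) * I))‖ₑ ^ 2 *
      ENNReal.ofReal (Real.exp (-(2 * σ') * u))) := setLIntegral_mono' measurableSet_Iic hpt
    _ = _ := by rw [lintegral_const_mul' _ _ ENNReal.ofReal_ne_top]

/-- summation of dyadic pieces -/
lemma dyadic (F : ℝ → ENNReal) {C τ : ℝ} (hC : 0 ≤ C) (hτ : 1 ≤ τ)
    (h : ∀ n : ℕ, ∫⁻ t in Icc ((2 : ℝ) ^ n) (2 * 2 ^ n), F t ≤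
      ENNReal.ofReal (C * ((2 : ℝ) ^ n) ^ τ)) (n : ℕ) :
    ∫⁻ t in Icc 1 ((2 : ℝ) ^ n), F t ≤ ENNReal.ofReal (C * ((2 : ℝ) ^ n) ^ τ) := by
  induction n with
  | zero => simp
  | succ n ih =>
    have h1 : Icc (1 : ℝ) (2 ^ (n + 1)) ⊆ Icc 1 (2 ^ n) ∪ Icc (2 ^ n) (2 * 2 ^ n) := by
      intro t ht
      rcases le_total t (2 ^ n) with h2 | h2
      · exact Or.inl ⟨ht.1, h2⟩
      · refine Or.inr ⟨h2, ?_⟩
        have := ht.2
        rw [pow_succ] at this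
        linarith
    calc _ ≤ ∫⁻ t in Icc 1 ((2 : ℝ) ^ n) ∪ Icc ((2 : ℝ) ^ n) (2 * 2 ^ n), F t :=
          lintegral_mono_set h1
      _ ≤ _ := lintegral_union_le _ _ _
      _ ≤ ENNReal.ofReal (C * ((2 : ℝ) ^ n) ^ τ) + ENNReal.ofReal (C * ((2 : ℝ) ^ n) ^ τ) :=
          add_le_add ih (h n)
      _ = ENNReal.ofReal (C * ((2 : ℝ) ^ n) ^ τ * 2) := by
          rw [← ENNReal.ofReal_add (by positivity) (by positivity)]
          congr 1
          ring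
      _ ≤ _ := by
          apply ENNReal.ofReal_le_ofReal
          have h2 : ((2 : ℝ) ^ (n + 1)) ^ τ = ((2 : ℝ) ^ n) ^ τ * 2 ^ τ := by
            rw [pow_succ, Real.mul_rpow (by positivity) (by norm_num)]
          have h3 : (2 : ℝ) ≤ 2 ^ τ := by
            calc (2 : ℝ) = 2 ^ (1 : ℝ) := (Real.rpow_one 2).symm
              _ ≤ 2 ^ τ := Real.rpow_le_rpow_of_exponent_le (by norm_num) hτ
          rw [h2]
          have h4 : 0 ≤ C * ((2 : ℝ) ^ n) ^ τ := by positivity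
          nlinarith

/-- the second moment of the continuation for good parameters -/
theorem second_moment {d : ℕ} (hd : 1 ≤ d) {v : Fin d → ℝ} (hv : LinearIndependent ℚ v)
    (hG : Good v) {r : ℕ} {a : ℝ} (ha : 0 < a) {w : Fin r → ℝ} (hw : ∀ j, 0 < w j)
    (hspan : Submodule.span ℚ (range w) = Submodule.span ℚ (range v)) {c : ℕ → ℂ}
    (hc : Tay a w c) {σ : ℝ} (hσ : (r : ℝ) - d / 2 ≤ σ) {ε : ℝ} (hε : 0 < ε) :
    ∃ C : ℝ, 0 ≤ C ∧ ∀ T : ℝ, 1 ≤ T → ∫⁻ t in Icc 1 T, ‖FF a w c ((σ : ℂ) + t * I)‖ₑ ^ 2 ≤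
      ENNReal.ofReal (C * T ^ (1 + ε)) := by
  obtain ⟨B, e, he, hdet, hwB⟩ := lin hv hspan
  have hdr : d ≤ r := by
    simpa using Fintype.card_le_of_injective e he
  have hσ2 : 1 / 2 ≤ σ := by
    have h1 : (1 : ℝ) ≤ d := by exact_mod_cast hd
    have h2 : (d : ℝ) ≤ r := by exact_mod_cast hdr
    linarith
  obtain ⟨C₁, U₀, hC₁, hz⟩ := zone ha hw hc hσ2
  -- parameters
  obtain ⟨U, hU⟩ := exists_nat_ge U₀
  obtain ⟨K, hK⟩ := exists_nat_ge (2 / ε)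
  obtain ⟨σ', hσ'1, hσ'2⟩ := exists_rat_btwn (show σ < σ + ε / 4 by linarith)
  obtain ⟨N, hN⟩ : ∃ N : ℕ, 1 / ((N : ℝ) + 1) ≤ a ∧ ∀ j, 1 / ((N : ℝ) + 1) ≤ w j ∧
      w j ≤ (N : ℝ) + 1 := by
    obtain ⟨N, hN⟩ := exists_nat_ge (1 / a + ∑ j, (1 / w j + w j))
    refine ⟨N, ?_, fun j => ?_⟩
    · have h1 : 1 / a ≤ (N : ℝ) + 1 := by
        have : 0 ≤ ∑ j, (1 / w j + w j) :=
          Finset.sum_nonneg fun j _ => by have := hw j; positivity
        linarith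
      rw [div_le_iff₀ (by positivity)]
      rw [div_le_iff₀ ha] at h1
      linarith
    · have h2 : 1 / w j + w j ≤ ∑ j, (1 / w j + w j) :=
        Finset.single_le_sum (f := fun j => 1 / w j + w j)
          (fun j _ => by have := hw j; positivity) (Finset.mem_univ j)
      have h3 : 0 < 1 / a := by positivity
      have hwj := hw j
      have h4 : 0 < 1 / w j := by positivity
      constructor
      · have h1 : 1 / w j ≤ (N : ℝ) + 1 := by linarith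
        rw [div_le_iff₀ (by positivity)]
        rw [div_le_iff₀ hwj] at h1
        linarith
      · linarith
  obtain ⟨C₂, hC₂, hJ⟩ := hG r B e N U K σ' he hdet (hσ.trans_lt hσ'1) (by
    intro j
    rw [← hwB]
    exact hN.2 j)
  rw [← hwB] at hJ
  set E : ℝ := Real.exp (2 * ((σ' : ℝ) - σ) * U) with hE
  have hE0 : 0 < E := Real.exp_pos _
  have hK' : 1 / ((K : ℝ) + 1) ≤ ε / 2 := by
    rw [div_le_iff₀ hε] at hK
    rw [div_le_iff₀ (by positivity)]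
    nlinarith
  have hpiece : ∀ n : ℕ, ∫⁻ t in Icc ((2 : ℝ) ^ n) (2 * 2 ^ n),
      ‖FF a w c ((σ : ℂ) + t * I)‖ₑ ^ 2 ≤
      ENNReal.ofReal ((C₁ + C₁ * E * C₂) * ((2 : ℝ) ^ n) ^ (1 + ε)) := by
    intro n
    set T : ℝ := (2 : ℝ) ^ n with hT
    have hT1 : 1 ≤ T := one_le_pow₀ (by norm_num)
    have hT0 : 0 < T := by positivity
    have h1 : (1 : ℝ) / T = (1 / 2) ^ n := by rw [hT, one_div_pow]
    have h2 := hz T hT1
    have hη0 : 0 < 1 / T := by positivity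
    have hη1 : 1 / T ≤ 1 := by rw [div_le_one hT0]; exact hT1
    have h3 := JJ_mono (w := w) (σ := σ) (σ' := (σ' : ℝ)) hN.1 hσ'1.le hU hη0 hη1
    have h4 := hJ n
    rw [← h1] at h4
    calc _ ≤ _ := h2
      _ ≤ ENNReal.ofReal (C₁ * T) + ENNReal.ofReal (C₁ * T ^ (1 - 2 * σ)) *
          (ENNReal.ofReal E * ENNReal.ofReal (C₂ * T ^ (2 * (σ' : ℝ) + 1 / (K + 1)))) := by
          gcongr
          exact h3.trans (by gcongr)
      _ = ENNReal.ofReal (C₁ * T + C₁ * E * C₂ *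
          T ^ ((1 - 2 * σ) + (2 * (σ' : ℝ) + 1 / (K + 1)))) := by
          have e1 : T ^ ((1 - 2 * σ) + (2 * (σ' : ℝ) + 1 / (K + 1))) =
              T ^ (1 - 2 * σ) * T ^ (2 * (σ' : ℝ) + 1 / (K + 1)) := Real.rpow_add hT0 _ _
          rw [← ENNReal.ofReal_mul hE0.le, ← ENNReal.ofReal_mul (by positivity),
            ← ENNReal.ofReal_add (by positivity) (by positivity), e1]
          congr 1
          ring
      _ ≤ _ := by
          apply ENNReal.ofReal_le_ofReal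
          have h5 : T ≤ T ^ (1 + ε) := by
            calc T = T ^ (1 : ℝ) := (Real.rpow_one T).symm
              _ ≤ T ^ (1 + ε) := Real.rpow_le_rpow_of_exponent_le hT1 (by linarith)
          have h6 : T ^ ((1 - 2 * σ) + (2 * (σ' : ℝ) + 1 / (K + 1))) ≤ T ^ (1 + ε) := by
            apply Real.rpow_le_rpow_of_exponent_le hT1
            linarith
          have h7 : 0 ≤ C₁ * E * C₂ := by positivity
          calc _ ≤ C₁ * T ^ (1 + ε) + C₁ * E * C₂ * T ^ (1 + ε) := by gcongr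
            _ = _ := by ring
  have hdy := dyadic (fun t : ℝ => ‖FF a w c ((σ : ℂ) + t * I)‖ₑ ^ 2)
    (C := C₁ + C₁ * E * C₂) (τ := 1 + ε) (by positivity) (by linarith) hpiece
  refine ⟨(C₁ + C₁ * E * C₂) * 2 ^ (1 + ε), by positivity, fun T hT => ?_⟩
  obtain ⟨n, hn1, hn2⟩ := exists_nat_pow_near hT (one_lt_two)
  calc _ ≤ ∫⁻ t in Icc 1 ((2 : ℝ) ^ (n + 1)), ‖FF a w c ((σ : ℂ) + t * I)‖ₑ ^ 2 :=
        lintegral_mono_set (Icc_subset_Icc_right hn2.le)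
    _ ≤ _ := hdy (n + 1)
    _ ≤ _ := by
        apply ENNReal.ofReal_le_ofReal
        have h1 : ((2 : ℝ) ^ (n + 1)) ^ (1 + ε) ≤ (T * 2) ^ (1 + ε) := by
          apply Real.rpow_le_rpow (by positivity) _ (by linarith)
          rw [pow_succ]
          linarith
        rw [Real.mul_rpow (by linarith) (by norm_num)] at h1
        have h2 : 0 ≤ C₁ + C₁ * E * C₂ := by positivity
        calc _ ≤ (C₁ + C₁ * E * C₂) * (T ^ (1 + ε) * 2 ^ (1 + ε)) := by gcongr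
          _ = _ := by ring

end Pool.Agent.Y616.BM
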