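import Pool.Agent.Y616.BM.Lin1
import Pool.Agent.Y616.BM.Main

set_option autoImplicit false

/-!
# Barnes zeta functions for almost all weights, part 17: the first power of the kernel on rays
-/

namespace Pool.Agent.Y616.BM

open Finset Filter Topology MeasureTheory Complex Set
open Pool.Agent.H131R5.BZ Pool.Agent.Y930.Bz

/-- the weighted integral of the kernel on a rotated ray -/
noncomputable def JL {r : ℕ} (a : ℝ) (w : Fin r → ℝ) (σ U η : ℝ) : ENNReal :=
  ∫⁻ u in Iic U, ‖KK a w (zr u η)‖ₑ * ENNReal.ofReal (Real.exp (-σ * u))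

lemma one_add_rpow {y p : ℝ} (hy : 0 ≤ y) (hp : 0 ≤ p) : (1 + y) ^ p ≤ 2 ^ p * (1 + y ^ p) := by
  have h2 : (0 : ℝ) ≤ 2 ^ p := by positivity
  have hyp : 0 ≤ y ^ p := by positivity
  rcases le_total y 1 with h | h
  · calc (1 + y) ^ p ≤ 2 ^ p := Real.rpow_le_rpow (by positivity) (by linarith) hp
      _ ≤ _ := by nlinarith
  · calc (1 + y) ^ p ≤ (2 * y) ^ p := Real.rpow_le_rpow (by positivity) (by linarith) hp
      _ = 2 ^ p * y ^ p := Real.mul_rpow (by norm_num) hy
      _ ≤ _ := by nlinarith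

/-- the average of the ray integral over a rational family -/
theorem JL_avg {r d : ℕ} (B : Matrix (Fin r) (Fin d) ℝ) (e : Fin d → Fin r)
    (he : Function.Injective e) (hdet : (B.submatrix e id).det ≠ 0) {α β a : ℝ} (hα : 0 < α)
    (hαβ : α ≤ β) (ha : 0 < a) (U : ℝ) {σ : ℝ} (hσ : (r : ℝ) - d < σ) :
    ∃ C : ℝ, 0 ≤ C ∧ ∀ η : ℝ, 0 < η → η ≤ 1 →
      ∫⁻ v in EN B α β, JL a (B.mulVec v) σ U η ≤ ENNReal.ofReal (C * η ^ (-σ)) := by
  have hdr : d ≤ r := by
    simpa using Fintype.card_le_of_injective e he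
  have hdr' : (d : ℝ) ≤ r := Nat.cast_le.2 hdr
  set δ : ℝ := min 1 ((σ - (r - d)) / (2 * (d + 1))) with hδdef
  have hgap : 0 < σ - (r - d) := by linarith
  have hδ : 0 < δ := lt_min one_pos (by positivity)
  have hδ1 : δ ≤ 1 := min_le_left _ _
  set p : ℝ := (r : ℝ) - d + d * δ with hp
  have hp0 : 0 ≤ p := by
    have : 0 ≤ (d : ℝ) * δ := by positivity
    linarith
  have hσp : 0 < σ - p := by
    have h1 : δ ≤ (σ - (r - d)) / (2 * (d + 1)) := min_le_right _ _
    have h2 : (d : ℝ) * δ ≤ (σ - (r - d)) / 2 := by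
      calc (d : ℝ) * δ ≤ (d + 1) * ((σ - (r - d)) / (2 * (d + 1))) := by
            gcongr
            linarith
        _ = _ := by field_simp
    rw [hp]
    linarith
  have hσ0 : 0 < σ := by linarith
  have hcos : 0 < Real.cos 1 := Real.cos_one_pos
  obtain ⟨C, hC, h1⟩ := avg_mat1 B e he hdet hα hαβ (y₀ := Real.exp (-U) * Real.cos 1)
    (by positivity) hδ hδ1
  obtain ⟨G₁, hG₁, hg1⟩ := gf_lint_scale (σ := σ) (c := a / 2) hσ0 (by positivity)
  obtain ⟨G₂, hG₂, hg2⟩ := gf_lint_scale (σ := σ - p) (c := a / 2) hσp (by positivity)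
  set D : ℝ := C * 2 ^ p with hD
  have hD0 : 0 ≤ D := by positivity
  refine ⟨D * G₁ + D * 2 ^ p * G₂, by positivity, fun η hη hη1 => ?_⟩
  have hsin := sin_ge hη.le hη1
  have hsin0 : 0 < Real.sin η := by linarith
  have hm : Measurable fun q : (Fin d → ℝ) × ℝ => ‖KK a (B.mulVec q.1) (zr q.2 η)‖ₑ *
      ENNReal.ofReal (Real.exp (-σ * q.2)) := by
    refine Measurable.mul (Measurable.enorm ?_) (by fun_prop)
    have h2 : Measurable fun q : (Fin d → ℝ) × ℝ => ((B.mulVec q.1, zr q.2 η) :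
        (Fin r → ℝ) × ℂ) :=
      ((mulVec_meas B).comp measurable_fst).prodMk ((zr_meas η).comp measurable_snd)
    exact (KK_meas a).comp h2
  have hin : ∀ u ∈ Iic U, ∫⁻ v in EN B α β, ‖KK a (B.mulVec v) (zr u η)‖ₑ *
      ENNReal.ofReal (Real.exp (-σ * u)) ≤
      ENNReal.ofReal (D * gf σ (a / 2 * η) u) +
        ENNReal.ofReal (D * (2 / η) ^ p * gf (σ - p) (a / 2 * η) u) := by
    intro u hu
    set x : ℝ := Real.exp (-u) * Real.sin η with hx
    set y : ℝ := Real.exp (-u) * Real.cos η with hy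
    have hx0 : 0 < x := by positivity
    have hcη : Real.cos 1 ≤ Real.cos η :=
      Real.cos_le_cos_of_nonneg_of_le_pi hη.le (by linarith [Real.pi_gt_three]) hη1
    have hy0 : Real.exp (-U) * Real.cos 1 ≤ y := by
      have h2 : Real.exp (-U) ≤ Real.exp (-u) := Real.exp_le_exp.2 (by simpa using hu)
      rw [hy]
      gcongr
    have hzr : zr u η = (x : ℂ) + y * I := zr_eq u η
    have hre : (zr u η).re = x := by rw [hzr]; simp
    have h2 : ∀ v, ‖KK a (B.mulVec v) (zr u η)‖ₑ * ENNReal.ofReal (Real.exp (-σ * u)) =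
        ENNReal.ofReal (Real.exp (-a * x) * Real.exp (-σ * u)) *
          ∏ j, fac1 (B.mulVec v j) ((x : ℂ) + y * I) := by
      intro v
      rw [KK_enorm1, hre, hzr, ENNReal.ofReal_mul (Real.exp_pos _).le]
      ring
    simp only [h2]
    rw [lintegral_const_mul' _ _ ENNReal.ofReal_ne_top]
    have hxge : Real.exp (-u) * η / 2 ≤ x := by
      rw [hx, mul_div_assoc]
      gcongr
    have h3 : (1 + 1 / x) ^ p ≤ 2 ^ p * (1 + (2 / η) ^ p * Real.exp (p * u)) := by
      have h4 : 1 / x ≤ 2 / η * Real.exp u := by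
        rw [div_le_iff₀ hx0]
        calc (1 : ℝ) = 2 / η * Real.exp u * (Real.exp (-u) * η / 2) := by
              rw [Real.exp_neg]
              field_simp
          _ ≤ 2 / η * Real.exp u * x := by gcongr
      calc (1 + 1 / x) ^ p ≤ 2 ^ p * (1 + (1 / x) ^ p) := one_add_rpow (by positivity) hp0
        _ ≤ 2 ^ p * (1 + (2 / η * Real.exp u) ^ p) := by
            gcongr
        _ = _ := by
            rw [Real.mul_rpow (by positivity) (Real.exp_pos _).le, ← Real.exp_mul, mul_comm u p]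
    have h5 : Real.exp (-a * x) ≤ Real.exp (-(a / 2 * η) * Real.exp (-u)) := by
      apply Real.exp_le_exp.2
      nlinarith
    calc _ ≤ ENNReal.ofReal (Real.exp (-a * x) * Real.exp (-σ * u)) *
          ENNReal.ofReal (C * (1 + 1 / x) ^ p) := by
          gcongr
          exact h1 x y hx0 hy0
      _ = ENNReal.ofReal (Real.exp (-a * x) * Real.exp (-σ * u) *
          (C * (1 + 1 / x) ^ p)) := by rw [← ENNReal.ofReal_mul (by positivity)]
      _ ≤ ENNReal.ofReal (Real.exp (-(a / 2 * η) * Real.exp (-u)) * Real.exp (-σ * u) *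
          (C * (2 ^ p * (1 + (2 / η) ^ p * Real.exp (p * u))))) := by
          apply ENNReal.ofReal_le_ofReal
          gcongr
      _ = ENNReal.ofReal (D * gf σ (a / 2 * η) u +
          D * (2 / η) ^ p * gf (σ - p) (a / 2 * η) u) := by
          congr 1
          unfold gf
          have h6 : Real.exp (-(σ - p) * u) = Real.exp (-σ * u) * Real.exp (p * u) := by
            rw [← Real.exp_add]
            congr 1
            ring
          rw [h6, hD]
          ring
      _ = _ := by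
          rw [ENNReal.ofReal_add]
          · exact mul_nonneg hD0 (gf_pos _ _ _).le
          · exact mul_nonneg (by positivity) (gf_pos _ _ _).le
  calc ∫⁻ v in EN B α β, JL a (B.mulVec v) σ U η
      = ∫⁻ v in EN B α β, ∫⁻ u in Iic U, ‖KK a (B.mulVec v) (zr u η)‖ₑ *
        ENNReal.ofReal (Real.exp (-σ * u)) := rfl
    _ = ∫⁻ u in Iic U, ∫⁻ v in EN B α β, ‖KK a (B.mulVec v) (zr u η)‖ₑ *
        ENNReal.ofReal (Real.exp (-σ * u)) :=
        lintegral_lintegral_swap hm.aemeasurable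
    _ ≤ ∫⁻ u in Iic U, (ENNReal.ofReal (D * gf σ (a / 2 * η) u) +
        ENNReal.ofReal (D * (2 / η) ^ p * gf (σ - p) (a / 2 * η) u)) :=
        setLIntegral_mono' measurableSet_Iic hin
    _ ≤ ∫⁻ u, (ENNReal.ofReal (D * gf σ (a / 2 * η) u) +
        ENNReal.ofReal (D * (2 / η) ^ p * gf (σ - p) (a / 2 * η) u)) :=
        setLIntegral_le_lintegral _ _
    _ = ENNReal.ofReal (D * (G₁ * η ^ (-σ))) +
        ENNReal.ofReal (D * (2 / η) ^ p * (G₂ * η ^ (-(σ - p)))) := by
        rw [lintegral_add_left ((gf_cont _ _).measurable.const_mul D).ennreal_ofReal]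
        congr 1
        · have h6 : ∀ u, ENNReal.ofReal (D * gf σ (a / 2 * η) u) =
              ENNReal.ofReal D * ENNReal.ofReal (gf σ (a / 2 * η) u) := fun u =>
            ENNReal.ofReal_mul hD0
          simp only [h6]
          rw [lintegral_const_mul _ (gf_cont _ _).measurable.ennreal_ofReal, hg1 η hη,
            ← ENNReal.ofReal_mul hD0]
        · have hD1 : 0 ≤ D * (2 / η) ^ p := by positivity
          have h6 : ∀ u, ENNReal.ofReal (D * (2 / η) ^ p * gf (σ - p) (a / 2 * η) u) =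
              ENNReal.ofReal (D * (2 / η) ^ p) * ENNReal.ofReal (gf (σ - p) (a / 2 * η) u) :=
            fun u => ENNReal.ofReal_mul hD1
          simp only [h6]
          rw [lintegral_const_mul _ (gf_cont _ _).measurable.ennreal_ofReal, hg2 η hη,
            ← ENNReal.ofReal_mul hD1]
    _ = _ := by
        rw [← ENNReal.ofReal_add (by positivity) (by positivity)]
        congr 1
        have h7 : (2 / η) ^ p * η ^ (-(σ - p)) = 2 ^ p * η ^ (-σ) := by
          rw [Real.div_rpow (by norm_num) hη.le, div_mul_eq_mul_div, div_eq_iff (by positivity),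
            mul_assoc, ← Real.rpow_add hη]
          congr 2
          ring
        calc D * (G₁ * η ^ (-σ)) + D * (2 / η) ^ p * (G₂ * η ^ (-(σ - p)))
            = D * (G₁ * η ^ (-σ)) + D * G₂ * ((2 / η) ^ p * η ^ (-(σ - p))) := by ring
          _ = _ := by rw [h7]; ring

lemma JL_meas {r d : ℕ} (B : Matrix (Fin r) (Fin d) ℝ) (a σ U η : ℝ) :
    Measurable fun v : Fin d → ℝ => JL a (B.mulVec v) σ U η := by
  have hm : Measurable fun q : (Fin d → ℝ) × ℝ => ‖KK a (B.mulVec q.1) (zr q.2 η)‖ₑ *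
      ENNReal.ofReal (Real.exp (-σ * q.2)) := by
    refine Measurable.mul (Measurable.enorm ?_) (by fun_prop)
    have h2 : Measurable fun q : (Fin d → ℝ) × ℝ => ((B.mulVec q.1, zr q.2 η) :
        (Fin r → ℝ) × ℂ) :=
      ((mulVec_meas B).comp measurable_fst).prodMk ((zr_meas η).comp measurable_snd)
    exact (KK_meas a).comp h2
  exact hm.lintegral_prod_right'

/-- the ray integrals are small along dyadic angles for almost all parameters -/
theorem ae_bound1 {r d : ℕ} (B : Matrix (Fin r) (Fin d) ℝ) (e : Fin d → Fin r)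
    (he : Function.Injective e) (hdet : (B.submatrix e id).det ≠ 0) {α β a : ℝ} (hα : 0 < α)
    (hαβ : α ≤ β) (ha : 0 < a) (U : ℝ) {σ : ℝ} (hσ : (r : ℝ) - d < σ) {δ : ℝ} (hδ : 0 < δ) :
    ∀ᵐ v ∂(volume.restrict (EN B α β)), ∃ C : ℝ, 0 ≤ C ∧ ∀ n : ℕ,
      JL a (B.mulVec v) σ U ((1 / 2 : ℝ) ^ n) ≤
        ENNReal.ofReal (C * ((2 : ℝ) ^ n) ^ (σ + δ)) := by
  obtain ⟨C, hC, h1⟩ := JL_avg B e he hdet hα hαβ ha U hσ
  set q : ℕ → ℝ := fun n => ((1 / 2 : ℝ) ^ n) ^ (σ + δ) with hq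
  have hq0 : ∀ n, 0 < q n := fun n => Real.rpow_pos_of_pos (by positivity) _
  set F : (Fin d → ℝ) → ENNReal := fun v => ∑' n : ℕ, ENNReal.ofReal (q n) *
    JL a (B.mulVec v) σ U ((1 / 2 : ℝ) ^ n) with hF
  have hFm : Measurable F := by
    refine Measurable.tsum fun n => ?_
    exact (JL_meas B a σ U _).const_mul _
  have hgeo : ∀ n : ℕ, q n * (C * ((1 / 2 : ℝ) ^ n) ^ (-σ)) = C * ((1 / 2 : ℝ) ^ δ) ^ n := by
    intro n
    have hp : (0 : ℝ) < (1 / 2 : ℝ) ^ n := by positivity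
    have h2 : q n * (C * ((1 / 2 : ℝ) ^ n) ^ (-σ)) =
        C * (((1 / 2 : ℝ) ^ n) ^ (σ + δ) * ((1 / 2 : ℝ) ^ n) ^ (-σ)) := by
      simp only [hq]; ring
    rw [h2, ← Real.rpow_add hp]
    congr 1
    have h3 : σ + δ + -σ = δ := by ring
    rw [h3, ← Real.rpow_natCast, ← Real.rpow_natCast, ← Real.rpow_mul (by norm_num),
      ← Real.rpow_mul (by norm_num), mul_comm]
  have hfin : ∫⁻ v in EN B α β, F v ≠ ⊤ := by
    have h2 : ∫⁻ v in EN B α β, F v ≤ ∑' n : ℕ, ENNReal.ofReal (C * ((1 / 2 : ℝ) ^ δ) ^ n) := by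
      rw [hF, lintegral_tsum fun n => ((JL_meas B a σ U _).const_mul _).aemeasurable]
      refine ENNReal.tsum_le_tsum fun n => ?_
      rw [lintegral_const_mul _ (JL_meas B a σ U _), ← hgeo n, ENNReal.ofReal_mul (hq0 n).le]
      gcongr
      exact h1 _ (by positivity) (pow_le_one₀ (by norm_num) (by norm_num))
    refine ne_top_of_le_ne_top ?_ h2
    have h3 : Summable fun n : ℕ => C * ((1 / 2 : ℝ) ^ δ) ^ n :=
      (summable_geometric_of_lt_one (by positivity)
        (Real.rpow_lt_one (by norm_num) (by norm_num) hδ)).mul_left C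
    exact h3.tsum_ofReal_ne_top
  filter_upwards [ae_lt_top hFm hfin] with v hv
  refine ⟨(F v).toReal, ENNReal.toReal_nonneg, fun n => ?_⟩
  have h2 : ENNReal.ofReal (q n) * JL a (B.mulVec v) σ U ((1 / 2 : ℝ) ^ n) ≤
      ENNReal.ofReal (F v).toReal := by
    rw [ENNReal.ofReal_toReal hv.ne]
    exact ENNReal.le_tsum (f := fun n : ℕ => ENNReal.ofReal (q n) *
      JL a (B.mulVec v) σ U ((1 / 2 : ℝ) ^ n)) n
  have h3 : q n * ((2 : ℝ) ^ n) ^ (σ + δ) = 1 := by
    simp only [hq]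
    rw [← Real.mul_rpow (by positivity) (by positivity), ← mul_pow]
    norm_num
  calc JL a (B.mulVec v) σ U ((1 / 2 : ℝ) ^ n)
      = ENNReal.ofReal (((2 : ℝ) ^ n) ^ (σ + δ)) *
        (ENNReal.ofReal (q n) * JL a (B.mulVec v) σ U ((1 / 2 : ℝ) ^ n)) := by
        rw [← mul_assoc, ← ENNReal.ofReal_mul (by positivity), mul_comm (_ ^ (σ + δ)) (q n), h3,
          ENNReal.ofReal_one, one_mul]
    _ ≤ ENNReal.ofReal (((2 : ℝ) ^ n) ^ (σ + δ)) * ENNReal.ofReal (F v).toReal := by gcongr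
    _ = _ := by
        rw [← ENNReal.ofReal_mul (by positivity), mul_comm]

/-- the good parameters for the first power -/
def Goo {d : ℕ} (v : Fin d → ℝ) : Prop :=
  ∀ (r : ℕ) (B : Fin r → Fin d → ℚ) (e : Fin d → Fin r) (N U K : ℕ) (σ : ℚ),
    Function.Injective e → ((rm B).submatrix e id).det ≠ 0 → (r : ℝ) - d < σ →
    v ∈ EN (rm B) (1 / (N + 1)) (N + 1) → ∃ C : ℝ, 0 ≤ C ∧ ∀ n : ℕ,
      JL (1 / (N + 1)) ((rm B).mulVec v) σ U ((1 / 2 : ℝ) ^ n) ≤
        ENNReal.ofReal (C * ((2 : ℝ) ^ n) ^ ((σ : ℝ) + 1 / (K + 1)))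

theorem ae_goo (d : ℕ) : ∀ᵐ v : Fin d → ℝ, Goo v := by
  unfold Goo
  simp only [ae_all_iff]
  intro r B e N U K σ he hdet hσ
  rw [← ae_restrict_iff' (EN_meas _ _ _)]
  refine ae_bound1 (rm B) e he hdet (by positivity) ?_ (by positivity) U hσ (by positivity)
  have h1 : (0 : ℝ) ≤ N := Nat.cast_nonneg N
  rw [div_le_iff₀ (by positivity)]
  nlinarith

lemma JL_mono {r : ℕ} {a a' σ σ' U U' η : ℝ} {w : Fin r → ℝ} (ha : a' ≤ a) (hσ : σ ≤ σ')
    (hU : U ≤ U') (hη : 0 < η) (hη1 : η ≤ 1) :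
    JL a w σ U η ≤ ENNReal.ofReal (Real.exp ((σ' - σ) * U')) * JL a' w σ' U' η := by
  have hsin : 0 < Real.sin η := by
    have := sin_ge hη.le hη1
    linarith
  have hpt : ∀ u ∈ Iic U', ‖KK a w (zr u η)‖ₑ *
      ENNReal.ofReal (Real.exp (-σ * u)) ≤ ENNReal.ofReal (Real.exp ((σ' - σ) * U')) *
      (‖KK a' w (zr u η)‖ₑ * ENNReal.ofReal (Real.exp (-σ' * u))) := by
    intro u hu
    have hu' : u ≤ U' := hu
    set z := zr u η with hz
    have hre : 0 < z.re := by
      have h1 : z.re = Real.exp (-u) * Real.sin η := by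
        rw [hz]
        unfold zr
        rw [exp_re, Real.cos_pi_div_two_sub]
      rw [h1]
      positivity
    have h1 : ‖KK a w z‖ₑ ≤ ‖KK a' w z‖ₑ := by
      rw [KK_enorm1, KK_enorm1]
      gcongr
    have h2 : ENNReal.ofReal (Real.exp (-σ * u)) ≤
        ENNReal.ofReal (Real.exp ((σ' - σ) * U')) * ENNReal.ofReal (Real.exp (-σ' * u)) := by
      rw [← ENNReal.ofReal_mul (Real.exp_pos _).le, ← Real.exp_add]
      apply ENNReal.ofReal_le_ofReal
      apply Real.exp_le_exp.2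
      nlinarith [mul_nonneg (sub_nonneg.2 hσ) (sub_nonneg.2 hu')]
    calc _ ≤ ‖KK a' w z‖ₑ * (ENNReal.ofReal (Real.exp ((σ' - σ) * U')) *
          ENNReal.ofReal (Real.exp (-σ' * u))) := by gcongr
      _ = _ := by ring
  unfold JL
  calc _ ≤ ∫⁻ u in Iic U', ‖KK a w (zr u η)‖ₑ * ENNReal.ofReal (Real.exp (-σ * u)) :=
        lintegral_mono_set (Iic_subset_Iic.2 hU)
    _ ≤ ∫⁻ u in Iic U', ENNReal.ofReal (Real.exp ((σ' - σ) * U')) *
      (‖KK a' w (zr u η)‖ₑ * ENNReal.ofReal (Real.exp (-σ' * u))) :=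
        setLIntegral_mono' measurableSet_Iic hpt
    _ = _ := by rw [lintegral_const_mul' _ _ ENNReal.ofReal_ne_top]

end Pool.Agent.Y616.BM
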