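import Pool.Agent.Y616.BM.Pt2

set_option autoImplicit false

/-!
# Barnes zeta functions for almost all weights, part 15: the measure of the exceptional ordinates
-/

namespace Pool.Agent.Y616.BM

open Finset Filter Topology MeasureTheory Complex Set Asymptotics
open Pool.Agent.H131R5.BZ Pool.Agent.Y930.Bz

lemma gauss_lint (y : ℝ) : ∫⁻ t : ℝ, ENNReal.ofReal (Real.exp (-(y - t) ^ 2)) =
    ENNReal.ofReal (Real.sqrt Real.pi) := by
  have h1 : Integrable fun x : ℝ => Real.exp (-1 * x ^ 2) := integrable_exp_neg_mul_sq one_pos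
  have h2 : Integrable fun t : ℝ => Real.exp (-(y - t) ^ 2) := by
    have := h1.comp_sub_left y
    simpa only [neg_one_mul] using this
  rw [← ofReal_integral_eq_lintegral_ofReal h2 (ae_of_all _ fun t => (Real.exp_pos _).le)]
  congr 1
  rw [integral_sub_left_eq_self (fun x : ℝ => Real.exp (-x ^ 2)) volume y]
  have := integral_gaussian 1
  simpa using this

variable {r : ℕ} {a : ℝ} {w : Fin r → ℝ} {c : ℕ → ℂ}

/-- the measure of the ordinates with a large value -/
theorem bad_measure (ha : 0 < a) (hw : ∀ j, 0 < w j) (hc : Tay a w c) {α κ σ₁ τ C₀ : ℝ}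
    (hα : 0 < α) (hκ : 0 < κ) (hκ1 : κ ≤ 1) (hτ : 1 ≤ τ) (hC₀ : 0 ≤ C₀)
    (h : ∀ T : ℝ, 1 ≤ T → ∫⁻ t in Icc 1 T, ‖FF a w c ((α : ℂ) + t * I)‖ₑ ^ 2 ≤
      ENNReal.ofReal (C₀ * T ^ τ)) {ε : ℝ} (hε : 0 ≤ ε) :
    ∃ C : ℝ, 0 ≤ C ∧ ∀ T : ℝ, 2 ≤ T →
      volume {t : ℝ | t ∈ Icc T (2 * T) ∧ ∃ σ : ℝ, α + κ ≤ σ ∧ σ ≤ σ₁ ∧
        t ^ ε < ‖FF a w c ((σ : ℂ) + t * I)‖} ≤ ENNReal.ofReal (C * T ^ (τ - 2 * ε)) := by
  obtain ⟨C, hC, hcb⟩ := cauchy_bound (σ₁ := σ₁) ha hw hc hα hκ hκ1
  set D : ℝ := C + C * (Real.sqrt Real.pi * (C₀ * 10 ^ τ)) with hD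
  have hD0 : 0 ≤ D := by positivity
  refine ⟨D, hD0, fun T hT => ?_⟩
  have hT0 : 0 < T := by linarith
  set Y : ℝ := 4 * T + 12 with hY
  set f : ℝ → ENNReal := fun y => ‖FF a w c ((α : ℂ) + y * I)‖ₑ ^ 2 with hf
  have hFd : ∀ z : ℂ, 1 ≤ z.im → DifferentiableAt ℂ (FF a w c) z := fun z hz =>
    FF_diff ha hw hc (by
      intro k _ _ h
      have := congrArg Complex.im h
      simp at this
      linarith)
  have hfm : AEMeasurable f (volume.restrict (Icc 1 Y)) := by
    have h1 : ContinuousOn (fun y : ℝ => FF a w c ((α : ℂ) + y * I)) (Icc 1 Y) := by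
      intro y hy
      exact (ContinuousAt.comp (g := FF a w c) (f := fun y : ℝ => (α : ℂ) + y * I)
        (hFd _ (by simpa using hy.1)).continuousAt (by fun_prop)).continuousWithinAt
    exact (h1.aemeasurable measurableSet_Icc).enorm.pow_const 2
  set R : ℝ → ENNReal := fun t => ∫⁻ y in Icc 1 Y, f y * ENNReal.ofReal (Real.exp (-(y - t) ^ 2))
    with hR
  have hprod : AEMeasurable (fun p : ℝ × ℝ => f p.2 * ENNReal.ofReal (Real.exp (-(p.2 - p.1) ^ 2)))
      ((volume.restrict (Icc T (2 * T))).prod (volume.restrict (Icc 1 Y))) :=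
    AEMeasurable.mul hfm.comp_snd (by fun_prop)
  have hRm : AEMeasurable R (volume.restrict (Icc T (2 * T))) := hprod.lintegral_prod_right'
  set S : ℝ → ENNReal := fun t => ENNReal.ofReal C + ENNReal.ofReal C * R t with hS
  have hSm : AEMeasurable S (volume.restrict (Icc T (2 * T))) :=
    aemeasurable_const.add (hRm.const_mul _)
  -- the large values
  have hsub : {t : ℝ | t ∈ Icc T (2 * T) ∧ ∃ σ : ℝ, α + κ ≤ σ ∧ σ ≤ σ₁ ∧
      t ^ ε < ‖FF a w c ((σ : ℂ) + t * I)‖} ⊆
      {t | ENNReal.ofReal (T ^ (2 * ε)) ≤ S t} ∩ Icc T (2 * T) := by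
    rintro t ⟨ht, σ, hσ, hσ1, hbig⟩
    refine ⟨?_, ht⟩
    have ht2 : 2 ≤ t := hT.trans ht.1
    have ht0 : 0 < t := by linarith
    have h1 := hcb σ t hσ hσ1 ht2
    have h2 : T ^ (2 * ε) ≤ ‖FF a w c ((σ : ℂ) + t * I)‖ ^ 2 := by
      calc T ^ (2 * ε) ≤ t ^ (2 * ε) := Real.rpow_le_rpow hT0.le ht.1 (by linarith)
        _ = (t ^ ε) ^ 2 := by
            rw [← Real.rpow_natCast, ← Real.rpow_mul ht0.le]
            congr 1
            push_cast
            ring
        _ ≤ _ := by gcongr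
    set J : ℝ := ∫ y in (1 : ℝ)..(2 * t + 12),
        ‖FF a w c ((α : ℂ) + y * I)‖ ^ 2 * Real.exp (-(y - t) ^ 2) with hJ
    have h3 : ENNReal.ofReal J ≤ R t := by
      have h4 : J ≤ (∫⁻ y in Ioc 1 (2 * t + 12),
          ENNReal.ofReal ‖‖FF a w c ((α : ℂ) + y * I)‖ ^ 2 * Real.exp (-(y - t) ^ 2)‖).toReal := by
        rw [hJ, intervalIntegral.integral_of_le (by linarith)]
        refine (le_abs_self _).trans ?_
        rw [← Real.norm_eq_abs]
        exact norm_integral_le_lintegral_norm _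
      refine (ENNReal.ofReal_le_ofReal h4).trans (ENNReal.ofReal_toReal_le.trans ?_)
      have h5 : Ioc 1 (2 * t + 12) ⊆ Icc 1 Y := by
        intro y hy
        have := ht.2
        exact ⟨hy.1.le, by rw [hY]; linarith [hy.2]⟩
      refine (lintegral_mono_set h5).trans (lintegral_mono fun y => ?_)
      rw [Real.norm_of_nonneg (by positivity), ENNReal.ofReal_mul (by positivity),
        ENNReal.ofReal_pow (norm_nonneg _), ofReal_norm]
    have hJ0 : 0 ≤ J := intervalIntegral.integral_nonneg (by linarith) fun y _ => by positivity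
    calc ENNReal.ofReal (T ^ (2 * ε)) ≤ ENNReal.ofReal (C * (1 + J)) :=
          ENNReal.ofReal_le_ofReal (h2.trans h1)
      _ = ENNReal.ofReal C + ENNReal.ofReal C * ENNReal.ofReal J := by
          rw [mul_add, mul_one, ENNReal.ofReal_add hC (by positivity), ENNReal.ofReal_mul hC]
      _ ≤ S t := by
          simp only [hS]
          gcongr
  have hint : ∫⁻ t in Icc T (2 * T), S t ≤ ENNReal.ofReal (D * T ^ τ) := by
    have h1 : ∫⁻ t in Icc T (2 * T), R t ≤
        ENNReal.ofReal (Real.sqrt Real.pi * (C₀ * Y ^ τ)) := by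
      calc ∫⁻ t in Icc T (2 * T), R t
          = ∫⁻ y in Icc 1 Y, ∫⁻ t in Icc T (2 * T),
            f y * ENNReal.ofReal (Real.exp (-(y - t) ^ 2)) :=
            lintegral_lintegral_swap hprod
        _ ≤ ∫⁻ y in Icc 1 Y, f y * ENNReal.ofReal (Real.sqrt Real.pi) := by
            refine lintegral_mono fun y => ?_
            have h2 : Measurable fun t : ℝ => ENNReal.ofReal (Real.exp (-(y - t) ^ 2)) := by
              fun_prop
            rw [lintegral_const_mul _ h2, ← gauss_lint y]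
            gcongr
            exact Measure.restrict_le_self
        _ = (∫⁻ y in Icc 1 Y, f y) * ENNReal.ofReal (Real.sqrt Real.pi) :=
            lintegral_mul_const' _ _ ENNReal.ofReal_ne_top
        _ ≤ ENNReal.ofReal (C₀ * Y ^ τ) * ENNReal.ofReal (Real.sqrt Real.pi) := by
            gcongr
            exact h Y (by rw [hY]; linarith)
        _ = _ := by
            rw [← ENNReal.ofReal_mul (by positivity), mul_comm]
    have h2 : Y ^ τ ≤ 10 ^ τ * T ^ τ := by
      rw [← Real.mul_rpow (by norm_num) hT0.le]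
      exact Real.rpow_le_rpow (by positivity) (by rw [hY]; linarith) (by linarith)
    have h3 : T ≤ T ^ τ := by
      calc T = T ^ (1 : ℝ) := (Real.rpow_one T).symm
        _ ≤ T ^ τ := Real.rpow_le_rpow_of_exponent_le (by linarith) hτ
    calc ∫⁻ t in Icc T (2 * T), S t
        = ENNReal.ofReal C * ENNReal.ofReal T + ENNReal.ofReal C * ∫⁻ t in Icc T (2 * T), R t := by
          simp only [hS]
          rw [lintegral_add_left' aemeasurable_const, lintegral_const,
            Measure.restrict_apply_univ, Real.volume_Icc,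
            lintegral_const_mul' _ _ ENNReal.ofReal_ne_top]
          congr 3
          ring
      _ ≤ ENNReal.ofReal C * ENNReal.ofReal (T ^ τ) +
          ENNReal.ofReal C * ENNReal.ofReal (Real.sqrt Real.pi * (C₀ * (10 ^ τ * T ^ τ))) := by
          gcongr
          refine h1.trans (ENNReal.ofReal_le_ofReal ?_)
          gcongr
      _ = _ := by
          rw [← ENNReal.ofReal_mul hC, ← ENNReal.ofReal_mul hC,
            ← ENNReal.ofReal_add (by positivity) (by positivity)]
          congr 1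
          rw [hD]
          ring
  have hmark := mul_meas_ge_le_lintegral₀ hSm (ENNReal.ofReal (T ^ (2 * ε)))
  have hpos : 0 < T ^ (2 * ε) := Real.rpow_pos_of_pos hT0 _
  set B := {t : ℝ | t ∈ Icc T (2 * T) ∧ ∃ σ : ℝ, α + κ ≤ σ ∧ σ ≤ σ₁ ∧
      t ^ ε < ‖FF a w c ((σ : ℂ) + t * I)‖} with hB
  have hvol : volume B ≤ (volume.restrict (Icc T (2 * T)))
      {t | ENNReal.ofReal (T ^ (2 * ε)) ≤ S t} := by
    refine (measure_mono hsub).trans ?_
    exact Measure.le_restrict_apply _ _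
  have hkey : ENNReal.ofReal (T ^ (2 * ε)) * volume B ≤ ENNReal.ofReal (D * T ^ τ) :=
    (mul_le_mul_right hvol _).trans (hmark.trans hint)
  have e1 : ENNReal.ofReal (D * T ^ (τ - 2 * ε)) =
      ENNReal.ofReal ((T ^ (2 * ε))⁻¹) * ENNReal.ofReal (D * T ^ τ) := by
    rw [← ENNReal.ofReal_mul (by positivity)]
    congr 1
    rw [Real.rpow_sub hT0]
    field_simp
  rw [e1]
  calc volume B = ENNReal.ofReal ((T ^ (2 * ε))⁻¹) * (ENNReal.ofReal (T ^ (2 * ε)) * volume B) := by
        rw [← mul_assoc, ← ENNReal.ofReal_mul (by positivity), inv_mul_cancel₀ hpos.ne',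
          ENNReal.ofReal_one, one_mul]
    _ ≤ _ := by gcongr

end Pool.Agent.Y616.BM
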