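import Pool.Agent.Y616.BM.Lin2
import Pool.Agent.Y616.BM.Pt3

set_option autoImplicit false

/-!
# Barnes zeta functions for almost all weights, part 18: pointwise bounds
-/

namespace Pool.Agent.Y616.BM

open Finset Filter Topology MeasureTheory Complex Set FourierTransform
open Pool.Agent.H131R5.BZ Pool.Agent.Y930.Bz

variable {r : ℕ} {a : ℝ} {w : Fin r → ℝ} {c : ℕ → ℂ}

/-- the integral of the regularised kernel -/
theorem S_le1 {b : ℕ → ℂ} {ρ C₀ : ℝ} (hρ : 0 < ρ)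
    (hρ1 : ρ ≤ 1) (hC₀ : 0 ≤ C₀) (h0 : ∀ z : ℂ, z ≠ 0 → ‖z‖ ≤ ρ → ‖Kt a w b z‖ ≤ C₀) {σ : ℝ}
    (hσ : 0 < σ) :
    ∃ C : ℝ, 0 ≤ C ∧ ∀ η : ℝ, 0 < η → η ≤ 1 →
      ∫⁻ u, ‖kth a w b σ (Real.pi / 2 - η) u‖ₑ ≤
        ENNReal.ofReal (C * η ^ (-σ)) + JL a w σ (-Real.log ρ) η := by
  obtain ⟨C₁, hC₁, hP⟩ := Pol_le r b hρ
  obtain ⟨G, hG0, hG⟩ := gf_lint_scale (σ := σ) (c := 1 / 2) hσ (by norm_num)
  set K : ℝ := C₀ * Real.exp 1 + C₁ with hK
  refine ⟨K * G, by positivity, fun η hη hη1 => ?_⟩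
  set θ : ℝ := Real.pi / 2 - η with hθ
  have hpt : ∀ u : ℝ, ‖kth a w b σ θ u‖ₑ ≤ ENNReal.ofReal (K * gf σ (1 / 2 * η) u) +
      (Iic (-Real.log ρ)).indicator (fun u : ℝ => ‖KK a w (zr u η)‖ₑ *
        ENNReal.ofReal (Real.exp (-σ * u))) u := by
    intro u
    set z : ℂ := cexp (-(u : ℂ) + (θ : ℂ) * I) with hz
    have hz0 : z ≠ 0 := Complex.exp_ne_zero _
    have hzn : ‖z‖ = Real.exp (-u) := exp_norm u θ
    have hzr : z.re = Real.exp (-u) * Real.sin η := by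
      rw [hz, exp_re, hθ, Real.cos_pi_div_two_sub]
    have hk : ‖kth a w b σ θ u‖ₑ = ENNReal.ofReal (Real.exp (-σ * u)) * ‖Kt a w b z‖ₑ := by
      unfold kth
      rw [enorm_smul]
      congr 1
      rw [Real.enorm_eq_ofReal (Real.exp_pos _).le]
    rw [hk]
    have he : 0 < Real.exp (-σ * u) := Real.exp_pos _
    by_cases hu : u ≤ -Real.log ρ
    · rw [Set.indicator_of_mem (show u ∈ Iic (-Real.log ρ) from hu)]
      have h1 : ρ ≤ ‖z‖ := by
        rw [hzn]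
        calc ρ = Real.exp (Real.log ρ) := (Real.exp_log hρ).symm
          _ ≤ Real.exp (-u) := Real.exp_le_exp.2 (by linarith)
      have h2 := hP z h1
      have h3 : ‖Kt a w b z‖ₑ ≤ ‖KK a w z‖ₑ + ‖Pol r b z‖ₑ := enorm_sub_le
      have h4 : ENNReal.ofReal (Real.exp (-σ * u)) * ‖Pol r b z‖ₑ ≤
          ENNReal.ofReal (K * gf σ (1 / 2 * η) u) := by
        rw [← ofReal_norm, ← ENNReal.ofReal_mul he.le]
        apply ENNReal.ofReal_le_ofReal
        have h6 : ‖Pol r b z‖ ≤ C₁ * Real.exp (-(1 / 2 * η) * Real.exp (-u)) := by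
          refine h2.trans (mul_le_mul_of_nonneg_left ?_ hC₁)
          apply Real.exp_le_exp.2
          rw [hzr]
          have h7 := sin_ge hη.le hη1
          have h8 := Real.exp_pos (-u)
          nlinarith
        unfold gf
        calc Real.exp (-σ * u) * ‖Pol r b z‖
            ≤ Real.exp (-σ * u) * (C₁ * Real.exp (-(1 / 2 * η) * Real.exp (-u))) := by
              gcongr
          _ = C₁ * (Real.exp (-(1 / 2 * η) * Real.exp (-u)) * Real.exp (-σ * u)) := by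
              ring
          _ ≤ _ := by
              refine mul_le_mul_of_nonneg_right ?_ (by positivity)
              rw [hK]
              have : 0 ≤ C₀ * Real.exp 1 := by positivity
              linarith
      calc _ ≤ ENNReal.ofReal (Real.exp (-σ * u)) * (‖KK a w z‖ₑ + ‖Pol r b z‖ₑ) := by gcongr
        _ = ENNReal.ofReal (Real.exp (-σ * u)) * ‖Pol r b z‖ₑ +
            ‖KK a w z‖ₑ * ENNReal.ofReal (Real.exp (-σ * u)) := by ring
        _ ≤ _ := by
            gcongr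
            rfl
    · rw [Set.indicator_of_notMem (show u ∉ Iic (-Real.log ρ) from hu), add_zero]
      have hu' : -Real.log ρ < u := lt_of_not_ge hu
      have h1 : ‖z‖ ≤ ρ := by
        rw [hzn]
        calc Real.exp (-u) ≤ Real.exp (Real.log ρ) := Real.exp_le_exp.2 (by linarith)
          _ = ρ := Real.exp_log hρ
      have h2 := h0 z hz0 h1
      rw [← ofReal_norm, ← ENNReal.ofReal_mul he.le]
      apply ENNReal.ofReal_le_ofReal
      have h7 : 1 ≤ Real.exp 1 * Real.exp (-(1 / 2 * η) * Real.exp (-u)) := by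
        rw [← Real.exp_add]
        apply Real.one_le_exp
        have h8 : Real.exp (-u) ≤ 1 := by rw [← hzn]; linarith
        have h9 := Real.exp_pos (-u)
        nlinarith
      unfold gf
      calc Real.exp (-σ * u) * ‖Kt a w b z‖
          ≤ Real.exp (-σ * u) * (C₀ * 1) := by rw [mul_one]; gcongr
        _ ≤ Real.exp (-σ * u) *
            (C₀ * (Real.exp 1 * Real.exp (-(1 / 2 * η) * Real.exp (-u)))) := by gcongr
        _ = (C₀ * Real.exp 1) *
            (Real.exp (-(1 / 2 * η) * Real.exp (-u)) * Real.exp (-σ * u)) := by ring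
        _ ≤ _ := by
            refine mul_le_mul_of_nonneg_right ?_ (by positivity)
            rw [hK]
            linarith
  have hK0 : 0 ≤ K := by positivity
  calc _ ≤ ∫⁻ u, (ENNReal.ofReal (K * gf σ (1 / 2 * η) u) +
      (Iic (-Real.log ρ)).indicator (fun u : ℝ => ‖KK a w (zr u η)‖ₑ *
        ENNReal.ofReal (Real.exp (-σ * u))) u) := lintegral_mono hpt
    _ = _ := by
        rw [lintegral_add_left (by
          exact ((gf_cont σ (1 / 2 * η)).measurable.const_mul K).ennreal_ofReal),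
          lintegral_indicator measurableSet_Iic]
        congr 1
        have h1 : ∀ u, ENNReal.ofReal (K * gf σ (1 / 2 * η) u) =
            ENNReal.ofReal K * ENNReal.ofReal (gf σ (1 / 2 * η) u) := fun u =>
          ENNReal.ofReal_mul hK0
        simp only [h1]
        rw [lintegral_const_mul _ (gf_cont _ _).measurable.ennreal_ofReal, hG η hη,
          ← ENNReal.ofReal_mul hK0]
        congr 1
        ring

/-- the pointwise bound on a dyadic interval -/
theorem zone1 (ha : 0 < a) (hw : ∀ j, 0 < w j) (hc : Tay a w c) {σ : ℝ} (hσ : 0 < σ) :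
    ∃ C U : ℝ, 0 ≤ C ∧ ∀ T : ℝ, 1 ≤ T → ∀ t ∈ Icc T (2 * T),
      ‖FF a w c ((σ : ℂ) + t * I)‖ₑ ≤
        ENNReal.ofReal (C * T ^ (1 / 2 : ℝ)) +
          ENNReal.ofReal (C * T ^ (1 / 2 - σ)) * JL a w σ U (1 / T) := by
  obtain ⟨b, ρ, C₀, hρ, hρ1, hC₀, h0⟩ := exists_near a hw
  obtain ⟨g, hg, hG⟩ := Gamma_lower_line hσ
  obtain ⟨C₂, hC₂, h2⟩ := S_le1 hρ hρ1 hC₀ h0 hσ
  set B := ∑ k ∈ range r, ‖b k‖ with hB
  have hB0 : 0 ≤ B := by positivity
  set C₁ : ℝ := g⁻¹ * 2 * Real.exp 2 with hC₁def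
  have hC₁ : 0 ≤ C₁ := by positivity
  refine ⟨C₁ * C₂ + B + C₁, -Real.log ρ, by positivity, fun T hT t ht => ?_⟩
  have hT0 : 0 < T := by linarith
  have hη0 : 0 < 1 / T := by positivity
  have hη1 : 1 / T ≤ 1 := by rw [div_le_one hT0]; exact hT
  have h4 := h2 (1 / T) hη0 hη1
  set J := JL a w σ (-Real.log ρ) (1 / T) with hJ
  set θ := Real.pi / 2 - 1 / T with hθ
  have hθ0 : 0 ≤ θ := by
    have := Real.pi_gt_three
    linarith
  have hθ1 : θ < Real.pi / 2 := by linarith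
  have ht1 : 1 ≤ t := hT.trans ht.1
  have ht0 : 0 < t := by linarith
  have h1 := hG t ht1
  have h3 := mellin_rot ha hw hρ hρ1 h0 hθ0 hθ1 (s := (σ : ℂ) + t * I) (by simpa using hσ)
  have e3 : ((σ : ℂ) + t * I).re = σ := by simp
  have e4 : ((σ : ℂ) + t * I).im = t := by simp
  rw [e3, e4] at h3
  set A : ℝ := C₁ * T ^ (1 / 2 - σ) with hA
  have hA0 : 0 ≤ A := by positivity
  have hfour : ‖𝓕 (kth a w b σ θ) (t / (2 * Real.pi))‖ₑ ≤ ∫⁻ u, ‖kth a w b σ θ u‖ₑ := by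
    rw [Real.fourier_real_eq_integral_exp_smul]
    refine (enorm_integral_le_lintegral_enorm _).trans ?_
    refine lintegral_mono fun u => ?_
    rw [enorm_smul]
    have e5 : ‖cexp (((-2 * Real.pi * u * (t / (2 * Real.pi)) : ℝ) : ℂ) * I)‖ₑ = 1 := by
      rw [← ofReal_norm, Complex.norm_exp_ofReal_mul_I, ENNReal.ofReal_one]
    rw [e5, one_mul]
  have h6 : ‖(Gamma ((σ : ℂ) + t * I))⁻¹ *
      mellin (fun t : ℝ => Kt a w b t) ((σ : ℂ) + t * I)‖ₑ ≤
      ENNReal.ofReal A * ∫⁻ u, ‖kth a w b σ θ u‖ₑ := by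
    rw [h3, ← mul_assoc, enorm_mul]
    refine mul_le_mul' ?_ hfour
    rw [← ofReal_norm]
    apply ENNReal.ofReal_le_ofReal
    rw [norm_mul, norm_inv]
    have h7 : ‖cexp (((σ : ℂ) + t * I) * (θ * I))‖ = Real.exp (-(θ * t)) := by
      rw [Complex.norm_exp]
      congr 1
      simp
      ring
    have h8 : 0 < g * t ^ (σ - 1 / 2) * Real.exp (-(Real.pi / 2 * t)) := by positivity
    have h9 : ‖Gamma ((σ : ℂ) + t * I)‖⁻¹ ≤
        (g * t ^ (σ - 1 / 2) * Real.exp (-(Real.pi / 2 * t)))⁻¹ := inv_anti₀ h8 h1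
    have h10 : (g * t ^ (σ - 1 / 2) * Real.exp (-(Real.pi / 2 * t)))⁻¹ =
        g⁻¹ * t ^ (1 / 2 - σ) * Real.exp (Real.pi / 2 * t) := by
      rw [mul_inv, mul_inv, Real.exp_neg, inv_inv, ← Real.rpow_neg ht0.le]
      congr 3
      ring
    have h11 : t ^ (1 / 2 - σ) ≤ 2 * T ^ (1 / 2 - σ) := by
      have hTp : 0 < T ^ (1 / 2 - σ) := by positivity
      rcases le_total (1 / 2) σ with h | h
      · have := Real.rpow_le_rpow_of_nonpos hT0 ht.1 (show 1 / 2 - σ ≤ 0 by linarith)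
        linarith
      · calc t ^ (1 / 2 - σ) ≤ (2 * T) ^ (1 / 2 - σ) :=
              Real.rpow_le_rpow ht0.le ht.2 (by linarith)
          _ = 2 ^ (1 / 2 - σ) * T ^ (1 / 2 - σ) := Real.mul_rpow (by norm_num) hT0.le
          _ ≤ 2 ^ (1 : ℝ) * T ^ (1 / 2 - σ) := by
              gcongr
              · norm_num
              · linarith
          _ = _ := by rw [Real.rpow_one]
    have h12 : Real.exp (Real.pi / 2 * t) * Real.exp (-(θ * t)) ≤ Real.exp 2 := by
      rw [← Real.exp_add, Real.exp_le_exp]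
      have h13 : Real.pi / 2 * t + -(θ * t) = t / T := by rw [hθ]; ring
      rw [h13, div_le_iff₀ hT0]
      exact ht.2
    rw [h7]
    calc ‖Gamma ((σ : ℂ) + t * I)‖⁻¹ * Real.exp (-(θ * t))
        ≤ (g⁻¹ * t ^ (1 / 2 - σ) * Real.exp (Real.pi / 2 * t)) * Real.exp (-(θ * t)) := by
          rw [← h10]; gcongr
      _ = g⁻¹ * t ^ (1 / 2 - σ) * (Real.exp (Real.pi / 2 * t) * Real.exp (-(θ * t))) := by ring
      _ ≤ g⁻¹ * (2 * T ^ (1 / 2 - σ)) * Real.exp 2 := by gcongr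
      _ = A := by rw [hA, hC₁def]; ring
  rw [FF_formula ha hw hc hρ hρ1 h0 (s := (σ : ℂ) + t * I) (by simpa using hσ)
    (by simp; linarith)]
  have h5 := Rt_le (r := r) b (s := (σ : ℂ) + t * I) (by simpa using ht1)
  have h7 : ‖Rt r b ((σ : ℂ) + t * I)‖ₑ ≤ ENNReal.ofReal (B * T ^ (1 / 2 : ℝ)) := by
    rw [← ofReal_norm]
    apply ENNReal.ofReal_le_ofReal
    have : 1 ≤ T ^ (1 / 2 : ℝ) := Real.one_le_rpow hT (by norm_num)
    nlinarith
  calc _ ≤ ‖(Gamma ((σ : ℂ) + t * I))⁻¹ *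
        mellin (fun t : ℝ => Kt a w b t) ((σ : ℂ) + t * I)‖ₑ + ‖Rt r b ((σ : ℂ) + t * I)‖ₑ :=
        enorm_add_le _ _
    _ ≤ ENNReal.ofReal A * (ENNReal.ofReal (C₂ * (1 / T) ^ (-σ)) + J) +
        ENNReal.ofReal (B * T ^ (1 / 2 : ℝ)) := by
        gcongr
        exact h6.trans (by gcongr)
    _ = ENNReal.ofReal ((C₁ * C₂ + B) * T ^ (1 / 2 : ℝ)) +
        ENNReal.ofReal (C₁ * T ^ (1 / 2 - σ)) * J := by
        have e1 : T ^ (1 / 2 - σ) * (1 / T) ^ (-σ) = T ^ (1 / 2 : ℝ) := by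
          rw [one_div T, Real.inv_rpow hT0.le, ← Real.rpow_neg hT0.le, ← Real.rpow_add hT0]
          congr 1
          ring
        have e2 : A * (C₂ * (1 / T) ^ (-σ)) = C₁ * C₂ * T ^ (1 / 2 : ℝ) := by
          rw [hA, ← e1]
          ring
        rw [mul_add, ← ENNReal.ofReal_mul hA0, e2, add_mul,
          ENNReal.ofReal_add (by positivity) (by positivity), hA]
        ring
    _ ≤ _ := by
        have k1 : 0 ≤ C₁ * C₂ + B := by positivity
        refine add_le_add (ENNReal.ofReal_le_ofReal ?_) (mul_le_mul_left ?_ _)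
        · have : 0 ≤ T ^ (1 / 2 : ℝ) := by positivity
          nlinarith
        · apply ENNReal.ofReal_le_ofReal
          have : 0 ≤ T ^ (1 / 2 - σ) := by positivity
          nlinarith

/-- the bound on a vertical line for good parameters -/
theorem line_bound {d : ℕ} {v : Fin d → ℝ} (hv : LinearIndependent ℚ v)
    (hG : Goo v) {r : ℕ} {a : ℝ} (ha : 0 < a) {w : Fin r → ℝ} (hw : ∀ j, 0 < w j)
    (hspan : Submodule.span ℚ (range w) = Submodule.span ℚ (range v)) {c : ℕ → ℂ}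
    (hc : Tay a w c) {σ : ℝ} (hσ0 : 0 < σ) (hσ : (r : ℝ) - d < σ) {ε : ℝ} (hε : 0 < ε) :
    ∃ C : ℝ, 0 ≤ C ∧ ∀ t : ℝ, 1 ≤ t → ‖FF a w c ((σ : ℂ) + t * I)‖ ≤ C * t ^ (1 / 2 + ε) := by
  obtain ⟨B, e, he, hdet, hwB⟩ := lin hv hspan
  obtain ⟨C₁, U₀, hC₁, hz⟩ := zone1 ha hw hc hσ0
  -- parameters
  obtain ⟨U, hU⟩ := exists_nat_ge U₀
  obtain ⟨K, hK⟩ := exists_nat_ge (2 / ε)
  obtain ⟨σ', hσ'1, hσ'2⟩ := exists_rat_btwn (show σ < σ + ε / 2 by linarith)
  obtain ⟨N, hN⟩ : ∃ N : ℕ, 1 / ((N : ℝ) + 1) ≤ a ∧ ∀ j, 1 / ((N : ℝ) + 1) ≤ w j ∧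
      w j ≤ (N : ℝ) + 1 := by
    obtain ⟨N, hN⟩ := exists_nat_ge (1 / a + ∑ j, (1 / w j + w j))
    refine ⟨N, ?_, fun j => ?_⟩
    · have h1 : 1 / a ≤ (N : ℝ) + 1 := by
        have : 0 ≤ ∑ j, (1 / w j + w j) :=
          Finset.sum_nonneg fun j _ => by have := hw j; positivity
        linarith
      rw [div_le_iff₀ (by positivity)]
      rw [div_le_iff₀ ha] at h1
      linarith
    · have h2 : 1 / w j + w j ≤ ∑ j, (1 / w j + w j) :=
        Finset.single_le_sum (f := fun j => 1 / w j + w j)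
          (fun j _ => by have := hw j; positivity) (Finset.mem_univ j)
      have h3 : 0 < 1 / a := by positivity
      have hwj := hw j
      have h4 : 0 < 1 / w j := by positivity
      constructor
      · have h1 : 1 / w j ≤ (N : ℝ) + 1 := by linarith
        rw [div_le_iff₀ (by positivity)]
        rw [div_le_iff₀ hwj] at h1
        linarith
      · linarith
  obtain ⟨C₂, hC₂, hJ⟩ := hG r B e N U K σ' he hdet (hσ.trans hσ'1) (by
    intro j
    rw [← hwB]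
    exact hN.2 j)
  rw [← hwB] at hJ
  set E : ℝ := Real.exp (((σ' : ℝ) - σ) * U) with hE
  have hE0 : 0 < E := Real.exp_pos _
  have hK' : 1 / ((K : ℝ) + 1) ≤ ε / 2 := by
    rw [div_le_iff₀ hε] at hK
    rw [div_le_iff₀ (by positivity)]
    nlinarith
  refine ⟨C₁ + C₁ * E * C₂, by positivity, fun t ht => ?_⟩
  obtain ⟨n, hn1, hn2⟩ := exists_nat_pow_near ht (one_lt_two)
  set T : ℝ := (2 : ℝ) ^ n with hT
  have hT1 : 1 ≤ T := one_le_pow₀ (by norm_num)
  have hT0 : 0 < T := by positivity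
  have htT : t ∈ Icc T (2 * T) := ⟨hn1, by rw [pow_succ] at hn2; linarith⟩
  have h1 : (1 : ℝ) / T = (1 / 2) ^ n := by rw [hT, one_div_pow]
  have h2 := hz T hT1 t htT
  have hη0 : 0 < 1 / T := by positivity
  have hη1 : 1 / T ≤ 1 := by rw [div_le_one hT0]; exact hT1
  have h3 := JL_mono (w := w) (σ := σ) (σ' := (σ' : ℝ)) hN.1 hσ'1.le hU hη0 hη1
  have h4 := hJ n
  rw [← h1] at h4
  have h5 : ‖FF a w c ((σ : ℂ) + t * I)‖ₑ ≤
      ENNReal.ofReal ((C₁ + C₁ * E * C₂) * T ^ (1 / 2 + ε)) := by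
    calc _ ≤ _ := h2
      _ ≤ ENNReal.ofReal (C₁ * T ^ (1 / 2 : ℝ)) + ENNReal.ofReal (C₁ * T ^ (1 / 2 - σ)) *
          (ENNReal.ofReal E * ENNReal.ofReal (C₂ * T ^ ((σ' : ℝ) + 1 / (K + 1)))) := by
          gcongr
          exact h3.trans (by gcongr)
      _ = ENNReal.ofReal (C₁ * T ^ (1 / 2 : ℝ) + C₁ * E * C₂ *
          T ^ ((1 / 2 - σ) + ((σ' : ℝ) + 1 / (K + 1)))) := by
          have e1 : T ^ ((1 / 2 - σ) + ((σ' : ℝ) + 1 / (K + 1))) =
              T ^ (1 / 2 - σ) * T ^ ((σ' : ℝ) + 1 / (K + 1)) := Real.rpow_add hT0 _ _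
          rw [← ENNReal.ofReal_mul hE0.le, ← ENNReal.ofReal_mul (by positivity),
            ← ENNReal.ofReal_add (by positivity) (by positivity), e1]
          congr 1
          ring
      _ ≤ _ := by
          apply ENNReal.ofReal_le_ofReal
          have h5 : T ^ (1 / 2 : ℝ) ≤ T ^ (1 / 2 + ε) :=
            Real.rpow_le_rpow_of_exponent_le hT1 (by linarith)
          have h6 : T ^ ((1 / 2 - σ) + ((σ' : ℝ) + 1 / (K + 1))) ≤ T ^ (1 / 2 + ε) := by
            apply Real.rpow_le_rpow_of_exponent_le hT1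
            linarith
          have h7 : 0 ≤ C₁ * E * C₂ := by positivity
          calc _ ≤ C₁ * T ^ (1 / 2 + ε) + C₁ * E * C₂ * T ^ (1 / 2 + ε) := by gcongr
            _ = _ := by ring
  rw [← ofReal_norm] at h5
  have h6 := (ENNReal.ofReal_le_ofReal_iff (by positivity)).1 h5
  refine h6.trans ?_
  have h7 : T ^ (1 / 2 + ε) ≤ t ^ (1 / 2 + ε) :=
    Real.rpow_le_rpow hT0.le hn1 (by linarith)
  gcongr

end Pool.Agent.Y616.BM
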