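import Pool.Agent.Y616.BM.Pt

set_option autoImplicit false

/-!
# Barnes zeta functions for almost all weights, part 13: pointwise bounds for good parameters
-/

namespace Pool.Agent.Y616.BM

open Finset Filter Topology MeasureTheory Complex Set Asymptotics
open Pool.Agent.H131R5.BZ Pool.Agent.Y930.Bz

/-- the second moment of the continuation for good parameters, also to the left of `r - d/2` -/
theorem second_moment' {d : ℕ} {v : Fin d → ℝ} (hv : LinearIndependent ℚ v)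
    (hG : Good v) {r : ℕ} {a : ℝ} (ha : 0 < a) {w : Fin r → ℝ} (hw : ∀ j, 0 < w j)
    (hspan : Submodule.span ℚ (range w) = Submodule.span ℚ (range v)) {c : ℕ → ℂ}
    (hc : Tay a w c) {σ m : ℝ} (hσ2 : 1 / 2 ≤ σ) (hσm : σ ≤ m) (hm : (r : ℝ) - d / 2 ≤ m)
    {ε : ℝ} (hε : 0 < ε) :
    ∃ C : ℝ, 0 ≤ C ∧ ∀ T : ℝ, 1 ≤ T → ∫⁻ t in Icc 1 T, ‖FF a w c ((σ : ℂ) + t * I)‖ₑ ^ 2 ≤
      ENNReal.ofReal (C * T ^ (1 + 2 * (m - σ) + ε)) := by
  obtain ⟨B, e, he, hdet, hwB⟩ := lin hv hspan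
  obtain ⟨C₁, U₀, hC₁, hz⟩ := zone ha hw hc hσ2
  -- parameters
  obtain ⟨U, hU⟩ := exists_nat_ge U₀
  obtain ⟨K, hK⟩ := exists_nat_ge (2 / ε)
  obtain ⟨σ', hσ'1, hσ'2⟩ := exists_rat_btwn (show m < m + ε / 4 by linarith)
  obtain ⟨N, hN⟩ : ∃ N : ℕ, 1 / ((N : ℝ) + 1) ≤ a ∧ ∀ j, 1 / ((N : ℝ) + 1) ≤ w j ∧
      w j ≤ (N : ℝ) + 1 := by
    obtain ⟨N, hN⟩ := exists_nat_ge (1 / a + ∑ j, (1 / w j + w j))
    refine ⟨N, ?_, fun j => ?_⟩
    · have h1 : 1 / a ≤ (N : ℝ) + 1 := by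
        have : 0 ≤ ∑ j, (1 / w j + w j) :=
          Finset.sum_nonneg fun j _ => by have := hw j; positivity
        linarith
      rw [div_le_iff₀ (by positivity)]
      rw [div_le_iff₀ ha] at h1
      linarith
    · have h2 : 1 / w j + w j ≤ ∑ j, (1 / w j + w j) :=
        Finset.single_le_sum (f := fun j => 1 / w j + w j)
          (fun j _ => by have := hw j; positivity) (Finset.mem_univ j)
      have h3 : 0 < 1 / a := by positivity
      have hwj := hw j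
      have h4 : 0 < 1 / w j := by positivity
      constructor
      · have h1 : 1 / w j ≤ (N : ℝ) + 1 := by linarith
        rw [div_le_iff₀ (by positivity)]
        rw [div_le_iff₀ hwj] at h1
        linarith
      · linarith
  obtain ⟨C₂, hC₂, hJ⟩ := hG r B e N U K σ' he hdet (hm.trans_lt hσ'1) (by
    intro j
    rw [← hwB]
    exact hN.2 j)
  rw [← hwB] at hJ
  set E : ℝ := Real.exp (2 * ((σ' : ℝ) - σ) * U) with hE
  have hE0 : 0 < E := Real.exp_pos _
  have hK' : 1 / ((K : ℝ) + 1) ≤ ε / 2 := by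
    rw [div_le_iff₀ hε] at hK
    rw [div_le_iff₀ (by positivity)]
    nlinarith
  have hpiece : ∀ n : ℕ, ∫⁻ t in Icc ((2 : ℝ) ^ n) (2 * 2 ^ n),
      ‖FF a w c ((σ : ℂ) + t * I)‖ₑ ^ 2 ≤
      ENNReal.ofReal ((C₁ + C₁ * E * C₂) * ((2 : ℝ) ^ n) ^ (1 + 2 * (m - σ) + ε)) := by
    intro n
    set T : ℝ := (2 : ℝ) ^ n with hT
    have hT1 : 1 ≤ T := one_le_pow₀ (by norm_num)
    have hT0 : 0 < T := by positivity
    have h1 : (1 : ℝ) / T = (1 / 2) ^ n := by rw [hT, one_div_pow]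
    have h2 := hz T hT1
    have hη0 : 0 < 1 / T := by positivity
    have hη1 : 1 / T ≤ 1 := by rw [div_le_one hT0]; exact hT1
    have h3 := JJ_mono (w := w) (σ := σ) (σ' := (σ' : ℝ)) hN.1 (hσm.trans hσ'1.le) hU hη0 hη1
    have h4 := hJ n
    rw [← h1] at h4
    calc _ ≤ _ := h2
      _ ≤ ENNReal.ofReal (C₁ * T) + ENNReal.ofReal (C₁ * T ^ (1 - 2 * σ)) *
          (ENNReal.ofReal E * ENNReal.ofReal (C₂ * T ^ (2 * (σ' : ℝ) + 1 / (K + 1)))) := by
          gcongr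
          exact h3.trans (by gcongr)
      _ = ENNReal.ofReal (C₁ * T + C₁ * E * C₂ *
          T ^ ((1 - 2 * σ) + (2 * (σ' : ℝ) + 1 / (K + 1)))) := by
          have e1 : T ^ ((1 - 2 * σ) + (2 * (σ' : ℝ) + 1 / (K + 1))) =
              T ^ (1 - 2 * σ) * T ^ (2 * (σ' : ℝ) + 1 / (K + 1)) := Real.rpow_add hT0 _ _
          rw [← ENNReal.ofReal_mul hE0.le, ← ENNReal.ofReal_mul (by positivity),
            ← ENNReal.ofReal_add (by positivity) (by positivity), e1]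
          congr 1
          ring
      _ ≤ _ := by
          apply ENNReal.ofReal_le_ofReal
          have h5 : T ≤ T ^ (1 + 2 * (m - σ) + ε) := by
            calc T = T ^ (1 : ℝ) := (Real.rpow_one T).symm
              _ ≤ T ^ (1 + 2 * (m - σ) + ε) :=
                Real.rpow_le_rpow_of_exponent_le hT1 (by linarith)
          have h6 : T ^ ((1 - 2 * σ) + (2 * (σ' : ℝ) + 1 / (K + 1))) ≤
              T ^ (1 + 2 * (m - σ) + ε) := by
            apply Real.rpow_le_rpow_of_exponent_le hT1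
            linarith
          have h7 : 0 ≤ C₁ * E * C₂ := by positivity
          calc _ ≤ C₁ * T ^ (1 + 2 * (m - σ) + ε) +
                C₁ * E * C₂ * T ^ (1 + 2 * (m - σ) + ε) := by gcongr
            _ = _ := by ring
  have hdy := dyadic (fun t : ℝ => ‖FF a w c ((σ : ℂ) + t * I)‖ₑ ^ 2)
    (C := C₁ + C₁ * E * C₂) (τ := 1 + 2 * (m - σ) + ε) (by positivity) (by linarith) hpiece
  refine ⟨(C₁ + C₁ * E * C₂) * 2 ^ (1 + 2 * (m - σ) + ε), by positivity, fun T hT => ?_⟩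
  obtain ⟨n, hn1, hn2⟩ := exists_nat_pow_near hT (one_lt_two)
  calc _ ≤ ∫⁻ t in Icc 1 ((2 : ℝ) ^ (n + 1)), ‖FF a w c ((σ : ℂ) + t * I)‖ₑ ^ 2 :=
        lintegral_mono_set (Icc_subset_Icc_right hn2.le)
    _ ≤ _ := hdy (n + 1)
    _ ≤ _ := by
        apply ENNReal.ofReal_le_ofReal
        have h1 : ((2 : ℝ) ^ (n + 1)) ^ (1 + 2 * (m - σ) + ε) ≤
            (T * 2) ^ (1 + 2 * (m - σ) + ε) := by
          apply Real.rpow_le_rpow (by positivity) _ (by linarith)
          rw [pow_succ]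
          linarith
        rw [Real.mul_rpow (by linarith) (by norm_num)] at h1
        have h2 : 0 ≤ C₁ + C₁ * E * C₂ := by positivity
        calc _ ≤ (C₁ + C₁ * E * C₂) *
              (T ^ (1 + 2 * (m - σ) + ε) * 2 ^ (1 + 2 * (m - σ) + ε)) := by gcongr
          _ = _ := by ring

end Pool.Agent.Y616.BM
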