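import Pool.Agent.Y616.BM.Rot
import Pool.Agent.Y616.BM.Gam
import Pool.Agent.Y616.BM.Form
import Pool.Agent.TH794.QD.Planch

set_option autoImplicit false

/-!
# Barnes zeta functions for almost all weights, part 5: the mean square by Plancherel's theorem
-/

namespace Pool.Agent.Y616.BM

open Finset Filter Topology MeasureTheory Complex Set FourierTransform
open Pool.Agent.H131R5.BZ Pool.Agent.Y930.Bz

/-- scaling of the majorant -/
lemma gf_scale (σ c : ℝ) {η : ℝ} (hη : 0 < η) :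
    ∫⁻ u, ENNReal.ofReal (gf σ (c * η) u) =
      ENNReal.ofReal (η ^ (-σ)) * ∫⁻ u, ENNReal.ofReal (gf σ c u) := by
  rw [← lintegral_add_right_eq_self (fun u => ENNReal.ofReal (gf σ (c * η) u)) (Real.log η),
    ← lintegral_const_mul _ ((gf_cont σ c).measurable.ennreal_ofReal)]
  refine lintegral_congr fun u => ?_
  rw [← ENNReal.ofReal_mul (Real.rpow_nonneg hη.le _)]
  congr 1
  unfold gf
  have h1 : Real.exp (-(u + Real.log η)) = Real.exp (-u) / η := by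
    rw [neg_add, Real.exp_add, Real.exp_neg (Real.log η), Real.exp_log hη, div_eq_mul_inv]
  have h2 : Real.exp (-σ * (u + Real.log η)) = η ^ (-σ) * Real.exp (-σ * u) := by
    rw [mul_add, Real.exp_add, Real.rpow_def_of_pos hη]
    rw [mul_comm (Real.log η)]
    ring
  rw [h1, h2]
  have h3 : -(c * η) * (Real.exp (-u) / η) = -c * Real.exp (-u) := by field_simp
  rw [h3]
  ring

lemma gf_lint {σ c : ℝ} (hσ : 0 < σ) (hc : 0 < c) :
    ∃ G : ℝ, 0 ≤ G ∧ ∫⁻ u, ENNReal.ofReal (gf σ c u) = ENNReal.ofReal G := by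
  refine ⟨∫ u, gf σ c u, integral_nonneg fun u => (gf_pos _ _ _).le, ?_⟩
  rw [ofReal_integral_eq_lintegral_ofReal (gf_int hσ hc) (ae_of_all _ fun u => (gf_pos _ _ _).le)]

lemma gf_lint_scale {σ c : ℝ} (hσ : 0 < σ) (hc : 0 < c) : ∃ G : ℝ, 0 ≤ G ∧ ∀ η : ℝ, 0 < η →
    ∫⁻ u, ENNReal.ofReal (gf σ (c * η) u) = ENNReal.ofReal (G * η ^ (-σ)) := by
  obtain ⟨G, hG, h⟩ := gf_lint hσ hc
  refine ⟨G, hG, fun η hη => ?_⟩
  rw [gf_scale σ c hη, h, ← ENNReal.ofReal_mul (Real.rpow_nonneg hη.le _), mul_comm]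

variable {r : ℕ} {a : ℝ} {w : Fin r → ℝ} {c : ℕ → ℂ}

lemma gf_mul (σ c u : ℝ) : gf σ c u ^ 2 = gf (2 * σ) (2 * c) u := by
  unfold gf
  rw [mul_pow, ← Real.exp_nat_mul, ← Real.exp_nat_mul]
  congr 2 <;> push_cast <;> ring

lemma kth_cont (hw : ∀ j, 0 < w j) (b : ℕ → ℂ) (σ : ℝ) {θ : ℝ} (hθ : 0 ≤ θ)
    (hθ1 : θ < Real.pi / 2) : Continuous (kth a w b σ θ) := by
  refine Continuous.smul (f := fun u : ℝ => Real.exp (-σ * u))
    (g := fun u : ℝ => Kt a w b (cexp (-(u : ℂ) + θ * I))) (by fun_prop)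
    (continuous_iff_continuousAt.2 fun u => ?_)
  have h1 : DifferentiableAt ℂ (Kt a w b) (cexp (-(u : ℂ) + θ * I)) := by
    apply Kt_diff hw
    rw [exp_re]
    exact mul_pos (Real.exp_pos _) (cos_pos' hθ hθ1)
  exact ContinuousAt.comp (g := Kt a w b) (f := fun u : ℝ => cexp (-(u : ℂ) + θ * I))
    h1.continuousAt (by fun_prop)

lemma kth_good (ha : 0 < a) (hw : ∀ j, 0 < w j) {b : ℕ → ℂ} {ρ C₀ : ℝ} (hρ : 0 < ρ)
    (hρ1 : ρ ≤ 1) (h0 : ∀ z : ℂ, z ≠ 0 → ‖z‖ ≤ ρ → ‖Kt a w b z‖ ≤ C₀) {θ : ℝ} (hθ : 0 ≤ θ)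
    (hθ1 : θ < Real.pi / 2) {σ : ℝ} (hσ : 0 < σ) :
    Integrable (kth a w b σ θ) ∧ MemLp (kth a w b σ θ) 2 := by
  obtain ⟨C, c, hC, hc, hsec⟩ := sector ha hw hρ hρ1 h0 hθ hθ1
  have hcont := kth_cont (a := a) hw b σ hθ hθ1
  have hb : ∀ u, ‖kth a w b σ θ u‖ ≤ C * gf σ c u := by
    intro u
    unfold kth
    rw [norm_smul, Real.norm_of_nonneg (Real.exp_pos _).le]
    have h1 := hsec u θ hθ le_rfl
    calc Real.exp (-σ * u) * ‖Kt a w b (cexp (-(u : ℂ) + θ * I))‖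
        ≤ Real.exp (-σ * u) * (C * Real.exp (-c * Real.exp (-u))) := by gcongr
      _ = _ := by unfold gf; ring
  refine ⟨Integrable.mono' ((gf_int hσ hc).const_mul C) hcont.aestronglyMeasurable
    (ae_of_all _ hb), ?_⟩
  rw [memLp_two_iff_integrable_sq_norm hcont.aestronglyMeasurable]
  refine Integrable.mono' ((gf_int (σ := 2 * σ) (c := 2 * c) (by positivity)
    (by positivity)).const_mul (C ^ 2)) (by fun_prop) (ae_of_all _ fun u => ?_)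
  rw [Real.norm_of_nonneg (by positivity), ← gf_mul, ← mul_pow]
  exact pow_le_pow_left₀ (norm_nonneg _) (hb u) 2

/-- the mean square of the Mellin part -/
theorem mellin_ms (ha : 0 < a) (hw : ∀ j, 0 < w j) {b : ℕ → ℂ} {ρ C₀ : ℝ} (hρ : 0 < ρ)
    (hρ1 : ρ ≤ 1) (h0 : ∀ z : ℂ, z ≠ 0 → ‖z‖ ≤ ρ → ‖Kt a w b z‖ ≤ C₀) {σ : ℝ}
    (hσ : 1 / 2 ≤ σ) : ∃ C : ℝ, 0 ≤ C ∧ ∀ T : ℝ, 1 ≤ T →
      ∫⁻ t in Icc T (2 * T), ‖(Gamma ((σ : ℂ) + t * I))⁻¹ *
        mellin (fun t : ℝ => Kt a w b t) ((σ : ℂ) + t * I)‖ₑ ^ 2 ≤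
      ENNReal.ofReal (C * T ^ (1 - 2 * σ)) *
        ∫⁻ u, ‖kth a w b σ (Real.pi / 2 - 1 / T) u‖ₑ ^ 2 := by
  have hσ0 : 0 < σ := by linarith
  obtain ⟨c, hc, hG⟩ := Gamma_lower_line hσ0
  refine ⟨(c⁻¹ * Real.exp 2) ^ 2 * (2 * Real.pi), by positivity, fun T hT => ?_⟩
  have hT0 : 0 < T := by linarith
  set θ := Real.pi / 2 - 1 / T with hθ
  have hTi : 1 / T ≤ 1 := by rw [div_le_one hT0]; exact hT
  have hTi0 : 0 < 1 / T := by positivity
  have hθ0 : 0 ≤ θ := by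
    have := Real.pi_gt_three
    linarith
  have hθ1 : θ < Real.pi / 2 := by linarith
  obtain ⟨k1, k2⟩ := kth_good ha hw hρ hρ1 h0 hθ0 hθ1 hσ0
  have hpl := Pool.Agent.TH794.QD.plancherel (kth a w b σ θ) k1 k2
  set A : ℝ := c⁻¹ * Real.exp 2 * T ^ (1 / 2 - σ) with hA
  have hA0 : 0 ≤ A := by positivity
  have hpt : ∀ t ∈ Icc T (2 * T), ‖(Gamma ((σ : ℂ) + t * I))⁻¹ *
      mellin (fun t : ℝ => Kt a w b t) ((σ : ℂ) + t * I)‖ₑ ^ 2 ≤
      ENNReal.ofReal (A ^ 2) * ‖𝓕 (kth a w b σ θ) ((2 * Real.pi)⁻¹ * t)‖ₑ ^ 2 := by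
    intro t ht
    have ht1 : 1 ≤ t := hT.trans ht.1
    have ht0 : 0 < t := by linarith
    have h1 := hG t ht1
    have h2 := mellin_rot ha hw hρ hρ1 h0 hθ0 hθ1 (s := (σ : ℂ) + t * I) (by simpa using hσ0)
    have h3 : ((σ : ℂ) + t * I).re = σ := by simp
    have h4 : ((σ : ℂ) + t * I).im = t := by simp
    rw [h3, h4] at h2
    have h5 : t / (2 * Real.pi) = (2 * Real.pi)⁻¹ * t := by rw [div_eq_inv_mul]
    rw [h5] at h2
    have h6 : ‖(Gamma ((σ : ℂ) + t * I))⁻¹ *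
        mellin (fun t : ℝ => Kt a w b t) ((σ : ℂ) + t * I)‖ ≤
        A * ‖𝓕 (kth a w b σ θ) ((2 * Real.pi)⁻¹ * t)‖ := by
      rw [h2, norm_mul, norm_mul, norm_inv, ← mul_assoc]
      refine mul_le_mul_of_nonneg_right ?_ (norm_nonneg _)
      have h7 : ‖cexp (((σ : ℂ) + t * I) * (θ * I))‖ = Real.exp (-(θ * t)) := by
        rw [Complex.norm_exp]
        congr 1
        simp
        ring
      have h8 : 0 < c * t ^ (σ - 1 / 2) * Real.exp (-(Real.pi / 2 * t)) := by positivity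
      have h9 : ‖Gamma ((σ : ℂ) + t * I)‖⁻¹ ≤
          (c * t ^ (σ - 1 / 2) * Real.exp (-(Real.pi / 2 * t)))⁻¹ := inv_anti₀ h8 h1
      have h10 : (c * t ^ (σ - 1 / 2) * Real.exp (-(Real.pi / 2 * t)))⁻¹ =
          c⁻¹ * t ^ (1 / 2 - σ) * Real.exp (Real.pi / 2 * t) := by
        rw [mul_inv, mul_inv, Real.exp_neg, inv_inv, ← Real.rpow_neg ht0.le]
        congr 3
        ring
      have h11 : t ^ (1 / 2 - σ) ≤ T ^ (1 / 2 - σ) :=
        Real.rpow_le_rpow_of_nonpos hT0 ht.1 (by linarith)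
      have h12 : Real.exp (Real.pi / 2 * t) * Real.exp (-(θ * t)) ≤ Real.exp 2 := by
        rw [← Real.exp_add, Real.exp_le_exp]
        have h13 : Real.pi / 2 * t + -(θ * t) = t / T := by rw [hθ]; ring
        rw [h13, div_le_iff₀ hT0]
        exact ht.2
      rw [h7]
      calc ‖Gamma ((σ : ℂ) + t * I)‖⁻¹ * Real.exp (-(θ * t))
          ≤ (c⁻¹ * t ^ (1 / 2 - σ) * Real.exp (Real.pi / 2 * t)) * Real.exp (-(θ * t)) := by
            rw [← h10]; gcongr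
        _ = c⁻¹ * t ^ (1 / 2 - σ) * (Real.exp (Real.pi / 2 * t) * Real.exp (-(θ * t))) := by ring
        _ ≤ c⁻¹ * T ^ (1 / 2 - σ) * Real.exp 2 := by gcongr
        _ = A := by rw [hA]; ring
    rw [← ofReal_norm, ← ofReal_norm, ← ENNReal.ofReal_pow (norm_nonneg _),
      ← ENNReal.ofReal_pow (norm_nonneg _), ← ENNReal.ofReal_mul (by positivity), ← mul_pow]
    exact ENNReal.ofReal_le_ofReal (pow_le_pow_left₀ (norm_nonneg _) h6 2)
  have hm : Measurable (fun ξ : ℝ => ‖𝓕 (kth a w b σ θ) ξ‖ₑ ^ 2) := by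
    have hc : Continuous (𝓕 (kth a w b σ θ)) :=
      VectorFourier.fourierIntegral_continuous Real.continuous_fourierChar
        (by exact continuous_inner) k1
    exact (hc.measurable.enorm).pow_const 2
  calc _ ≤ ∫⁻ t in Icc T (2 * T), ENNReal.ofReal (A ^ 2) *
        ‖𝓕 (kth a w b σ θ) ((2 * Real.pi)⁻¹ * t)‖ₑ ^ 2 :=
        setLIntegral_mono' measurableSet_Icc hpt
    _ ≤ ∫⁻ t, ENNReal.ofReal (A ^ 2) * ‖𝓕 (kth a w b σ θ) ((2 * Real.pi)⁻¹ * t)‖ₑ ^ 2 :=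
        setLIntegral_le_lintegral _ _
    _ = ENNReal.ofReal (A ^ 2) * ∫⁻ t, ‖𝓕 (kth a w b σ θ) ((2 * Real.pi)⁻¹ * t)‖ₑ ^ 2 := by
        have hm' : Measurable (fun t : ℝ => ‖𝓕 (kth a w b σ θ) ((2 * Real.pi)⁻¹ * t)‖ₑ ^ 2) :=
          hm.comp (measurable_const_mul _)
        rw [lintegral_const_mul _ hm']
    _ = ENNReal.ofReal (A ^ 2) * (ENNReal.ofReal (2 * Real.pi) *
          ∫⁻ u, ‖kth a w b σ θ u‖ₑ ^ 2) := by
        rw [← hpl]
        congr 1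
        have h1 : Measure.map (fun t : ℝ => (2 * Real.pi)⁻¹ * t) volume =
            ENNReal.ofReal (2 * Real.pi) • volume := by
          rw [Real.map_volume_mul_left (by positivity), inv_inv, abs_of_pos (by positivity)]
        rw [← lintegral_map (f := fun ξ : ℝ => ‖𝓕 (kth a w b σ θ) ξ‖ₑ ^ 2) hm
          (measurable_const_mul _), h1, lintegral_smul_measure, smul_eq_mul]
    _ = _ := by
        rw [← mul_assoc, ← ENNReal.ofReal_mul (by positivity)]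
        congr 2
        rw [hA, mul_pow, ← Real.rpow_natCast (T ^ (1 / 2 - σ)), ← Real.rpow_mul hT0.le]
        have : (1 / 2 - σ) * ((2 : ℕ) : ℝ) = 1 - 2 * σ := by push_cast; ring
        rw [this]
        ring

end Pool.Agent.Y616.BM
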