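import Pool.Agent.Y616.BM.Main
import Pool.Agent.Helper343.NR2

set_option autoImplicit false

/-!
# Barnes zeta functions for almost all weights, part 12: pointwise bounds from lines
-/

namespace Pool.Agent.Y616.BM

open Finset Filter Topology MeasureTheory Complex Set Asymptotics
open Pool.Agent.H131R5.BZ Pool.Agent.Y930.Bz

variable {r : ℕ} {a : ℝ} {w : Fin r → ℝ} {c : ℕ → ℂ}

/-- a crude uniform bound for `Γ(1 - s)` -/
lemma Gamma_one_sub_le (β : ℝ) : ∃ C : ℝ, 0 < C ∧ ∀ s : ℂ, s.re ≤ β → 0 ≤ s.re → 1 ≤ s.im →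
    ‖Gamma (1 - s)‖ ≤ C * s.im := by
  obtain ⟨N, hN⟩ := exists_nat_ge β
  refine ⟨4 * (3 + N) ^ ((N : ℝ) + 1 / 2), by positivity, fun s hs hs0 him => ?_⟩
  set t := s.im with ht
  set x := s.re with hx
  have ht0 : 0 < t := by linarith
  have hne : ∀ i : ℕ, 1 - s + i ≠ 0 := by
    intro i h
    have := congrArg Complex.im h
    simp at this
    linarith
  have h1 := Gamma_shift (N + 0) (1 - s) hne
  rw [Nat.add_zero] at h1
  have h2 : ‖Gamma (1 - s + N)‖ = ‖Gamma (((1 - x + N : ℝ) : ℂ) + t * I)‖ := by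
    rw [← Complex.norm_conj, ← Complex.Gamma_conj]
    congr 2
    apply Complex.ext <;> simp [hx, ht]
  have hx1 : 1 / 2 ≤ 1 - x + N := by linarith
  have h3 := Pool.Agent.H9R3.BZ.Gamma_upper hx1 him
  rw [← h2, h1, norm_mul, norm_prod] at h3
  have h4 : t ^ N ≤ ∏ i ∈ range N, ‖1 - s + i‖ := by
    calc t ^ N = ∏ _i ∈ range N, t := by simp
      _ ≤ _ := Finset.prod_le_prod (fun _ _ => ht0.le) fun i _ => by
        have h5 := Complex.abs_im_le_norm (1 - s + i)
        have h6 : (1 - s + i).im = -t := by simp [ht]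
        rw [h6, abs_neg, abs_of_pos ht0] at h5
        exact h5
  have h5 : t ^ N * ‖Gamma (1 - s)‖ ≤ 4 * (3 + N) ^ ((N : ℝ) + 1 / 2) * (t ^ N * t) := by
    refine le_trans (mul_le_mul_of_nonneg_right h4 (norm_nonneg _)) (h3.trans ?_)
    have e1 : (1 + (1 - x + N)) ^ (1 - x + N - 1 / 2) ≤ (3 + (N : ℝ)) ^ ((N : ℝ) + 1 / 2) := by
      calc (1 + (1 - x + N)) ^ (1 - x + N - 1 / 2) ≤ (3 + (N : ℝ)) ^ (1 - x + N - 1 / 2) :=
            Real.rpow_le_rpow (by linarith) (by linarith) (by linarith)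
        _ ≤ _ := Real.rpow_le_rpow_of_exponent_le (by linarith [Nat.cast_nonneg (α := ℝ) N])
            (by linarith)
    have e2 : t ^ (1 - x + N - 1 / 2) ≤ t ^ N * t := by
      calc t ^ (1 - x + N - 1 / 2) ≤ t ^ ((N : ℝ) + 1) :=
            Real.rpow_le_rpow_of_exponent_le him (by linarith)
        _ = t ^ N * t := by
            rw [Real.rpow_add ht0, Real.rpow_natCast, Real.rpow_one]
    have e3 : Real.exp (-(Real.pi / 2) * t) ≤ 1 := by
      rw [Real.exp_le_one_iff]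
      have := Real.pi_pos
      nlinarith
    calc _ ≤ 4 * (3 + (N : ℝ)) ^ ((N : ℝ) + 1 / 2) * (t ^ N * t) * 1 := by gcongr
      _ = _ := mul_one _
  have h7 : 0 < t ^ N := by positivity
  refine le_of_mul_le_mul_left (h5.trans (le_of_eq ?_)) h7
  ring

/-- a crude bound for the zeta-function in a strip -/
lemma FF_growth (ha : 0 < a) (hw : ∀ j, 0 < w j) (hc : Tay a w c) {α β : ℝ} (hα : 0 < α) :
    ∃ C : ℝ, 0 ≤ C ∧ ∀ s : ℂ, α ≤ s.re → s.re ≤ β → 1 ≤ s.im →
      ‖FF a w c s‖ ≤ C * Real.exp (5 * s.im) := by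
  obtain ⟨C₁, hC₁, h1⟩ := growth ha hw hc α β
  obtain ⟨C₂, hC₂, h2⟩ := Gamma_one_sub_le β
  refine ⟨C₁ * C₂, by positivity, fun s hs1 hs2 him => ?_⟩
  have e1 := h1 s hs1 hs2 him
  have e2 := h2 s hs2 (by linarith) him
  have e3 := Complex.Gamma_mul_Gamma_one_sub s
  have hG : Gamma s ≠ 0 := Complex.Gamma_ne_zero_of_re_pos (by linarith)
  have e4 : ‖Complex.sin ((Real.pi : ℂ) * s)‖ ≤ Real.exp (Real.pi * s.im) := by
    rw [Complex.sin]
    rw [norm_div, norm_mul, Complex.norm_I, mul_one]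
    have h6 : ‖cexp (-((Real.pi : ℂ) * s) * I)‖ = Real.exp (Real.pi * s.im) := by
      rw [Complex.norm_exp]; simp
    have h7 : ‖cexp (((Real.pi : ℂ) * s) * I)‖ ≤ Real.exp (Real.pi * s.im) := by
      rw [Complex.norm_exp, Real.exp_le_exp]
      have : 0 < Real.pi * s.im := mul_pos Real.pi_pos (by linarith)
      simp
      linarith
    have h8 : ‖(2 : ℂ)‖ = 2 := by simp
    rw [h8, div_le_iff₀ (by norm_num)]
    refine (norm_sub_le _ _).trans ?_
    rw [h6]
    linarith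
  have hsin : Complex.sin ((Real.pi : ℂ) * s) ≠ 0 := by
    rw [Ne, Complex.sin_eq_zero_iff]
    rintro ⟨k, hk⟩
    have h0 := congrArg Complex.im hk
    have h1 : ((Real.pi : ℂ) * s).im = Real.pi * s.im := by simp
    have h2 : ((k : ℂ) * (Real.pi : ℂ)).im = 0 := by simp
    rw [h1, h2] at h0
    have := mul_pos Real.pi_pos (lt_of_lt_of_le one_pos him)
    linarith
  have e5 : (Real.pi : ℝ) * ‖FF a w c s‖ =
      ‖Gamma s * FF a w c s‖ * (‖Gamma (1 - s)‖ * ‖Complex.sin ((Real.pi : ℂ) * s)‖) := by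
    rw [← norm_mul, ← norm_mul]
    have : Gamma s * FF a w c s * (Gamma (1 - s) * Complex.sin ((Real.pi : ℂ) * s)) =
        (Real.pi : ℂ) * FF a w c s := by
      calc _ = (Gamma s * Gamma (1 - s)) * Complex.sin ((Real.pi : ℂ) * s) * FF a w c s := by ring
        _ = _ := by
            rw [e3]
            field_simp
    rw [this, norm_mul, Complex.norm_real, Real.norm_of_nonneg Real.pi_pos.le]
  have e6 : s.im * Real.exp (Real.pi * s.im) ≤ Real.exp (5 * s.im) := by
    have h8 : s.im ≤ Real.exp s.im := by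
      have := Real.add_one_le_exp s.im
      linarith
    calc s.im * Real.exp (Real.pi * s.im) ≤ Real.exp s.im * Real.exp (4 * s.im) := by
          have : Real.exp (Real.pi * s.im) ≤ Real.exp (4 * s.im) := by
            apply Real.exp_le_exp.2
            nlinarith [Real.pi_le_four]
          gcongr
      _ = Real.exp (5 * s.im) := by
          rw [← Real.exp_add]
          congr 1
          ring
  have e7 : (Real.pi : ℝ) * ‖FF a w c s‖ ≤ C₁ * C₂ * Real.exp (5 * s.im) := by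
    rw [e5]
    calc _ ≤ C₁ * (C₂ * s.im * Real.exp (Real.pi * s.im)) := by gcongr
      _ = C₁ * C₂ * (s.im * Real.exp (Real.pi * s.im)) := by ring
      _ ≤ _ := by gcongr
  have h9 : 1 ≤ Real.pi := by linarith [Real.pi_gt_three]
  have h10 := norm_nonneg (FF a w c s)
  nlinarith

/-- the zeta-function is bounded on lines of absolute convergence -/
lemma FF_line_bdd (ha : 0 < a) (hw : ∀ j, 0 < w j) (hc : Tay a w c) {β : ℝ} (hβ : (r : ℝ) < β) :
    ∃ A : ℝ, 0 ≤ A ∧ ∀ y : ℝ, ‖FF a w c ((β : ℂ) + y * I)‖ ≤ A := by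
  refine ⟨∑' m, (lam a w m) ^ (-β), tsum_nonneg fun m =>
    (Real.rpow_pos_of_pos (lam_pos ha hw m) _).le, fun y => ?_⟩
  have h1 := FF_series ha hw hc (s := (β : ℂ) + y * I) (by simpa using hβ)
  rw [← h1.tsum_eq]
  have h2 : ∀ m : Fin r → ℕ, ‖((lam a w m : ℝ) : ℂ) ^ (-((β : ℂ) + y * I))‖ = (lam a w m) ^ (-β) := by
    intro m
    rw [Complex.norm_cpow_eq_rpow_re_of_pos (lam_pos ha hw m)]
    simp
  have h3 := summable_lam ha hw hβ
  have h4 := norm_tsum_le_tsum_norm (f := fun m : Fin r → ℕ =>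
    ((lam a w m : ℝ) : ℂ) ^ (-((β : ℂ) + y * I))) (by simpa only [h2] using h3)
  simpa only [h2] using h4

lemma gauss_norm (x y σ t : ℝ) :
    ‖cexp ((((x : ℂ) + y * I) - ((σ : ℂ) + t * I)) ^ 2)‖ = Real.exp ((x - σ) ^ 2 - (y - t) ^ 2) := by
  rw [Complex.norm_exp]
  congr 1
  simp [pow_two]

/-- the square of the zeta-function is bounded by a local integral on a line further to the left -/
theorem cauchy_bound (ha : 0 < a) (hw : ∀ j, 0 < w j) (hc : Tay a w c) {α κ σ₁ : ℝ} (hα : 0 < α)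
    (hκ : 0 < κ) (hκ1 : κ ≤ 1) :
    ∃ C : ℝ, 0 ≤ C ∧ ∀ σ t : ℝ, α + κ ≤ σ → σ ≤ σ₁ → 2 ≤ t →
      ‖FF a w c ((σ : ℂ) + t * I)‖ ^ 2 ≤ C * (1 + ∫ y in (1 : ℝ)..(2 * t + 12),
        ‖FF a w c ((α : ℂ) + y * I)‖ ^ 2 * Real.exp (-(y - t) ^ 2)) := by
  set β : ℝ := max σ₁ r + 1 with hβ
  have hβr : (r : ℝ) < β := by
    have := le_max_right σ₁ (r : ℝ)
    linarith
  have hβσ : σ₁ + 1 ≤ β := by
    have := le_max_left σ₁ (r : ℝ)
    linarith
  obtain ⟨C₁, hC₁, hg⟩ := FF_growth ha hw hc (α := α) (β := β) hα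
  obtain ⟨A, hA, hAb⟩ := FF_line_bdd ha hw hc hβr
  set L : ℝ := |β| + |α| with hL
  have hL0 : 0 ≤ L := by positivity
  set E : ℝ := Real.exp (L ^ 2) with hE
  have hE0 : 0 < E := Real.exp_pos _
  set D : ℝ := L * (C₁ ^ 2 * Real.exp 10 * E) + L * (C₁ ^ 2 * E) + A ^ 2 * E * Real.sqrt Real.pi
    with hD
  have hD0 : 0 ≤ D := by positivity
  refine ⟨D + E / κ, by positivity, fun σ t hσ hσ1 ht => ?_⟩
  have hαβ : α ≤ β := by linarith
  have hLd : β - α ≤ L := by
    have h1 := le_abs_self β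
    have h2 := neg_abs_le α
    linarith
  set Y : ℝ := 2 * t + 12 with hY
  set s : ℂ := (σ : ℂ) + t * I with hs
  have hsre : s.re = σ := by simp [hs]
  have hsim : s.im = t := by simp [hs]
  set g : ℂ → ℂ := fun z => FF a w c z ^ 2 * cexp ((z - s) ^ 2) with hgdef
  have hmemOm : ∀ z : ℂ, 1 ≤ z.im → z ∈ Om r := by
    intro z hz k _ _ h
    have := congrArg Complex.im h
    simp at this
    linarith
  have hFd : ∀ z : ℂ, 1 ≤ z.im → DifferentiableAt ℂ (FF a w c) z := fun z hz =>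
    FF_diff ha hw hc (hmemOm z hz)
  have hgd : DifferentiableOn ℂ g (uIcc α β ×ℂ uIcc 1 Y) := by
    intro z hz
    have h1 : 1 ≤ z.im := by
      have := hz.2
      rw [Set.mem_preimage, Set.uIcc_of_le (by linarith)] at this
      exact this.1
    exact (((hFd z h1).pow 2).mul (by fun_prop)).differentiableWithinAt
  have hcau := Pool.Agent.H343N.rect_cauchy' g α β 1 Y hgd s (by rw [hsre]; linarith)
    (by rw [hsre]; linarith) (by rw [hsim]; linarith) (by rw [hsim]; linarith)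
  have hgs : g s = FF a w c s ^ 2 := by simp [hgdef]
  -- norms of the four sides
  have hgn : ∀ x y : ℝ, ‖g ((x : ℂ) + y * I)‖ =
      ‖FF a w c ((x : ℂ) + y * I)‖ ^ 2 * Real.exp ((x - σ) ^ 2 - (y - t) ^ 2) := by
    intro x y
    simp only [hgdef]
    rw [norm_mul, norm_pow, hs, gauss_norm]
  have hxσ : ∀ x : ℝ, α ≤ x → x ≤ β → (x - σ) ^ 2 ≤ L ^ 2 := by
    intro x h1 h2
    apply sq_le_sq'
    · linarith
    · linarith
  have hbot : ‖∫ x in α..β, g ((x : ℂ) + (1 : ℝ) * I) / ((x : ℂ) + (1 : ℝ) * I - s)‖ ≤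
      L * (C₁ ^ 2 * Real.exp 10 * E) := by
    have h1 : ∀ x ∈ uIoc α β, ‖g ((x : ℂ) + (1 : ℝ) * I) / ((x : ℂ) + (1 : ℝ) * I - s)‖ ≤
        C₁ ^ 2 * Real.exp 10 * E := by
      intro x hx
      rw [uIoc_of_le hαβ] at hx
      rw [norm_div, hgn]
      have h2 : 1 ≤ ‖(x : ℂ) + (1 : ℝ) * I - s‖ := by
        have h3 := Complex.abs_im_le_norm ((x : ℂ) + (1 : ℝ) * I - s)
        have h4 : ((x : ℂ) + (1 : ℝ) * I - s).im = 1 - t := by simp [hsim]
        rw [h4, abs_of_nonpos (by linarith)] at h3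
        linarith
      have h3 := hg ((x : ℂ) + (1 : ℝ) * I) (by simpa using hx.1.le) (by simpa using hx.2)
        (by simp)
      have h4 : ((x : ℂ) + (1 : ℝ) * I).im = 1 := by simp
      rw [h4] at h3
      have h5 : Real.exp ((x - σ) ^ 2 - (1 - t) ^ 2) ≤ E := by
        apply Real.exp_le_exp.2
        have := hxσ x hx.1.le hx.2
        nlinarith [sq_nonneg (1 - t)]
      calc _ ≤ ‖FF a w c ((x : ℂ) + (1 : ℝ) * I)‖ ^ 2 * Real.exp ((x - σ) ^ 2 - (1 - t) ^ 2) :=
            div_le_self (by positivity) h2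
        _ ≤ (C₁ * Real.exp (5 * 1)) ^ 2 * E := by gcongr
        _ = _ := by
            rw [mul_pow, ← Real.exp_nat_mul]
            norm_num
    have h2 := intervalIntegral.norm_integral_le_of_norm_le_const h1
    rw [abs_of_nonneg (by linarith)] at h2
    calc _ ≤ _ := h2
      _ = (β - α) * (C₁ ^ 2 * Real.exp 10 * E) := by ring
      _ ≤ _ := by gcongr
  have htop : ‖∫ x in α..β, g ((x : ℂ) + Y * I) / ((x : ℂ) + Y * I - s)‖ ≤
      L * (C₁ ^ 2 * E) := by
    have h1 : ∀ x ∈ uIoc α β, ‖g ((x : ℂ) + Y * I) / ((x : ℂ) + Y * I - s)‖ ≤ C₁ ^ 2 * E := by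
      intro x hx
      rw [uIoc_of_le hαβ] at hx
      rw [norm_div, hgn]
      have h2 : 1 ≤ ‖(x : ℂ) + Y * I - s‖ := by
        have h3 := Complex.abs_im_le_norm ((x : ℂ) + Y * I - s)
        have h4 : ((x : ℂ) + Y * I - s).im = Y - t := by simp [hsim]
        rw [h4, abs_of_nonneg (by linarith)] at h3
        linarith
      have h3 := hg ((x : ℂ) + Y * I) (by simpa using hx.1.le) (by simpa using hx.2)
        (by simp; linarith)
      have h4 : ((x : ℂ) + Y * I).im = Y := by simp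
      rw [h4] at h3
      have h5 : Real.exp (10 * Y) * Real.exp ((x - σ) ^ 2 - (Y - t) ^ 2) ≤ E := by
        rw [← Real.exp_add]
        apply Real.exp_le_exp.2
        have := hxσ x hx.1.le hx.2
        rw [hY]
        nlinarith
      calc _ ≤ ‖FF a w c ((x : ℂ) + Y * I)‖ ^ 2 * Real.exp ((x - σ) ^ 2 - (Y - t) ^ 2) :=
            div_le_self (by positivity) h2
        _ ≤ (C₁ * Real.exp (5 * Y)) ^ 2 * Real.exp ((x - σ) ^ 2 - (Y - t) ^ 2) := by gcongr
        _ = C₁ ^ 2 * (Real.exp (10 * Y) * Real.exp ((x - σ) ^ 2 - (Y - t) ^ 2)) := by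
            rw [mul_pow, ← Real.exp_nat_mul]
            have : ((2 : ℕ) : ℝ) * (5 * Y) = 10 * Y := by push_cast; ring
            rw [this]
            ring
        _ ≤ _ := by gcongr
    have h2 := intervalIntegral.norm_integral_le_of_norm_le_const h1
    rw [abs_of_nonneg (by linarith)] at h2
    calc _ ≤ _ := h2
      _ = (β - α) * (C₁ ^ 2 * E) := by ring
      _ ≤ _ := by gcongr
  have hgint : Integrable fun y : ℝ => Real.exp (-(y - t) ^ 2) := by
    have h1 : Integrable fun y : ℝ => Real.exp (-1 * y ^ 2) := integrable_exp_neg_mul_sq one_pos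
    have h2 := h1.comp_sub_right t
    simpa only [neg_one_mul] using h2
  have hright : ‖∫ y in (1 : ℝ)..Y, g ((β : ℂ) + y * I) / ((β : ℂ) + y * I - s)‖ ≤
      A ^ 2 * E * Real.sqrt Real.pi := by
    have h1 : ∀ y : ℝ, ‖g ((β : ℂ) + y * I) / ((β : ℂ) + y * I - s)‖ ≤
        A ^ 2 * E * Real.exp (-(y - t) ^ 2) := by
      intro y
      rw [norm_div, hgn]
      have h2 : 1 ≤ ‖(β : ℂ) + y * I - s‖ := by
        have h3 := Complex.abs_re_le_norm ((β : ℂ) + y * I - s)
        have h4 : ((β : ℂ) + y * I - s).re = β - σ := by simp [hsre]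
        rw [h4, abs_of_nonneg (by linarith)] at h3
        linarith
      have h5 : Real.exp ((β - σ) ^ 2 - (y - t) ^ 2) ≤ E * Real.exp (-(y - t) ^ 2) := by
        rw [hE, ← Real.exp_add]
        apply Real.exp_le_exp.2
        have := hxσ β hαβ le_rfl
        linarith
      calc _ ≤ ‖FF a w c ((β : ℂ) + y * I)‖ ^ 2 * Real.exp ((β - σ) ^ 2 - (y - t) ^ 2) :=
            div_le_self (by positivity) h2
        _ ≤ A ^ 2 * (E * Real.exp (-(y - t) ^ 2)) := by
            have := hAb y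
            gcongr
        _ = _ := by ring
    have h2 : ‖∫ y in (1 : ℝ)..Y, g ((β : ℂ) + y * I) / ((β : ℂ) + y * I - s)‖ ≤
        ∫ y in (1 : ℝ)..Y, A ^ 2 * E * Real.exp (-(y - t) ^ 2) :=
      intervalIntegral.norm_integral_le_of_norm_le (by linarith)
        (ae_of_all _ fun y _ => h1 y) ((hgint.const_mul _).intervalIntegrable)
    refine h2.trans ?_
    rw [intervalIntegral.integral_const_mul]
    refine mul_le_mul_of_nonneg_left ?_ (by positivity)
    rw [intervalIntegral.integral_of_le (by linarith)]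
    calc _ ≤ ∫ y : ℝ, Real.exp (-(y - t) ^ 2) :=
          setIntegral_le_integral hgint (ae_of_all _ fun y => (Real.exp_pos _).le)
      _ = ∫ y : ℝ, Real.exp (-y ^ 2) :=
          integral_sub_right_eq_self (fun y : ℝ => Real.exp (-y ^ 2)) t
      _ = Real.sqrt Real.pi := by
          have := integral_gaussian 1
          simpa using this
      _ ≤ _ := le_rfl
  have hαcont : ContinuousOn (fun y : ℝ => ‖FF a w c ((α : ℂ) + y * I)‖ ^ 2 *
      Real.exp (-(y - t) ^ 2)) (uIcc 1 Y) := by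
    intro y hy
    rw [Set.uIcc_of_le (by linarith)] at hy
    have h1 : ContinuousAt (fun y : ℝ => FF a w c ((α : ℂ) + y * I)) y :=
      ContinuousAt.comp (g := FF a w c) (f := fun y : ℝ => (α : ℂ) + y * I)
        (hFd _ (by simpa using hy.1)).continuousAt (by fun_prop)
    exact ((h1.norm.pow 2).mul (by fun_prop)).continuousWithinAt
  have hleft : ‖∫ y in (1 : ℝ)..Y, g ((α : ℂ) + y * I) / ((α : ℂ) + y * I - s)‖ ≤
      E / κ * ∫ y in (1 : ℝ)..Y, ‖FF a w c ((α : ℂ) + y * I)‖ ^ 2 * Real.exp (-(y - t) ^ 2) := by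
    have h1 : ∀ y : ℝ, ‖g ((α : ℂ) + y * I) / ((α : ℂ) + y * I - s)‖ ≤
        E / κ * (‖FF a w c ((α : ℂ) + y * I)‖ ^ 2 * Real.exp (-(y - t) ^ 2)) := by
      intro y
      rw [norm_div, hgn]
      have h2 : κ ≤ ‖(α : ℂ) + y * I - s‖ := by
        have h3 := Complex.abs_re_le_norm ((α : ℂ) + y * I - s)
        have h4 : ((α : ℂ) + y * I - s).re = α - σ := by simp [hsre]
        rw [h4, abs_of_nonpos (by linarith)] at h3
        linarith
      have h5 : Real.exp ((α - σ) ^ 2 - (y - t) ^ 2) ≤ E * Real.exp (-(y - t) ^ 2) := by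
        rw [hE, ← Real.exp_add]
        apply Real.exp_le_exp.2
        have := hxσ α le_rfl hαβ
        linarith
      calc _ ≤ ‖FF a w c ((α : ℂ) + y * I)‖ ^ 2 * (E * Real.exp (-(y - t) ^ 2)) / κ := by gcongr
        _ = _ := by ring
    have h2 := intervalIntegral.norm_integral_le_of_norm_le (show (1 : ℝ) ≤ Y by linarith)
      (ae_of_all _ fun y _ => h1 y) ((ContinuousOn.intervalIntegrable (μ := volume) hαcont).const_mul (E / κ))
    refine h2.trans (le_of_eq ?_)
    rw [intervalIntegral.integral_const_mul]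
  set J : ℝ := ∫ y in (1 : ℝ)..Y, ‖FF a w c ((α : ℂ) + y * I)‖ ^ 2 * Real.exp (-(y - t) ^ 2)
    with hJ
  have hJ0 : 0 ≤ J := intervalIntegral.integral_nonneg (by linarith) fun y _ => by positivity
  have hfin : 2 * Real.pi * ‖FF a w c s‖ ^ 2 ≤ D + E / κ * J := by
    have h1 := congrArg norm hcau
    rw [hgs, norm_mul, norm_mul, norm_mul, Complex.norm_I, norm_pow, Complex.norm_real,
      Real.norm_of_nonneg Real.pi_pos.le] at h1
    have h2 : ‖(2 : ℂ)‖ = 2 := by simp
    rw [h2, mul_one] at h1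
    rw [← h1]
    refine (norm_sub_le _ _).trans ?_
    refine (add_le_add (norm_add_le _ _) le_rfl).trans ?_
    refine (add_le_add (add_le_add (norm_sub_le _ _) le_rfl) le_rfl).trans ?_
    rw [norm_mul, norm_mul, Complex.norm_I, one_mul, one_mul]
    have := hbot
    have := htop
    have := hright
    have := hleft
    rw [hD]
    linarith
  have hpi : 1 ≤ 2 * Real.pi := by linarith [Real.pi_gt_three]
  have h3 : ‖FF a w c s‖ ^ 2 ≤ D + E / κ * J := by
    have : 0 ≤ ‖FF a w c s‖ ^ 2 := by positivity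
    nlinarith
  have h4 : 0 ≤ E / κ := by positivity
  calc _ ≤ _ := h3
    _ ≤ (D + E / κ) * (1 + J) := by nlinarith [mul_nonneg hD0 hJ0]

end Pool.Agent.Y616.BM
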