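import Pool.Agent.Y616.BM.Main2

set_option autoImplicit false

/-!
# Barnes zeta functions for almost all weights, part 14: interpolation and exceptional ordinates
-/

namespace Pool.Agent.Y616.BM

open Finset Filter Topology MeasureTheory Complex Set Asymptotics
open Pool.Agent.H131R5.BZ Pool.Agent.Y930.Bz

lemma int_le {f : ℝ → ℂ} {Y B : ℝ} (hY : 1 ≤ Y) (hB : 0 ≤ B)
    (h : ∫⁻ t in Icc 1 Y, ‖f t‖ₑ ^ 2 ≤ ENNReal.ofReal B) {φ : ℝ → ℝ} (h0 : ∀ y, 0 ≤ φ y)
    (h1 : ∀ y, φ y ≤ 1) : ∫ y in (1 : ℝ)..Y, ‖f y‖ ^ 2 * φ y ≤ B := by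
  rw [intervalIntegral.integral_of_le hY]
  refine (le_abs_self _).trans ?_
  rw [← Real.norm_eq_abs]
  refine (norm_integral_le_lintegral_norm _).trans ?_
  refine ENNReal.toReal_le_of_le_ofReal hB (le_trans ?_ h)
  refine (lintegral_mono_set Set.Ioc_subset_Icc_self).trans ?_
  refine lintegral_mono fun y => ?_
  have h2 : ‖‖f y‖ ^ 2 * φ y‖ ≤ ‖f y‖ ^ 2 := by
    rw [Real.norm_of_nonneg (mul_nonneg (by positivity) (h0 y))]
    exact mul_le_of_le_one_right (by positivity) (h1 y)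
  calc ENNReal.ofReal ‖‖f y‖ ^ 2 * φ y‖ ≤ ENNReal.ofReal (‖f y‖ ^ 2) :=
        ENNReal.ofReal_le_ofReal h2
    _ = _ := by rw [ENNReal.ofReal_pow (norm_nonneg _), ofReal_norm]

variable {r : ℕ} {a : ℝ} {w : Fin r → ℝ} {c : ℕ → ℂ}

/-- pointwise bound from the mean square on a line further to the left -/
theorem pt_bound (ha : 0 < a) (hw : ∀ j, 0 < w j) (hc : Tay a w c) {α κ σ₁ τ C₀ : ℝ} (hα : 0 < α)
    (hκ : 0 < κ) (hκ1 : κ ≤ 1) (hτ : 0 ≤ τ) (hC₀ : 0 ≤ C₀)
    (h : ∀ T : ℝ, 1 ≤ T → ∫⁻ t in Icc 1 T, ‖FF a w c ((α : ℂ) + t * I)‖ₑ ^ 2 ≤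
      ENNReal.ofReal (C₀ * T ^ τ)) :
    ∃ C : ℝ, 0 ≤ C ∧ ∀ σ t : ℝ, α + κ ≤ σ → σ ≤ σ₁ → 1 ≤ t →
      ‖FF a w c ((σ : ℂ) + t * I)‖ ≤ C * t ^ (τ / 2) := by
  obtain ⟨C, hC, hcb⟩ := cauchy_bound (σ₁ := σ₁) ha hw hc hα hκ hκ1
  obtain ⟨C₁, hC₁, hg⟩ := FF_growth ha hw hc (α := α) (β := σ₁) hα
  set D : ℝ := C * (1 + C₀ * 8 ^ τ) with hD
  have hD0 : 0 ≤ D := by positivity
  refine ⟨Real.sqrt D + C₁ * Real.exp 10, by positivity, fun σ t hσ hσ1 ht => ?_⟩
  have ht0 : 0 < t := by linarith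
  have htτ : 1 ≤ t ^ (τ / 2) := Real.one_le_rpow ht (by positivity)
  rcases le_total 2 t with h2 | h2
  · have h3 := hcb σ t hσ hσ1 h2
    have h4 := int_le (f := fun y : ℝ => FF a w c ((α : ℂ) + y * I)) (Y := 2 * t + 12)
      (by linarith) (by positivity) (h (2 * t + 12) (by linarith))
      (φ := fun y => Real.exp (-(y - t) ^ 2)) (fun y => (Real.exp_pos _).le)
      (fun y => by rw [Real.exp_le_one_iff]; nlinarith [sq_nonneg (y - t)])
    have h5 : (2 * t + 12) ^ τ ≤ 8 ^ τ * t ^ τ := by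
      rw [← Real.mul_rpow (by norm_num) ht0.le]
      exact Real.rpow_le_rpow (by linarith) (by linarith) hτ
    have h6 : 1 ≤ t ^ τ := Real.one_le_rpow ht hτ
    have h7 : ‖FF a w c ((σ : ℂ) + t * I)‖ ^ 2 ≤ D * t ^ τ := by
      calc _ ≤ _ := h3
        _ ≤ C * (1 + C₀ * (2 * t + 12) ^ τ) := by gcongr
        _ ≤ C * (t ^ τ + C₀ * (8 ^ τ * t ^ τ)) := by gcongr
        _ = _ := by rw [hD]; ring
    have h8 : ‖FF a w c ((σ : ℂ) + t * I)‖ ≤ Real.sqrt D * t ^ (τ / 2) := by
      have e1 : Real.sqrt (t ^ τ) = t ^ (τ / 2) := by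
        rw [Real.sqrt_eq_rpow, ← Real.rpow_mul ht0.le]
        congr 1
        ring
      rw [← e1, ← Real.sqrt_mul hD0]
      exact Real.le_sqrt_of_sq_le h7
    have h9 : 0 ≤ C₁ * Real.exp 10 * t ^ (τ / 2) := by positivity
    linarith
  · have h3 := hg ((σ : ℂ) + t * I) (by simp; linarith) (by simpa using hσ1) (by simpa using ht)
    have h4 : ((σ : ℂ) + t * I).im = t := by simp
    rw [h4] at h3
    have h5 : Real.exp (5 * t) ≤ Real.exp 10 := Real.exp_le_exp.2 (by linarith)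
    have h6 : 0 ≤ Real.sqrt D * t ^ (τ / 2) := by positivity
    calc _ ≤ C₁ * Real.exp (5 * t) := h3
      _ ≤ C₁ * Real.exp 10 * 1 := by rw [mul_one]; gcongr
      _ ≤ C₁ * Real.exp 10 * t ^ (τ / 2) := by gcongr
      _ ≤ _ := by linarith

/-- interpolation between two lines by the maximum principle -/
theorem interp (ha : 0 < a) (hw : ∀ j, 0 < w j) (hc : Tay a w c) {α β μ C₀ A : ℝ} (hα : 0 < α)
    (hαβ : α < β) (hμ : 0 ≤ μ) (hC₀ : 0 ≤ C₀) (hA : 0 ≤ A)
    (h0 : ∀ y : ℝ, 1 ≤ y → ‖FF a w c ((α : ℂ) + y * I)‖ ≤ C₀ * y ^ μ)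
    (h1 : ∀ y : ℝ, ‖FF a w c ((β : ℂ) + y * I)‖ ≤ A) :
    ∃ C : ℝ, 0 ≤ C ∧ ∀ σ t : ℝ, α ≤ σ → σ ≤ β → 2 ≤ t →
      ‖FF a w c ((σ : ℂ) + t * I)‖ ≤ C * t ^ (μ * (β - σ) / (β - α)) := by
  obtain ⟨C₁, hC₁, hg⟩ := FF_growth ha hw hc (α := α) (β := β) hα
  have hL : 0 < β - α := by linarith
  set E : ℝ := Real.exp ((β - α) ^ 2) with hE
  have hE0 : 0 < E := Real.exp_pos _
  set D : ℝ := C₀ * 8 ^ μ * E + A * E + C₁ * Real.exp 5 * E * Real.exp (μ ^ 2) +
    C₁ * E * Real.exp (μ ^ 2) with hD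
  have hD0 : 0 ≤ D := by positivity
  refine ⟨D, hD0, fun σ t hσ hσ1 ht => ?_⟩
  have ht0 : 0 < t := by linarith
  have ht1 : 1 ≤ t := by linarith
  set ℓ : ℝ := μ / (β - α) * Real.log t with hℓ
  have hlog0 : 0 ≤ Real.log t := Real.log_nonneg ht1
  have hℓ0 : 0 ≤ ℓ := by positivity
  set s : ℂ := (σ : ℂ) + t * I with hs
  have hsre : s.re = σ := by simp [hs]
  have hsim : s.im = t := by simp [hs]
  set Y : ℝ := 2 * t + 12 with hY
  set M : ℝ := D * t ^ (μ * (β - σ) / (β - α)) with hM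
  have hexp0 : 0 ≤ μ * (β - σ) / (β - α) := by
    have : 0 ≤ β - σ := by linarith
    positivity
  have hpow1 : 1 ≤ t ^ (μ * (β - σ) / (β - α)) := Real.one_le_rpow ht1 hexp0
  set g : ℂ → ℂ := fun z => FF a w c z * (cexp ((z - s) ^ 2) * cexp ((z - s) * (ℓ : ℂ))) with hgdef
  have hgn : ∀ x y : ℝ, ‖g ((x : ℂ) + y * I)‖ =
      ‖FF a w c ((x : ℂ) + y * I)‖ * (Real.exp ((x - σ) ^ 2 - (y - t) ^ 2) *
        Real.exp ((x - σ) * ℓ)) := by
    intro x y
    simp only [hgdef]
    rw [norm_mul, norm_mul, hs, gauss_norm]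
    congr 2
    rw [Complex.norm_exp]
    congr 1
    simp
  have hxσ : ∀ x : ℝ, α ≤ x → x ≤ β → (x - σ) ^ 2 ≤ (β - α) ^ 2 := by
    intro x h2 h3
    apply sq_le_sq'
    · linarith
    · linarith
  have hFd : ∀ z : ℂ, 1 ≤ z.im → DifferentiableAt ℂ (FF a w c) z := fun z hz =>
    FF_diff ha hw hc (by
      intro k _ _ h
      have := congrArg Complex.im h
      simp at this
      linarith)
  set U : Set ℂ := Ioo α β ×ℂ Ioo 1 Y with hU
  have hY1 : (1 : ℝ) < Y := by linarith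
  have hclU : closure U = Icc α β ×ℂ Icc 1 Y := by
    rw [hU, closure_reProdIm, closure_Ioo hαβ.ne, closure_Ioo hY1.ne]
  have hgd : DiffContOnCl ℂ g U := by
    apply DifferentiableOn.diffContOnCl
    intro z hz
    rw [hclU] at hz
    have h2 : 1 ≤ z.im := hz.2.1
    exact ((hFd z h2).mul (by fun_prop)).differentiableWithinAt
  have hbd : Bornology.IsBounded U :=
    (Metric.isBounded_Ioo α β).reProdIm (Metric.isBounded_Ioo 1 Y)
  have hlogt : Real.log t ≤ t - 1 := Real.log_le_sub_one_of_pos ht0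
  -- the vertical factor
  have hver : ∀ x : ℝ, Real.exp ((x - σ) * ℓ) = t ^ (μ * (x - σ) / (β - α)) := by
    intro x
    rw [Real.rpow_def_of_pos ht0]
    congr 1
    rw [hℓ]
    ring
  have hhor : ∀ x : ℝ, α ≤ x → x ≤ β → (x - σ) * ℓ ≤ μ * Real.log t := by
    intro x h2 h3
    have h4 : x - σ ≤ β - α := by linarith
    calc (x - σ) * ℓ ≤ (β - α) * ℓ := by gcongr
      _ = μ * Real.log t := by rw [hℓ]; field_simp
  have hcase : ∀ z ∈ frontier U, ‖g z‖ ≤ M := by
    intro z hz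
    rw [hU, frontier_reProdIm, closure_Ioo hαβ.ne, closure_Ioo hY1.ne, frontier_Ioo hαβ,
      frontier_Ioo hY1] at hz
    have hzz : z = (z.re : ℂ) + (z.im : ℂ) * I := (Complex.re_add_im z).symm
    rw [hzz, hgn]
    rcases hz with hz | hz
    · have hx1 : α ≤ z.re := hz.1.1
      have hx2 : z.re ≤ β := hz.1.2
      have hxs := hxσ z.re hx1 hx2
      have hh := hhor z.re hx1 hx2
      rcases hz.2 with hy | hy
      · -- the bottom side
        rw [show z.im = 1 from hy]
        have h3 := hg ((z.re : ℂ) + (1 : ℝ) * I) (by simpa using hx1) (by simpa using hx2)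
          (by simp)
        have h4 : ((z.re : ℂ) + (1 : ℝ) * I).im = 1 := by simp
        rw [h4, mul_one] at h3
        have h5 : Real.exp ((z.re - σ) ^ 2 - (1 - t) ^ 2) * Real.exp ((z.re - σ) * ℓ) ≤
            E * Real.exp (μ ^ 2) := by
          rw [← Real.exp_add, hE, ← Real.exp_add]
          apply Real.exp_le_exp.2
          nlinarith [sq_nonneg (μ - 2 * (t - 1)), sq_nonneg μ]
        calc _ ≤ C₁ * Real.exp 5 * (E * Real.exp (μ ^ 2)) := by gcongr
          _ ≤ D * 1 := by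
              rw [hD, mul_one]
              have e1 : 0 ≤ C₀ * 8 ^ μ * E := by positivity
              have e2 : 0 ≤ A * E := by positivity
              have e3 : 0 ≤ C₁ * E * Real.exp (μ ^ 2) := by positivity
              nlinarith
          _ ≤ M := by rw [hM]; gcongr
      · -- the top side
        rw [show z.im = Y from hy]
        have h3 := hg ((z.re : ℂ) + Y * I) (by simpa using hx1) (by simpa using hx2)
          (by simp; linarith)
        have h4 : ((z.re : ℂ) + Y * I).im = Y := by simp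
        rw [h4] at h3
        have h5 : Real.exp (5 * Y) * (Real.exp ((z.re - σ) ^ 2 - (Y - t) ^ 2) *
            Real.exp ((z.re - σ) * ℓ)) ≤ E * Real.exp (μ ^ 2) := by
          rw [← Real.exp_add, ← Real.exp_add, hE, ← Real.exp_add]
          apply Real.exp_le_exp.2
          rw [hY]
          nlinarith [sq_nonneg (μ - 2 * (t - 1)), sq_nonneg μ]
        calc _ ≤ C₁ * Real.exp (5 * Y) * (Real.exp ((z.re - σ) ^ 2 - (Y - t) ^ 2) *
            Real.exp ((z.re - σ) * ℓ)) := by gcongr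
          _ = C₁ * (Real.exp (5 * Y) * (Real.exp ((z.re - σ) ^ 2 - (Y - t) ^ 2) *
            Real.exp ((z.re - σ) * ℓ))) := by ring
          _ ≤ C₁ * (E * Real.exp (μ ^ 2)) := by gcongr
          _ ≤ D * 1 := by
              rw [hD, mul_one]
              have e1 : 0 ≤ C₀ * 8 ^ μ * E := by positivity
              have e2 : 0 ≤ A * E := by positivity
              have e3 : 0 ≤ C₁ * Real.exp 5 * E * Real.exp (μ ^ 2) := by positivity
              nlinarith
          _ ≤ M := by rw [hM]; gcongr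
    · have hy1 : 1 ≤ z.im := hz.2.1
      have hy2 : z.im ≤ Y := hz.2.2
      have hgy : ∀ x : ℝ, α ≤ x → x ≤ β →
          Real.exp ((x - σ) ^ 2 - (z.im - t) ^ 2) ≤ E := by
        intro x h2 h3
        apply Real.exp_le_exp.2
        nlinarith [hxσ x h2 h3, sq_nonneg (z.im - t)]
      rcases hz.1 with hx | hx
      · -- the left side
        rw [show z.re = α from hx, hver]
        have h3 := h0 z.im hy1
        have h4 : z.im ^ μ ≤ 8 ^ μ * t ^ μ := by
          rw [← Real.mul_rpow (by norm_num) ht0.le]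
          exact Real.rpow_le_rpow (by linarith) (by linarith) hμ
        have h5 := hgy α le_rfl hαβ.le
        have h6 : t ^ μ * t ^ (μ * (α - σ) / (β - α)) = t ^ (μ * (β - σ) / (β - α)) := by
          rw [← Real.rpow_add ht0]
          congr 1
          field_simp
          ring
        calc _ ≤ C₀ * (8 ^ μ * t ^ μ) * (E * t ^ (μ * (α - σ) / (β - α))) := by
              gcongr
              exact h3.trans (by gcongr)
          _ = C₀ * 8 ^ μ * E * (t ^ μ * t ^ (μ * (α - σ) / (β - α))) := by ring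
          _ = C₀ * 8 ^ μ * E * t ^ (μ * (β - σ) / (β - α)) := by rw [h6]
          _ ≤ M := by
              rw [hM]
              apply mul_le_mul_of_nonneg_right _ (by positivity)
              rw [hD]
              have e2 : 0 ≤ A * E := by positivity
              have e3 : 0 ≤ C₁ * Real.exp 5 * E * Real.exp (μ ^ 2) := by positivity
              have e4 : 0 ≤ C₁ * E * Real.exp (μ ^ 2) := by positivity
              linarith
      · -- the right side
        rw [show z.re = β from hx, hver]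
        have h3 := h1 z.im
        have h5 := hgy β hαβ.le le_rfl
        calc _ ≤ A * (E * t ^ (μ * (β - σ) / (β - α))) := by gcongr
          _ = A * E * t ^ (μ * (β - σ) / (β - α)) := by ring
          _ ≤ M := by
              rw [hM]
              apply mul_le_mul_of_nonneg_right _ (by positivity)
              rw [hD]
              have e1 : 0 ≤ C₀ * 8 ^ μ * E := by positivity
              have e3 : 0 ≤ C₁ * Real.exp 5 * E * Real.exp (μ ^ 2) := by positivity
              have e4 : 0 ≤ C₁ * E * Real.exp (μ ^ 2) := by positivity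
              linarith
  have hsU : s ∈ closure U := by
    rw [hclU]
    exact ⟨by simpa [hsre] using And.intro hσ hσ1, by
      show s.im ∈ Icc 1 Y
      rw [hsim]
      exact ⟨by linarith, by linarith⟩⟩
  have hfinal := Complex.norm_le_of_forall_mem_frontier_norm_le hbd hgd hcase hsU
  have hgs : g s = FF a w c s := by simp [hgdef]
  rw [hgs] at hfinal
  exact hfinal

end Pool.Agent.Y616.BM
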