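import Pool.Agent.Y616.BM.Ker

set_option autoImplicit false

/-!
# Barnes zeta functions for almost all weights, part 2: rotation of the ray
-/

namespace Pool.Agent.Y616.BM

open Finset Filter Topology MeasureTheory Complex Set FourierTransform
open Pool.Agent.H131R5.BZ Pool.Agent.Y930.Bz

/-- the majorant -/
noncomputable def gf (σ c u : ℝ) : ℝ := Real.exp (-c * Real.exp (-u)) * Real.exp (-σ * u)

lemma gf_pos (σ c u : ℝ) : 0 < gf σ c u := by unfold gf; positivity

lemma gf_cont (σ c : ℝ) : Continuous (gf σ c) := by unfold gf; fun_prop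

lemma gf_le {σ c : ℝ} (hσ : 0 < σ) (hc : 0 < c) (u : ℝ) :
    gf σ c u ≤ Real.exp ((σ + 1) ^ 2 / (2 * c)) * Real.exp (-(min σ 1) * |u|) := by
  unfold gf
  rw [← Real.exp_add, ← Real.exp_add]
  apply Real.exp_le_exp.2
  have h0 : 0 ≤ (σ + 1) ^ 2 / (2 * c) := by positivity
  rcases le_total 0 u with h | h
  · rw [abs_of_nonneg h]
    have h1 : min σ 1 * u ≤ σ * u := mul_le_mul_of_nonneg_right (min_le_left _ _) h
    have h2 : 0 < c * Real.exp (-u) := by positivity
    nlinarith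
  · rw [abs_of_nonpos h]
    set y := -u with hy
    have hy0 : 0 ≤ y := by linarith
    have h1 : min σ 1 * y ≤ 1 * y := mul_le_mul_of_nonneg_right (min_le_right _ _) hy0
    have h2 := Real.quadratic_le_exp_of_nonneg hy0
    have h3 : y ^ 2 / 2 ≤ Real.exp y := by linarith
    have h4 : c * (y ^ 2 / 2) ≤ c * Real.exp y := mul_le_mul_of_nonneg_left h3 hc.le
    have h5 : (σ + 1) * y ≤ (σ + 1) ^ 2 / (2 * c) + c * (y ^ 2 / 2) := by
      have h6 : 0 ≤ ((σ + 1) - c * y) ^ 2 / (2 * c) := by positivity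
      have h7 : ((σ + 1) - c * y) ^ 2 / (2 * c) =
          (σ + 1) ^ 2 / (2 * c) + c * (y ^ 2 / 2) - (σ + 1) * y := by
        field_simp
        ring
      linarith
    have h8 : u = -y := by rw [hy]; ring
    rw [h8]
    have h10 : -σ * -y = σ * y := by ring
    rw [h10]
    nlinarith

lemma gf_int {σ c : ℝ} (hσ : 0 < σ) (hc : 0 < c) : Integrable (gf σ c) := by
  refine Integrable.mono' ((exp_abs_int (δ := min σ 1) (lt_min hσ one_pos)).const_mul
    (Real.exp ((σ + 1) ^ 2 / (2 * c)))) (gf_cont σ c).aestronglyMeasurable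
    (ae_of_all _ fun u => ?_)
  rw [Real.norm_eq_abs, abs_of_pos (gf_pos _ _ _)]
  exact gf_le hσ hc u

lemma exp_abs_top {δ : ℝ} (hδ : 0 < δ) : Tendsto (fun R : ℝ => Real.exp (-δ * R)) atTop (𝓝 0) := by
  have h : Tendsto (fun R : ℝ => δ * R) atTop atTop := tendsto_id.const_mul_atTop hδ
  have := Real.tendsto_exp_neg_atTop_nhds_zero.comp h
  refine this.congr fun R => ?_
  simp [neg_mul]

lemma gf_maj {σ c : ℝ} (hσ : 0 < σ) :
    Tendsto (fun R : ℝ => Real.exp ((σ + 1) ^ 2 / (2 * c)) * Real.exp (-(min σ 1) * R)) atTop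
      (𝓝 0) := by
  have h := (exp_abs_top (δ := min σ 1) (lt_min hσ one_pos)).const_mul
    (Real.exp ((σ + 1) ^ 2 / (2 * c)))
  rwa [mul_zero] at h

lemma gf_top {σ c : ℝ} (hσ : 0 < σ) (hc : 0 < c) : Tendsto (gf σ c) atTop (𝓝 0) := by
  refine squeeze_zero' (Eventually.of_forall fun u => (gf_pos _ _ _).le) ?_ (gf_maj (c := c) hσ)
  filter_upwards [eventually_ge_atTop (0 : ℝ)] with u hu
  have := gf_le hσ hc u
  rwa [abs_of_nonneg hu] at this

lemma gf_bot {σ c : ℝ} (hσ : 0 < σ) (hc : 0 < c) : Tendsto (fun R => gf σ c (-R)) atTop (𝓝 0) := by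
  refine squeeze_zero' (Eventually.of_forall fun u => (gf_pos _ _ _).le) ?_ (gf_maj (c := c) hσ)
  filter_upwards [eventually_ge_atTop (0 : ℝ)] with u hu
  have := gf_le hσ hc (-u)
  rwa [abs_neg, abs_of_nonneg hu] at this

/-- equality of the integrals over two horizontal lines -/
theorem shift_line {f : ℂ → ℂ} {θ : ℝ} (hθ : 0 ≤ θ)
    (hf : ∀ z : ℂ, -θ ≤ z.im → z.im ≤ 0 → DifferentiableAt ℂ f z)
    {g : ℝ → ℝ} (hg : Integrable g) (hg1 : Tendsto g atTop (𝓝 0))
    (hg2 : Tendsto (fun R => g (-R)) atTop (𝓝 0))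
    (hb : ∀ z : ℂ, -θ ≤ z.im → z.im ≤ 0 → ‖f z‖ ≤ g z.re) :
    ∫ x : ℝ, f (x : ℂ) = ∫ x : ℝ, f ((x : ℂ) - θ * I) := by
  have hline : ∀ y : ℝ, -θ ≤ y → y ≤ 0 → Integrable (fun x : ℝ => f ((x : ℂ) + y * I)) := by
    intro y h1 h2
    refine Integrable.mono' hg ?_ (ae_of_all _ fun x => ?_)
    · refine Continuous.aestronglyMeasurable (continuous_iff_continuousAt.2 fun x => ?_)
      have h3 := (hf ((x : ℂ) + y * I) (by simpa using h1) (by simpa using h2)).continuousAt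
      exact ContinuousAt.comp (g := f) (f := fun x : ℝ => (x : ℂ) + y * I) h3 (by fun_prop)
    · have := hb ((x : ℂ) + y * I) (by simpa using h1) (by simpa using h2)
      simpa using this
  have i0 := hline 0 (by linarith) le_rfl
  have i1 := hline (-θ) le_rfl (by linarith)
  have t0 := intervalIntegral_tendsto_integral i0 (tendsto_neg_atTop_atBot) tendsto_id
  have t1 := intervalIntegral_tendsto_integral i1 (tendsto_neg_atTop_atBot) tendsto_id
  have hrect : ∀ R : ℝ, (∫ x in (-R)..R, f ((x : ℂ) + ((-θ : ℝ) : ℂ) * I)) -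
      (∫ x in (-R)..R, f ((x : ℂ) + ((0 : ℝ) : ℂ) * I)) =
      -(I • ∫ y in (-θ)..0, f ((R : ℂ) + y * I)) + I • ∫ y in (-θ)..0, f (((-R : ℝ) : ℂ) + y * I) := by
    intro R
    have h := integral_boundary_rect_eq_zero_of_differentiableOn f
      (((-R : ℝ) : ℂ) + ((-θ : ℝ) : ℂ) * I) ((R : ℂ) + ((0 : ℝ) : ℂ) * I) (by
        intro z hz
        have hz2 := hz.2
        simp only [Set.mem_preimage, add_im, ofReal_im, mul_im, ofReal_re, I_im, mul_one, I_re,
          mul_zero, add_zero, zero_add] at hz2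
        rw [Set.uIcc_of_le (by linarith)] at hz2
        exact (hf z hz2.1 hz2.2).differentiableWithinAt)
    simp only [add_re, ofReal_re, mul_re, I_re, mul_zero, ofReal_im, I_im, mul_one, sub_self,
      add_zero, add_im, mul_im, zero_add] at h
    rw [← sub_eq_zero]
    rw [← h]
    ring
  have hv : ∀ (R : ℝ), ‖∫ y in (-θ)..0, f ((R : ℂ) + y * I)‖ ≤ g R * θ := by
    intro R
    have h := intervalIntegral.norm_integral_le_of_norm_le_const (a := -θ) (b := 0) (C := g R)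
      (f := fun y : ℝ => f ((R : ℂ) + y * I)) (by
        intro y hy
        rw [Set.uIoc_of_le (by linarith)] at hy
        have := hb ((R : ℂ) + y * I) (by simpa using hy.1.le) (by simpa using hy.2)
        simpa using this)
    rwa [show |(0 : ℝ) - -θ| = θ by rw [zero_sub, neg_neg, abs_of_nonneg hθ]] at h
  have v1 : Tendsto (fun R : ℝ => ∫ y in (-θ)..0, f ((R : ℂ) + y * I)) atTop (𝓝 0) := by
    rw [tendsto_zero_iff_norm_tendsto_zero]
    refine squeeze_zero (fun R => norm_nonneg _) hv ?_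
    simpa using hg1.mul_const θ
  have v2 : Tendsto (fun R : ℝ => ∫ y in (-θ)..0, f (((-R : ℝ) : ℂ) + y * I)) atTop (𝓝 0) := by
    rw [tendsto_zero_iff_norm_tendsto_zero]
    refine squeeze_zero (fun R => norm_nonneg _) (fun R => hv (-R)) ?_
    simpa using hg2.mul_const θ
  have t2 := t1.sub t0
  have t3 : Tendsto (fun R : ℝ => -(I • ∫ y in (-θ)..0, f ((R : ℂ) + y * I)) +
      I • ∫ y in (-θ)..0, f (((-R : ℝ) : ℂ) + y * I)) atTop (𝓝 (-(I • 0) + I • 0)) :=
    ((v1.const_smul I).neg).add (v2.const_smul I)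
  have t4 := tendsto_nhds_unique (t2.congr fun R => by simpa using hrect R) t3
  simp only [smul_zero, neg_zero, add_zero] at t4
  have t5 := sub_eq_zero.1 t4
  have e0 : (fun x : ℝ => f ((x : ℂ) + ((0 : ℝ) : ℂ) * I)) = fun x : ℝ => f (x : ℂ) := by
    funext x; simp
  have e1 : (fun x : ℝ => f ((x : ℂ) + ((-θ : ℝ) : ℂ) * I)) = fun x : ℝ => f ((x : ℂ) - θ * I) := by
    funext x; congr 1; push_cast; ring
  rw [e0, e1] at t5
  exact t5.symm

variable {r : ℕ} {a : ℝ} {w : Fin r → ℝ}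

/-- the function whose Fourier transform is the rotated Mellin transform -/
noncomputable def kth (a : ℝ) (w : Fin r → ℝ) (b : ℕ → ℂ) (σ θ u : ℝ) : ℂ :=
  Real.exp (-σ * u) • Kt a w b (cexp (-(u : ℂ) + θ * I))

lemma exp_re (u y : ℝ) : (cexp (-(u : ℂ) + y * I)).re = Real.exp (-u) * Real.cos y := by
  rw [Complex.exp_re]
  simp

lemma exp_norm (u y : ℝ) : ‖cexp (-(u : ℂ) + y * I)‖ = Real.exp (-u) := by
  rw [Complex.norm_exp]
  simp

lemma cos_pos' {θ : ℝ} (h0 : 0 ≤ θ) (h1 : θ < Real.pi / 2) : 0 < Real.cos θ :=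
  Real.cos_pos_of_mem_Ioo ⟨by linarith [Real.pi_pos], h1⟩

/-- the bound in closed sectors -/
lemma sector (ha : 0 < a) (hw : ∀ j, 0 < w j) {b : ℕ → ℂ} {ρ C₀ : ℝ} (hρ : 0 < ρ)
    (hρ1 : ρ ≤ 1) (h0 : ∀ z : ℂ, z ≠ 0 → ‖z‖ ≤ ρ → ‖Kt a w b z‖ ≤ C₀) {θ : ℝ} (hθ : 0 ≤ θ)
    (hθ1 : θ < Real.pi / 2) :
    ∃ C c : ℝ, 0 ≤ C ∧ 0 < c ∧ ∀ u y : ℝ, 0 ≤ y → y ≤ θ →
      ‖Kt a w b (cexp (-(u : ℂ) + y * I))‖ ≤ C * Real.exp (-c * Real.exp (-u)) := by
  obtain ⟨C, c, hC, hc, h⟩ := Kt_sector ha hw hρ hρ1 h0 (cos_pos' hθ hθ1)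
  refine ⟨C, c, hC, hc, fun u y hy0 hyθ => ?_⟩
  have h1 := h (cexp (-(u : ℂ) + y * I)) (Complex.exp_ne_zero _) (by
    rw [exp_re, exp_norm, mul_comm]
    refine mul_le_mul_of_nonneg_left ?_ (Real.exp_pos _).le
    exact Real.cos_le_cos_of_nonneg_of_le_pi hy0 (by linarith [Real.pi_pos]) hyθ)
  rwa [exp_norm] at h1

/-- the rotated Mellin transform -/
theorem mellin_rot (ha : 0 < a) (hw : ∀ j, 0 < w j) {b : ℕ → ℂ} {ρ C₀ : ℝ} (hρ : 0 < ρ)
    (hρ1 : ρ ≤ 1) (h0 : ∀ z : ℂ, z ≠ 0 → ‖z‖ ≤ ρ → ‖Kt a w b z‖ ≤ C₀) {θ : ℝ} (hθ : 0 ≤ θ)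
    (hθ1 : θ < Real.pi / 2) {s : ℂ} (hs : 0 < s.re) :
    mellin (fun t : ℝ => Kt a w b t) s =
      cexp (s * (θ * I)) * 𝓕 (kth a w b s.re θ) (s.im / (2 * Real.pi)) := by
  obtain ⟨C, c, hC, hc, hsec⟩ := sector ha hw hρ hρ1 h0 hθ hθ1
  set F : ℂ → ℂ := fun ζ => Kt a w b (cexp (-ζ)) * cexp (-s * ζ) with hF
  have e : ∀ ζ : ℂ, cexp (-ζ) = cexp (-(ζ.re : ℂ) + ((-ζ.im : ℝ) : ℂ) * I) := by
    intro ζ
    congr 1
    apply Complex.ext <;> simp
  have key := shift_line (f := F) hθ (g := fun u => C * Real.exp (|s.im| * θ) * gf s.re c u)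
    (by
      intro z h1 h2
      rw [hF]
      refine DifferentiableAt.mul ?_ (by fun_prop)
      have h3 : DifferentiableAt ℂ (Kt a w b) (cexp (-z)) := by
        apply Kt_diff hw
        rw [e z, exp_re]
        exact mul_pos (Real.exp_pos _) (cos_pos' (by linarith) (by linarith))
      exact DifferentiableAt.comp (g := Kt a w b) (f := fun z : ℂ => cexp (-z)) z h3 (by fun_prop))
    ((gf_int hs hc).const_mul _)
    (by simpa using (gf_top hs hc).const_mul (C * Real.exp (|s.im| * θ)))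
    (by simpa using (gf_bot hs hc).const_mul (C * Real.exp (|s.im| * θ)))
    (by
      intro z h1 h2
      rw [hF]
      simp only
      rw [norm_mul, e z]
      have h3 := hsec z.re (-z.im) (by linarith) (by linarith)
      have h4 : ‖cexp (-s * z)‖ ≤ Real.exp (|s.im| * θ) * Real.exp (-s.re * z.re) := by
        rw [Complex.norm_exp, ← Real.exp_add]
        apply Real.exp_le_exp.2
        simp only [neg_mul, neg_re, mul_re]
        have h5 : s.im * z.im ≤ |s.im| * θ := by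
          calc s.im * z.im ≤ |s.im * z.im| := le_abs_self _
            _ = |s.im| * |z.im| := abs_mul _ _
            _ ≤ |s.im| * θ := by
              refine mul_le_mul_of_nonneg_left ?_ (abs_nonneg _)
              rw [abs_of_nonpos h2]; linarith
        linarith
      calc _ ≤ (C * Real.exp (-c * Real.exp (-z.re))) *
            (Real.exp (|s.im| * θ) * Real.exp (-s.re * z.re)) :=
          mul_le_mul h3 h4 (norm_nonneg _) (by positivity)
        _ = _ := by unfold gf; ring)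
  rw [mellin_eq_fourier, Real.fourier_real_eq_integral_exp_smul, Real.fourier_real_eq_integral_exp_smul]
  have e1 : ∫ x : ℝ, F (x : ℂ) = ∫ v : ℝ, cexp (↑(-2 * Real.pi * v * (s.im / (2 * Real.pi))) * I) •
      (Real.exp (-s.re * v) • Kt a w b ((Real.exp (-v) : ℝ) : ℂ)) := by
    refine integral_congr_ae (ae_of_all _ fun v => ?_)
    simp only [hF, smul_eq_mul, real_smul]
    have h1 : (-2 * Real.pi * v * (s.im / (2 * Real.pi))) = -(v * s.im) := by
      field_simp
    rw [h1]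
    have h2 : cexp (-s * v) = cexp (((-(v * s.im) : ℝ) : ℂ) * I) * ((Real.exp (-s.re * v) : ℝ) : ℂ) := by
      rw [Complex.ofReal_exp, ← Complex.exp_add]
      congr 1
      apply Complex.ext <;> simp <;> ring
    rw [h2]
    push_cast
    ring
  have e2 : ∫ x : ℝ, F ((x : ℂ) - θ * I) = cexp (s * (θ * I)) *
      ∫ v : ℝ, cexp (↑(-2 * Real.pi * v * (s.im / (2 * Real.pi))) * I) • kth a w b s.re θ v := by
    rw [← integral_const_mul]
    refine integral_congr_ae (ae_of_all _ fun v => ?_)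
    simp only [hF, kth, smul_eq_mul, real_smul]
    have h1 : (-2 * Real.pi * v * (s.im / (2 * Real.pi))) = -(v * s.im) := by
      field_simp
    rw [h1]
    have h2 : cexp (-s * ((v : ℂ) - θ * I)) = cexp (s * (θ * I)) *
        (cexp (((-(v * s.im) : ℝ) : ℂ) * I) * ((Real.exp (-s.re * v) : ℝ) : ℂ)) := by
      rw [Complex.ofReal_exp, ← Complex.exp_add, ← Complex.exp_add]
      congr 1
      apply Complex.ext <;> simp <;> ring
    have h3 : -((v : ℂ) - θ * I) = -(v : ℂ) + θ * I := by ring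
    rw [h2, h3]
    ring
  rw [← e1, key, e2]

end Pool.Agent.Y616.BM
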