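import Pool.Agent.Y616.BM.Msq

set_option autoImplicit false

/-!
# Barnes zeta functions for almost all weights, part 6: the bound by the kernel on a rotated ray
-/

namespace Pool.Agent.Y616.BM

open Finset Filter Topology MeasureTheory Complex Set FourierTransform
open Pool.Agent.H131R5.BZ Pool.Agent.Y930.Bz

/-- the weighted square integral of the kernel on a rotated ray -/
noncomputable def JJ {r : ℕ} (a : ℝ) (w : Fin r → ℝ) (σ U η : ℝ) : ENNReal :=
  ∫⁻ u in Iic U, ‖KK a w (cexp (-(u : ℂ) + ((Real.pi / 2 - η : ℝ) : ℂ) * I))‖ₑ ^ 2 *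
    ENNReal.ofReal (Real.exp (-(2 * σ) * u))

lemma KK_meas {r : ℕ} (a : ℝ) : Measurable fun p : (Fin r → ℝ) × ℂ => KK a p.1 p.2 := by
  unfold KK
  refine Measurable.mul (by fun_prop) (Finset.measurable_fun_prod _ fun j _ => ?_)
  refine Measurable.inv (Measurable.sub measurable_const ?_)
  refine Complex.measurable_exp.comp (Measurable.mul ?_ measurable_snd)
  exact (Complex.measurable_ofReal.comp ((measurable_pi_apply j).comp measurable_fst)).neg

lemma KK_ray_meas {r : ℕ} (a : ℝ) (w : Fin r → ℝ) (η : ℝ) :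
    Measurable fun u : ℝ => ‖KK a w (cexp (-(u : ℂ) + ((Real.pi / 2 - η : ℝ) : ℂ) * I))‖ₑ := by
  have h1 : Measurable fun u : ℝ =>
      ((w, cexp (-(u : ℂ) + ((Real.pi / 2 - η : ℝ) : ℂ) * I)) : (Fin r → ℝ) × ℂ) :=
    measurable_const.prodMk (by fun_prop)
  exact ((KK_meas a).comp h1).enorm

lemma enorm_sub_sq (x y : ℂ) : ‖x - y‖ₑ ^ 2 ≤ 2 * ‖x‖ₑ ^ 2 + 2 * ‖y‖ₑ ^ 2 := by
  have h1 : ‖x - y‖ ^ 2 ≤ 2 * ‖x‖ ^ 2 + 2 * ‖y‖ ^ 2 := by
    have h2 := norm_sub_le x y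
    have h3 := norm_nonneg (x - y)
    have h4 : ‖x - y‖ ^ 2 ≤ (‖x‖ + ‖y‖) ^ 2 := pow_le_pow_left₀ h3 h2 2
    nlinarith [sq_nonneg (‖x‖ - ‖y‖)]
  have h5 := ENNReal.ofReal_le_ofReal h1
  rw [ENNReal.ofReal_add (by positivity) (by positivity), ENNReal.ofReal_mul (by norm_num),
    ENNReal.ofReal_mul (by norm_num), ENNReal.ofReal_pow (norm_nonneg _),
    ENNReal.ofReal_pow (norm_nonneg _), ENNReal.ofReal_pow (norm_nonneg _), ofReal_norm,
    ofReal_norm, ofReal_norm] at h5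
  simpa using h5

lemma enorm_add_sq (x y : ℂ) : ‖x + y‖ₑ ^ 2 ≤ 2 * ‖x‖ₑ ^ 2 + 2 * ‖y‖ₑ ^ 2 := by
  have := enorm_sub_sq x (-y)
  rwa [sub_neg_eq_add, enorm_neg] at this

lemma sin_ge {η : ℝ} (h0 : 0 ≤ η) (h1 : η ≤ 1) : η / 2 ≤ Real.sin η := by
  have h2 := Real.mul_le_sin h0 (by linarith [Real.pi_gt_three])
  have h3 : (1 : ℝ) / 2 ≤ 2 / Real.pi := by
    rw [div_le_div_iff₀ (by norm_num) Real.pi_pos]
    linarith [Real.pi_le_four]
  nlinarith

variable {r : ℕ} {a : ℝ} {w : Fin r → ℝ} {c : ℕ → ℂ}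

/-- the square integral of the regularised kernel -/
theorem S_le {b : ℕ → ℂ} {ρ C₀ : ℝ} (hρ : 0 < ρ)
    (hρ1 : ρ ≤ 1) (h0 : ∀ z : ℂ, z ≠ 0 → ‖z‖ ≤ ρ → ‖Kt a w b z‖ ≤ C₀) {σ : ℝ} (hσ : 0 < σ) :
    ∃ C : ℝ, 0 ≤ C ∧ ∀ η : ℝ, 0 < η → η ≤ 1 →
      ∫⁻ u, ‖kth a w b σ (Real.pi / 2 - η) u‖ₑ ^ 2 ≤
        ENNReal.ofReal (C * η ^ (-(2 * σ))) + 2 * JJ a w σ (-Real.log ρ) η := by
  obtain ⟨C₁, hC₁, hP⟩ := Pol_le r b hρ
  obtain ⟨G, hG0, hG⟩ := gf_lint_scale (σ := 2 * σ) (c := 1) (by positivity) one_pos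
  set K : ℝ := C₀ ^ 2 * Real.exp 1 + 2 * C₁ ^ 2 with hK
  refine ⟨K * G, by positivity, fun η hη hη1 => ?_⟩
  set θ : ℝ := Real.pi / 2 - η with hθ
  have hpt : ∀ u : ℝ, ‖kth a w b σ θ u‖ₑ ^ 2 ≤ ENNReal.ofReal (K * gf (2 * σ) (1 * η) u) +
      (Iic (-Real.log ρ)).indicator (fun u : ℝ => 2 * (‖KK a w (cexp (-(u : ℂ) +
        ((Real.pi / 2 - η : ℝ) : ℂ) * I))‖ₑ ^ 2 * ENNReal.ofReal (Real.exp (-(2 * σ) * u)))) u := by
    intro u
    set z : ℂ := cexp (-(u : ℂ) + (θ : ℂ) * I) with hz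
    have hz0 : z ≠ 0 := Complex.exp_ne_zero _
    have hzn : ‖z‖ = Real.exp (-u) := exp_norm u θ
    have hzr : z.re = Real.exp (-u) * Real.sin η := by
      rw [hz, exp_re, hθ, Real.cos_pi_div_two_sub]
    have hk : ‖kth a w b σ θ u‖ₑ ^ 2 = ENNReal.ofReal (Real.exp (-(2 * σ) * u)) *
        ‖Kt a w b z‖ₑ ^ 2 := by
      unfold kth
      rw [enorm_smul, mul_pow]
      congr 1
      rw [Real.enorm_eq_ofReal (Real.exp_pos _).le, ← ENNReal.ofReal_pow (Real.exp_pos _).le,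
        ← Real.exp_nat_mul]
      congr 2
      push_cast; ring
    rw [hk]
    have he : 0 < Real.exp (-(2 * σ) * u) := Real.exp_pos _
    by_cases hu : u ≤ -Real.log ρ
    · rw [Set.indicator_of_mem (show u ∈ Iic (-Real.log ρ) from hu)]
      have h1 : ρ ≤ ‖z‖ := by
        rw [hzn]
        calc ρ = Real.exp (Real.log ρ) := (Real.exp_log hρ).symm
          _ ≤ Real.exp (-u) := Real.exp_le_exp.2 (by linarith)
      have h2 := hP z h1
      have h3 : ‖Kt a w b z‖ₑ ^ 2 ≤ 2 * ‖KK a w z‖ₑ ^ 2 + 2 * ‖Pol r b z‖ₑ ^ 2 :=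
        enorm_sub_sq _ _
      have h4 : ENNReal.ofReal (Real.exp (-(2 * σ) * u)) * (2 * ‖Pol r b z‖ₑ ^ 2) ≤
          ENNReal.ofReal (K * gf (2 * σ) (1 * η) u) := by
        have h5 : (2 : ENNReal) * ‖Pol r b z‖ₑ ^ 2 = ENNReal.ofReal (2 * ‖Pol r b z‖ ^ 2) := by
          rw [ENNReal.ofReal_mul (by norm_num), ENNReal.ofReal_pow (norm_nonneg _), ofReal_norm]
          simp
        rw [h5, ← ENNReal.ofReal_mul he.le]
        apply ENNReal.ofReal_le_ofReal
        have h6 : ‖Pol r b z‖ ^ 2 ≤ C₁ ^ 2 * Real.exp (-(1 * η) * Real.exp (-u)) := by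
          calc ‖Pol r b z‖ ^ 2 ≤ (C₁ * Real.exp (-z.re)) ^ 2 :=
                pow_le_pow_left₀ (norm_nonneg _) h2 2
            _ = C₁ ^ 2 * Real.exp (-(2 * z.re)) := by
                rw [mul_pow, ← Real.exp_nat_mul]; congr 2; push_cast; ring
            _ ≤ _ := by
                refine mul_le_mul_of_nonneg_left ?_ (by positivity)
                apply Real.exp_le_exp.2
                rw [hzr]
                have h7 := sin_ge hη.le hη1
                have h8 := Real.exp_pos (-u)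
                nlinarith
        unfold gf
        calc Real.exp (-(2 * σ) * u) * (2 * ‖Pol r b z‖ ^ 2)
            ≤ Real.exp (-(2 * σ) * u) * (2 * (C₁ ^ 2 * Real.exp (-(1 * η) * Real.exp (-u)))) := by
              gcongr
          _ = 2 * C₁ ^ 2 * (Real.exp (-(1 * η) * Real.exp (-u)) * Real.exp (-(2 * σ) * u)) := by
              ring
          _ ≤ _ := by
              refine mul_le_mul_of_nonneg_right ?_ (by positivity)
              rw [hK]
              have : 0 ≤ C₀ ^ 2 * Real.exp 1 := by positivity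
              linarith
      calc _ ≤ ENNReal.ofReal (Real.exp (-(2 * σ) * u)) *
            (2 * ‖KK a w z‖ₑ ^ 2 + 2 * ‖Pol r b z‖ₑ ^ 2) := by gcongr
        _ = ENNReal.ofReal (Real.exp (-(2 * σ) * u)) * (2 * ‖Pol r b z‖ₑ ^ 2) +
            2 * (‖KK a w z‖ₑ ^ 2 * ENNReal.ofReal (Real.exp (-(2 * σ) * u))) := by ring
        _ ≤ _ := by gcongr
    · rw [Set.indicator_of_notMem (show u ∉ Iic (-Real.log ρ) from hu), add_zero]
      have hu' : -Real.log ρ < u := lt_of_not_ge hu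
      have h1 : ‖z‖ ≤ ρ := by
        rw [hzn]
        calc Real.exp (-u) ≤ Real.exp (Real.log ρ) := Real.exp_le_exp.2 (by linarith)
          _ = ρ := Real.exp_log hρ
      have h2 := h0 z hz0 h1
      have h5 : ‖Kt a w b z‖ₑ ^ 2 = ENNReal.ofReal (‖Kt a w b z‖ ^ 2) := by
        rw [ENNReal.ofReal_pow (norm_nonneg _), ofReal_norm]
      rw [h5, ← ENNReal.ofReal_mul he.le]
      apply ENNReal.ofReal_le_ofReal
      have h6 : ‖Kt a w b z‖ ^ 2 ≤ C₀ ^ 2 := pow_le_pow_left₀ (norm_nonneg _) h2 2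
      have h7 : 1 ≤ Real.exp 1 * Real.exp (-(1 * η) * Real.exp (-u)) := by
        rw [← Real.exp_add]
        apply Real.one_le_exp
        have h8 : Real.exp (-u) ≤ 1 := by rw [← hzn]; linarith
        have h9 := Real.exp_pos (-u)
        nlinarith
      unfold gf
      calc Real.exp (-(2 * σ) * u) * ‖Kt a w b z‖ ^ 2
          ≤ Real.exp (-(2 * σ) * u) * (C₀ ^ 2 * 1) := by rw [mul_one]; gcongr
        _ ≤ Real.exp (-(2 * σ) * u) *
            (C₀ ^ 2 * (Real.exp 1 * Real.exp (-(1 * η) * Real.exp (-u)))) := by gcongr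
        _ = (C₀ ^ 2 * Real.exp 1) *
            (Real.exp (-(1 * η) * Real.exp (-u)) * Real.exp (-(2 * σ) * u)) := by ring
        _ ≤ _ := by
            refine mul_le_mul_of_nonneg_right ?_ (by positivity)
            rw [hK]
            have : 0 ≤ 2 * C₁ ^ 2 := by positivity
            linarith
  have hK0 : 0 ≤ K := by positivity
  calc _ ≤ ∫⁻ u, (ENNReal.ofReal (K * gf (2 * σ) (1 * η) u) +
      (Iic (-Real.log ρ)).indicator (fun u : ℝ => 2 * (‖KK a w (cexp (-(u : ℂ) +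
        ((Real.pi / 2 - η : ℝ) : ℂ) * I))‖ₑ ^ 2 * ENNReal.ofReal (Real.exp (-(2 * σ) * u)))) u) :=
        lintegral_mono hpt
    _ = _ := by
        rw [lintegral_add_left (by
          exact ((gf_cont (2 * σ) (1 * η)).measurable.const_mul K).ennreal_ofReal),
          lintegral_indicator measurableSet_Iic]
        congr 1
        · have h1 : ∀ u, ENNReal.ofReal (K * gf (2 * σ) (1 * η) u) =
              ENNReal.ofReal K * ENNReal.ofReal (gf (2 * σ) (1 * η) u) := fun u =>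
            ENNReal.ofReal_mul hK0
          simp only [h1]
          rw [lintegral_const_mul _ (gf_cont _ _).measurable.ennreal_ofReal, hG η hη,
            ← ENNReal.ofReal_mul hK0]
          congr 1
          ring
        · unfold JJ
          rw [lintegral_const_mul]
          exact ((KK_ray_meas a w η).pow_const 2).mul (by fun_prop)

/-- the mean square over a dyadic interval -/
theorem zone (ha : 0 < a) (hw : ∀ j, 0 < w j) (hc : Tay a w c) {σ : ℝ} (hσ : 1 / 2 ≤ σ) :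
    ∃ C U : ℝ, 0 ≤ C ∧ ∀ T : ℝ, 1 ≤ T →
      ∫⁻ t in Icc T (2 * T), ‖FF a w c ((σ : ℂ) + t * I)‖ₑ ^ 2 ≤
        ENNReal.ofReal (C * T) + ENNReal.ofReal (C * T ^ (1 - 2 * σ)) * JJ a w σ U (1 / T) := by
  obtain ⟨b, ρ, C₀, hρ, hρ1, hC₀, h0⟩ := exists_near a hw
  have hσ0 : 0 < σ := by linarith
  obtain ⟨C₁, hC₁, h1⟩ := mellin_ms ha hw hρ hρ1 h0 hσ
  obtain ⟨C₂, hC₂, h2⟩ := S_le hρ hρ1 h0 hσ0
  set B := ∑ k ∈ range r, ‖b k‖ with hB
  have hB0 : 0 ≤ B := by positivity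
  refine ⟨2 * C₁ * C₂ + 2 * B ^ 2 + 4 * C₁, -Real.log ρ, by positivity, fun T hT => ?_⟩
  have hT0 : 0 < T := by linarith
  have h3 := h1 T hT
  have hη0 : 0 < 1 / T := by positivity
  have hη1 : 1 / T ≤ 1 := by rw [div_le_one hT0]; exact hT
  have h4 := h2 (1 / T) hη0 hη1
  set J := JJ a w σ (-Real.log ρ) (1 / T) with hJ
  have hpt : ∀ t ∈ Icc T (2 * T), ‖FF a w c ((σ : ℂ) + t * I)‖ₑ ^ 2 ≤
      2 * ‖(Gamma ((σ : ℂ) + t * I))⁻¹ *
        mellin (fun t : ℝ => Kt a w b t) ((σ : ℂ) + t * I)‖ₑ ^ 2 + ENNReal.ofReal (2 * B ^ 2) := by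
    intro t ht
    have ht1 : 1 ≤ t := hT.trans ht.1
    rw [FF_formula ha hw hc hρ hρ1 h0 (s := (σ : ℂ) + t * I) (by simpa using hσ0)
      (by simp; linarith)]
    refine (enorm_add_sq _ _).trans ?_
    gcongr
    have h5 := Rt_le (r := r) b (s := (σ : ℂ) + t * I) (by simpa using ht1)
    rw [ENNReal.ofReal_mul (by norm_num), ENNReal.ofReal_pow hB0]
    have h6 : ‖Rt r b ((σ : ℂ) + t * I)‖ₑ ≤ ENNReal.ofReal B := by
      rw [← ofReal_norm]
      exact ENNReal.ofReal_le_ofReal h5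
    have h7 : ENNReal.ofReal 2 = 2 := by simp
    rw [h7]
    gcongr
  calc _ ≤ ∫⁻ t in Icc T (2 * T), (2 * ‖(Gamma ((σ : ℂ) + t * I))⁻¹ *
        mellin (fun t : ℝ => Kt a w b t) ((σ : ℂ) + t * I)‖ₑ ^ 2 + ENNReal.ofReal (2 * B ^ 2)) :=
        setLIntegral_mono' measurableSet_Icc hpt
    _ = (2 * ∫⁻ t in Icc T (2 * T), ‖(Gamma ((σ : ℂ) + t * I))⁻¹ *
        mellin (fun t : ℝ => Kt a w b t) ((σ : ℂ) + t * I)‖ₑ ^ 2) +
          ENNReal.ofReal (2 * B ^ 2) * ENNReal.ofReal T := by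
        rw [lintegral_add_right _ measurable_const, lintegral_const_mul' _ _ (by simp),
          lintegral_const, Measure.restrict_apply_univ, Real.volume_Icc]
        congr 3
        ring
    _ ≤ 2 * (ENNReal.ofReal (C₁ * T ^ (1 - 2 * σ)) *
          (ENNReal.ofReal (C₂ * (1 / T) ^ (-(2 * σ))) + 2 * J)) +
          ENNReal.ofReal (2 * B ^ 2) * ENNReal.ofReal T := by
        gcongr
        exact h3.trans (by gcongr)
    _ = ENNReal.ofReal ((2 * C₁ * C₂ + 2 * B ^ 2) * T) +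
          ENNReal.ofReal (4 * C₁ * T ^ (1 - 2 * σ)) * J := by
        have e1 : T ^ (1 - 2 * σ) * (1 / T) ^ (-(2 * σ)) = T := by
          rw [one_div, Real.inv_rpow hT0.le, ← Real.rpow_neg hT0.le, ← Real.rpow_add hT0]
          have : 1 - 2 * σ + -(-(2 * σ)) = 1 := by ring
          rw [this, Real.rpow_one]
        have e2 : ENNReal.ofReal 2 = 2 := by simp
        have hC1' : 0 ≤ C₁ := hC₁
        have hTp : 0 ≤ T ^ (1 - 2 * σ) := by positivity
        have e3 : C₁ * T ^ (1 - 2 * σ) * (C₂ * (1 / T) ^ (-(2 * σ))) = C₁ * C₂ * T := by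
          calc _ = C₁ * C₂ * (T ^ (1 - 2 * σ) * (1 / T) ^ (-(2 * σ))) := by ring
            _ = _ := by rw [e1]
        have e4 : ENNReal.ofReal (C₁ * T ^ (1 - 2 * σ)) *
            ENNReal.ofReal (C₂ * (1 / T) ^ (-(2 * σ))) = ENNReal.ofReal (C₁ * C₂ * T) := by
          rw [← ENNReal.ofReal_mul (by positivity), e3]
        have e5 : ENNReal.ofReal ((2 * C₁ * C₂ + 2 * B ^ 2) * T) =
            2 * ENNReal.ofReal (C₁ * C₂ * T) + ENNReal.ofReal (2 * B ^ 2) * ENNReal.ofReal T := by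
          have e6 : (2 * C₁ * C₂ + 2 * B ^ 2) * T = 2 * (C₁ * C₂ * T) + 2 * B ^ 2 * T := by ring
          have e7 : ENNReal.ofReal (2 * (C₁ * C₂ * T)) = 2 * ENNReal.ofReal (C₁ * C₂ * T) := by
            rw [ENNReal.ofReal_mul (by norm_num), e2]
          have e8 : ENNReal.ofReal (2 * B ^ 2 * T) =
              ENNReal.ofReal (2 * B ^ 2) * ENNReal.ofReal T := by
            rw [ENNReal.ofReal_mul (by positivity)]
          rw [e6, ENNReal.ofReal_add (by positivity) (by positivity), e7, e8]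
        have e9 : ENNReal.ofReal (4 * C₁ * T ^ (1 - 2 * σ)) =
            2 * 2 * ENNReal.ofReal (C₁ * T ^ (1 - 2 * σ)) := by
          have e6 : 4 * C₁ * T ^ (1 - 2 * σ) = 2 * (2 * (C₁ * T ^ (1 - 2 * σ))) := by ring
          rw [e6, ENNReal.ofReal_mul (by norm_num), ENNReal.ofReal_mul (by norm_num), e2]
          ring
        rw [mul_add (ENNReal.ofReal (C₁ * T ^ (1 - 2 * σ))), e4, e5, e9]
        ring
    _ ≤ _ := by
        have hTp : 0 ≤ T ^ (1 - 2 * σ) := by positivity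
        have k1 : 0 ≤ 4 * C₁ := by positivity
        have k2 : 0 ≤ 2 * C₁ * C₂ + 2 * B ^ 2 := by positivity
        refine add_le_add (ENNReal.ofReal_le_ofReal ?_) (mul_le_mul_left ?_ _)
        · nlinarith
        · exact ENNReal.ofReal_le_ofReal (by nlinarith)

end Pool.Agent.Y616.BM
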